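import Mathlib
import Pool.Agent.Q63.Star.Star10
set_option autoImplicit false

/-! The `L^4` estimate on dyadic time intervals for star-shaped sets, with arbitrary bounded
coefficients depending on the angle. -/

namespace Pool.Agent.Q63.Mix

open MeasureTheory Set Complex Pool.Agent.Q63.Star
open scoped ENNReal NNReal ComplexConjugate

lemma scaleT (h : ℂ → ℂ) (hm : Measurable h) (c : ℝ) (hc : 0 < c) (R : ℝ) :
    ∫⁻ t in Icc R (2 * R), ∫⁻ ζ : ℂ, ‖Ex (fun x => h ((c : ℂ) * x)) ζ t‖ₑ ^ 4 =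
      ENNReal.ofReal ((c ^ 4)⁻¹) *
        ∫⁻ t in Icc (R / c ^ 2) (2 * (R / c ^ 2)), ∫⁻ ζ : ℂ, ‖Ex h ζ t‖ₑ ^ 4 := by
  have hcz : ENNReal.ofReal ((c ^ 2)⁻¹) ^ 4 ≠ ∞ := ENNReal.pow_ne_top ENNReal.ofReal_ne_top
  have e1 : ∀ (ζ : ℂ) (t : ℝ), ‖Ex (fun x => h ((c : ℂ) * x)) ζ t‖ₑ ^ 4 =
      ENNReal.ofReal ((c ^ 2)⁻¹) ^ 4 *
        (fun z => ‖Ex h z ((c ^ 2)⁻¹ * t)‖ₑ ^ 4) (((c⁻¹ : ℝ) : ℂ) * ζ) := by
    intro ζ t
    simp only
    rw [Ex_scale h c hc, enorm_mul, mul_pow]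
    congr 2
    rw [← ofReal_norm, Complex.norm_real, Real.norm_eq_abs, abs_of_nonneg (by positivity)]
  simp_rw [e1]
  set G : ℝ → ℝ≥0∞ := fun s => ∫⁻ z : ℂ, ‖Ex h z s‖ₑ ^ 4 with hG
  have hGm : Measurable G :=
    (((Ex_meas h hm).comp measurable_swap).enorm.pow_const 4).lintegral_prod_right'
      (f := fun p : ℝ × ℂ => ‖Ex h p.2 p.1‖ₑ ^ 4)
  have e2 : ∀ t : ℝ, ∫⁻ ζ : ℂ, ENNReal.ofReal ((c ^ 2)⁻¹) ^ 4 *
      (fun z => ‖Ex h z ((c ^ 2)⁻¹ * t)‖ₑ ^ 4) (((c⁻¹ : ℝ) : ℂ) * ζ) =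
      ENNReal.ofReal ((c ^ 2)⁻¹) ^ 4 * ENNReal.ofReal (c ^ 2) * G ((c ^ 2)⁻¹ * t) := by
    intro t
    rw [lintegral_const_mul' _ _ hcz, lint_smulC (fun z => ‖Ex h z ((c ^ 2)⁻¹ * t)‖ₑ ^ 4)
      ((Ex_meas_left h hm _).enorm.pow_const 4) _ (inv_ne_zero hc.ne'), mul_assoc]
    congr 3
    field_simp
  simp_rw [e2]
  rw [lintegral_const_mul' _ _ (ENNReal.mul_ne_top hcz ENNReal.ofReal_ne_top)]
  have e3 : ∫⁻ t in Icc R (2 * R), G ((c ^ 2)⁻¹ * t) =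
      ENNReal.ofReal (c ^ 2) * ∫⁻ t in Icc (R / c ^ 2) (2 * (R / c ^ 2)), G t := by
    have h1 := Pool.Agent.W771.lint_scale
      ((Icc (R / c ^ 2) (2 * (R / c ^ 2))).indicator G) (hGm.indicator measurableSet_Icc)
      ((c ^ 2)⁻¹) (by positivity)
    rw [inv_inv, abs_of_pos (by positivity : (0 : ℝ) < c ^ 2),
      lintegral_indicator measurableSet_Icc] at h1
    rw [← h1, ← lintegral_indicator measurableSet_Icc]
    apply lintegral_congr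
    intro t
    have hc2 : (0 : ℝ) < c ^ 2 := by positivity
    have hiff : t ∈ Icc R (2 * R) ↔ (c ^ 2)⁻¹ * t ∈ Icc (R / c ^ 2) (2 * (R / c ^ 2)) := by
      simp only [mem_Icc]
      constructor
      · rintro ⟨h1, h2⟩
        constructor
        · rw [inv_mul_eq_div]
          gcongr
        · rw [inv_mul_eq_div, ← mul_div_assoc]
          gcongr
      · rintro ⟨h1, h2⟩
        rw [inv_mul_eq_div] at h1 h2
        rw [← mul_div_assoc] at h2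
        exact ⟨(div_le_div_iff_of_pos_right hc2).1 h1, (div_le_div_iff_of_pos_right hc2).1 h2⟩
    by_cases ht : t ∈ Icc R (2 * R)
    · rw [indicator_of_mem ht, indicator_of_mem (hiff.1 ht)]
    · rw [indicator_of_notMem ht, indicator_of_notMem (fun h => ht (hiff.2 h))]
  rw [e3, ← mul_assoc, ← ENNReal.ofReal_pow (by positivity), ← ENNReal.ofReal_mul (by positivity),
    ← ENNReal.ofReal_mul (by positivity)]
  congr 2
  field_simp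

/-- unit pieces, all dyadic times -/
lemma hu4 (ε : ℝ) (hε : 0 < ε) (hε1 : ε < 1) : ∃ C : ℝ, 0 < C ∧ ∀ σ : ℝ, 0 < σ →
    ∀ Θ : Set ℝ, MeasurableSet Θ → ∀ ρ : ℝ → ℝ, Measurable ρ →
    (∀ θ, 1 / 2 ≤ ρ θ ∧ ρ θ ≤ 1) →
    ∫⁻ t in Icc σ (2 * σ), ∫⁻ ζ : ℂ, ‖Ex (hu Θ ρ) ζ t‖ₑ ^ 4 ≤
      ENNReal.ofReal (C * σ ^ (-1 + ε)) := by
  obtain ⟨C, hC, h4⟩ := L4unit
  set δ : ℝ := ε / 3 with hδ
  have hδ0 : 0 < δ := by positivity
  obtain ⟨K0, hK0, hel⟩ := elem δ hδ0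
  have hpi := Real.pi_pos
  refine ⟨C * K0 * (2 * Real.pi) + (2 * Real.pi) ^ 5 * 256, by positivity, ?_⟩
  intro σ hσ Θ hΘ ρ hρm hρ
  have hρ1 : ∀ θ, ρ θ ≤ 1 := fun θ => (hρ θ).2
  rcases le_or_gt 16 σ with hR | hR
  · have hR1 : 1 ≤ σ := by linarith
    have hz1 : 1 ≤ σ ^ δ := Real.one_le_rpow hR1 hδ0.le
    have hz2 : 2 * σ ^ δ ≤ σ := by
      have h1 : σ ^ δ ≤ σ ^ (1 / 2 : ℝ) :=
        Real.rpow_le_rpow_of_exponent_le hR1 (by rw [hδ]; linarith)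
      rw [← Real.sqrt_eq_rpow] at h1
      have h2 : Real.sqrt σ ^ 2 = σ := Real.sq_sqrt hσ.le
      have h3 : 4 ≤ Real.sqrt σ := by
        rw [show (4 : ℝ) = Real.sqrt 16 by
          rw [show (16 : ℝ) = 4 ^ 2 by norm_num, Real.sqrt_sq (by norm_num)]]
        exact Real.sqrt_le_sqrt hR
      nlinarith
    simp_rw [Ex_hu]
    refine (h4 σ hR (σ ^ δ) hz1 hz2 Θ hΘ ρ hρm hρ).trans ?_
    refine (mul_le_mul' le_rfl (vol_le Θ)).trans ?_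
    have hlog : 0 ≤ Real.log σ := Real.log_nonneg hR1
    rw [← ENNReal.ofReal_mul (by positivity)]
    apply ENNReal.ofReal_le_ofReal
    have h5 := hel σ hR
    have e3 : 3 * δ - 1 = -1 + ε := by rw [hδ]; ring
    rw [e3] at h5
    have h6 : C * (((σ ^ δ) ^ 2 + (1 + Real.log σ) ^ 4) * ((1 + Real.log σ) / σ +
      σ ^ 2 * Real.exp (-(σ ^ δ / 128)))) ≤ C * (K0 * σ ^ (-1 + ε)) :=
      mul_le_mul_of_nonneg_left h5 hC.le
    have h7 : 0 ≤ (2 * Real.pi) ^ 5 * 256 * σ ^ (-1 + ε) := by positivity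
    calc _ = C * (((σ ^ δ) ^ 2 + (1 + Real.log σ) ^ 4) * ((1 + Real.log σ) / σ +
          σ ^ 2 * Real.exp (-(σ ^ δ / 128)))) * (2 * Real.pi) := by ring
      _ ≤ C * (K0 * σ ^ (-1 + ε)) * (2 * Real.pi) := by gcongr
      _ ≤ _ := by nlinarith
  · have h1 : ∫⁻ t in Icc σ (2 * σ), ∫⁻ ζ : ℂ, ‖Ex (hu Θ ρ) ζ t‖ₑ ^ 4 ≤
        ENNReal.ofReal ((2 * Real.pi) ^ 2) *
          ∫⁻ t in Icc σ (2 * σ), ∫⁻ ζ : ℂ, ‖Ex (hu Θ ρ) ζ t‖ₑ ^ 2 := by
      rw [← lintegral_const_mul' _ _ ENNReal.ofReal_ne_top]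
      apply lintegral_mono
      intro t
      simp only
      rw [← lintegral_const_mul' _ _ ENNReal.ofReal_ne_top]
      apply lintegral_mono
      intro ζ
      simp only
      have h2 := Ex_hu_le Θ hΘ ρ hρ1 ζ t
      calc ‖Ex (hu Θ ρ) ζ t‖ₑ ^ 4 = ‖Ex (hu Θ ρ) ζ t‖ₑ ^ 2 * ‖Ex (hu Θ ρ) ζ t‖ₑ ^ 2 := by
            rw [← pow_add]
        _ ≤ ENNReal.ofReal (2 * Real.pi) ^ 2 * ‖Ex (hu Θ ρ) ζ t‖ₑ ^ 2 :=
            mul_le_mul' (pow_le_pow_left' h2 2) le_rfl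
        _ = _ := by rw [← ENNReal.ofReal_pow (by positivity)]
    refine h1.trans ?_
    refine (mul_le_mul' le_rfl (hu_L2 Θ hΘ ρ hρm hρ1 _)).trans ?_
    refine (mul_le_mul' le_rfl (mul_le_mul' (mul_le_mul' le_rfl (vol_le Θ)) le_rfl)).trans ?_
    rw [Real.volume_Icc, ← ENNReal.ofReal_mul (by positivity), ← ENNReal.ofReal_mul (by positivity),
      ← ENNReal.ofReal_mul (by positivity)]
    apply ENNReal.ofReal_le_ofReal
    have h3 : σ = σ ^ (2 - ε) * σ ^ (-1 + ε) := by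
      rw [← Real.rpow_add hσ]
      have : 2 - ε + (-1 + ε) = 1 := by ring
      rw [this, Real.rpow_one]
    have h4' : σ ^ (2 - ε) ≤ 256 := by
      calc σ ^ (2 - ε) ≤ (16 : ℝ) ^ (2 - ε) := by
            apply Real.rpow_le_rpow hσ.le hR.le (by linarith)
        _ ≤ (16 : ℝ) ^ (2 : ℝ) := by
            apply Real.rpow_le_rpow_of_exponent_le (by norm_num) (by linarith)
        _ = 256 := by norm_num
    have h5 : 0 ≤ σ ^ (-1 + ε) := by positivity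
    have h6 : 0 ≤ C * K0 * (2 * Real.pi) * σ ^ (-1 + ε) := by positivity
    calc (2 * Real.pi) ^ 2 * ((2 * Real.pi) ^ 2 * (2 * Real.pi) * (2 * σ - σ)) =
        (2 * Real.pi) ^ 5 * σ := by ring
      _ = (2 * Real.pi) ^ 5 * (σ ^ (2 - ε) * σ ^ (-1 + ε)) := by rw [← h3]
      _ ≤ (2 * Real.pi) ^ 5 * (256 * σ ^ (-1 + ε)) := by gcongr
      _ ≤ _ := by nlinarith

/-- star-shaped sets -/
lemma star4 (ε : ℝ) (hε : 0 < ε) (hε1 : ε < 1) : ∃ C : ℝ, 0 < C ∧ ∀ R : ℝ, 0 < R →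
    ∀ S : Set ℂ, StarSet S →
    ∫⁻ t in Icc R (2 * R), ∫⁻ ζ : ℂ, ‖Ex (S.indicator (fun _ => 1)) ζ t‖ₑ ^ 4 ≤
      ENNReal.ofReal (C * R ^ (-1 + ε)) := by
  obtain ⟨C1, hC1, h1⟩ := hu4 ε hε hε1
  obtain ⟨C2, hC2⟩ := Pool.Agent.W771.sum_pow 4 1 (by norm_num) (by norm_num)
  have hr1 : ENNReal.ofReal (1 / 2) < 1 := by
    rw [ENNReal.ofReal_lt_one]
    norm_num
  refine ⟨C2 * C1 * 2 + 1, by positivity, ?_⟩
  intro R hR S hS
  set ρ : ℝ → ℝ := rr S with hρ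
  have hρm : Measurable ρ := rr_meas hS
  have hρ1 : ∀ θ, ρ θ ≤ 1 := rr_le_one hS
  have hhm : ∀ j, Measurable (hu (Tj ρ j) (rj ρ j)) := fun j =>
    hu_meas _ (Tj_meas ρ hρm j) _ (rj_meas ρ hρm j)
  have hjm : ∀ j, Measurable (hj ρ j) := by
    intro j
    unfold hj
    exact (hhm j).comp (by fun_prop)
  have e1 : ∀ (ζ : ℂ) (t : ℝ), ‖Ex (S.indicator (fun _ => 1)) ζ t‖ₑ ^ 4 ≤
      C2 * ∑' j : ℕ, ENNReal.ofReal (2 ^ j) * ‖Ex (hj ρ j) ζ t‖ₑ ^ 4 := by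
    intro ζ t
    rw [Ex_congr _ _ (ind_eq_st hS), Ex_st ρ hρm hρ1]
    have h2 := hC2 (fun j => ‖Ex (hj ρ j) ζ t‖ₑ)
    have h3 : (∑' j, ‖Ex (hj ρ j) ζ t‖ₑ) ^ (4 : ℝ) = (∑' j, ‖Ex (hj ρ j) ζ t‖ₑ) ^ 4 := by
      exact_mod_cast ENNReal.rpow_natCast _ 4
    rw [h3] at h2
    refine (pow_le_pow_left' enorm_tsum_le_tsum_enorm 4).trans (h2.trans (le_of_eq ?_))
    congr 2
    funext j
    rw [one_mul, Real.rpow_natCast]
    congr 1
    exact_mod_cast ENNReal.rpow_natCast _ 4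
  have hGm : ∀ j : ℕ, Measurable (fun p : ℝ × ℂ =>
      ENNReal.ofReal (2 ^ j) * ‖Ex (hj ρ j) p.2 p.1‖ₑ ^ 4) := fun j =>
    (((Ex_meas _ (hjm j)).comp measurable_swap).enorm.pow_const 4).const_mul _
  calc ∫⁻ t in Icc R (2 * R), ∫⁻ ζ : ℂ, ‖Ex (S.indicator (fun _ => 1)) ζ t‖ₑ ^ 4 ≤
      ∫⁻ t in Icc R (2 * R), ∫⁻ ζ : ℂ, C2 * ∑' j : ℕ, ENNReal.ofReal (2 ^ j) *
        ‖Ex (hj ρ j) ζ t‖ₑ ^ 4 := lintegral_mono fun t => lintegral_mono fun ζ => e1 ζ t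
    _ = C2 * ∑' j : ℕ, ENNReal.ofReal (2 ^ j) *
        ∫⁻ t in Icc R (2 * R), ∫⁻ ζ : ℂ, ‖Ex (hj ρ j) ζ t‖ₑ ^ 4 := by
        have h1 : ∀ t : ℝ, ∫⁻ ζ : ℂ, C2 * ∑' j : ℕ, ENNReal.ofReal (2 ^ j) *
            ‖Ex (hj ρ j) ζ t‖ₑ ^ 4 = C2 * ∑' j : ℕ, ∫⁻ ζ : ℂ,
            ENNReal.ofReal (2 ^ j) * ‖Ex (hj ρ j) ζ t‖ₑ ^ 4 := by
          intro t
          rw [lintegral_const_mul' _ _ ENNReal.coe_ne_top, lintegral_tsum]
          intro j
          exact ((hGm j).comp measurable_prodMk_left).aemeasurable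
        simp_rw [h1]
        rw [lintegral_const_mul' _ _ ENNReal.coe_ne_top, lintegral_tsum]
        · congr 2
          funext j
          rw [← lintegral_const_mul' _ _ ENNReal.ofReal_ne_top]
          apply lintegral_congr
          intro t
          rw [lintegral_const_mul' _ _ ENNReal.ofReal_ne_top]
        · intro j
          exact ((hGm j).lintegral_prod_right').aemeasurable
    _ ≤ C2 * ∑' j : ℕ, ENNReal.ofReal (C1 * R ^ (-1 + ε)) * ENNReal.ofReal (1 / 2) ^ j := by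
        refine mul_le_mul' le_rfl (ENNReal.tsum_le_tsum fun j => ?_)
        have h2 : ∫⁻ t in Icc R (2 * R), ∫⁻ ζ : ℂ, ‖Ex (hj ρ j) ζ t‖ₑ ^ 4 ≤
            ENNReal.ofReal ((((2 : ℝ) ^ j) ^ 4)⁻¹) *
              ENNReal.ofReal (C1 * (R / (2 ^ j) ^ 2) ^ (-1 + ε)) := by
          unfold hj
          rw [scaleT _ (hhm j) (2 ^ j) (by positivity) R]
          exact mul_le_mul' le_rfl (h1 _ (by positivity) _ (Tj_meas ρ hρm j) _
            (rj_meas ρ hρm j) (rj_bd ρ j))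
        refine (mul_le_mul' le_rfl h2).trans ?_
        rw [← ENNReal.ofReal_mul (by positivity), ← ENNReal.ofReal_mul (by positivity),
          ← ENNReal.ofReal_pow (by norm_num), ← ENNReal.ofReal_mul (by positivity)]
        apply ENNReal.ofReal_le_ofReal
        have hj2 : (0 : ℝ) < 2 ^ j := by positivity
        have hj21 : (1 : ℝ) ≤ 2 ^ j := one_le_pow₀ (by norm_num)
        have h3 : (R / (2 ^ j) ^ 2) ^ (-1 + ε) ≤ R ^ (-1 + ε) * ((2 : ℝ) ^ j) ^ 2 := by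
          rw [Real.div_rpow hR.le (by positivity), div_eq_mul_inv, ← Real.rpow_neg (by positivity)]
          refine mul_le_mul_of_nonneg_left ?_ (by positivity)
          calc (((2 : ℝ) ^ j) ^ 2) ^ (-(-1 + ε)) ≤ (((2 : ℝ) ^ j) ^ 2) ^ (1 : ℝ) := by
                apply Real.rpow_le_rpow_of_exponent_le (one_le_pow₀ hj21) (by linarith)
            _ = _ := Real.rpow_one _
        calc (2 : ℝ) ^ j * ((((2 : ℝ) ^ j) ^ 4)⁻¹ * (C1 * (R / (2 ^ j) ^ 2) ^ (-1 + ε))) ≤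
            (2 : ℝ) ^ j * ((((2 : ℝ) ^ j) ^ 4)⁻¹ * (C1 * (R ^ (-1 + ε) * ((2 : ℝ) ^ j) ^ 2))) := by
              gcongr
          _ = C1 * R ^ (-1 + ε) * (1 / 2) ^ j := by
              rw [div_pow, one_pow]
              field_simp
    _ ≤ _ := by
        rw [ENNReal.tsum_mul_left, ENNReal.tsum_geometric]
        have h5 : (1 - ENNReal.ofReal (1 / 2))⁻¹ = 2 := by
          rw [show (1 : ℝ≥0∞) = ENNReal.ofReal 1 by simp, ← ENNReal.ofReal_sub _ (by norm_num),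
            show (1 : ℝ) - 1 / 2 = 1 / 2 by norm_num, ← ENNReal.ofReal_inv_of_pos (by norm_num)]
          norm_num
        rw [h5]
        have h6 : (C2 : ℝ≥0∞) = ENNReal.ofReal C2 := by simp
        rw [h6, show (2 : ℝ≥0∞) = ENNReal.ofReal 2 by norm_num, ← ENNReal.ofReal_mul (by positivity),
          ← ENNReal.ofReal_mul (by positivity)]
        apply ENNReal.ofReal_le_ofReal
        have h7 : 0 ≤ R ^ (-1 + ε) := by positivity
        nlinarith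

end Pool.Agent.Q63.Mix
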