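import Mathlib
import Pool.Agent.Q63.Mix.Four
set_option autoImplicit false

/-! Star-shaped sets with complex coefficients depending on the angle. -/

namespace Pool.Agent.Q63.Mix

open MeasureTheory Set Complex Pool.Agent.Q63.Star
open scoped ENNReal NNReal ComplexConjugate

/-- real angular coefficient on a star-shaped set -/
noncomputable def hr (S : Set ℂ) (β : ℝ → ℝ) (x : ℂ) : ℝ := S.indicator (fun x => β (arg x)) x

lemma hr_ray {S : Set ℂ} (hS : StarSet S) (β : ℝ → ℝ) (hβ : Measurable β) (h0 : ∀ θ, 0 ≤ β θ) :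
    RayFn (hr S β) where
  meas := (hβ.comp Complex.measurable_arg).indicator hS.meas
  nonneg := fun x => indicator_nonneg (fun _ _ => h0 _) x
  mono := by
    intro x s hs hs1
    unfold hr
    by_cases hx : x ∈ S
    · rw [indicator_of_mem hx, indicator_of_mem (hS.star x hx s hs hs1),
        Complex.arg_real_mul x hs]
    · rw [indicator_of_notMem hx]
      exact indicator_nonneg (fun _ _ => h0 _) _
  supp := by
    intro x hx
    unfold hr
    rw [indicator_of_notMem]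
    intro h
    have := hS.bdd x h
    linarith

lemma hr_le {S : Set ℂ} (β : ℝ → ℝ) (h0 : ∀ θ, 0 ≤ β θ) (h1 : ∀ θ, β θ ≤ 1) (x : ℂ) :
    hr S β x ≤ 1 := by
  unfold hr
  by_cases hx : x ∈ S
  · rw [indicator_of_mem hx]
    exact h1 _
  · rw [indicator_of_notMem hx]
    norm_num

lemma hr_fin {S : Set ℂ} (hS : StarSet S) (β : ℝ → ℝ) (h1 : ∀ θ, β θ ≤ 1) :
    ∫⁻ x, ENNReal.ofReal (hr S β x) ≠ ∞ := by
  have h2 : ∀ x, ENNReal.ofReal (hr S β x) ≤ (Metric.ball (0 : ℂ) 1).indicator (fun _ => 1) x := by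
    intro x
    unfold hr
    by_cases hx : x ∈ S
    · rw [indicator_of_mem hx, indicator_of_mem (by rw [mem_ball_zero_iff]; exact hS.bdd x hx),
        ENNReal.ofReal_le_one]
      exact h1 _
    · rw [indicator_of_notMem hx, ENNReal.ofReal_zero]
      exact zero_le
  refine ne_top_of_le_ne_top ?_ (lintegral_mono h2)
  rw [lintegral_indicator_const measurableSet_ball, one_mul]
  exact Metric.isBounded_ball.measure_lt_top.ne

lemma tri_swap' (F : (ℝ × ℂ) × ℝ → ℝ≥0∞) (hF : Measurable F) (μ ν : Measure ℝ) [SFinite μ]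
    [SFinite ν] :
    ∫⁻ t, (∫⁻ ζ : ℂ, (∫⁻ s, F ((t, ζ), s) ∂ν)) ∂μ =
      ∫⁻ s, (∫⁻ t, (∫⁻ ζ : ℂ, F ((t, ζ), s)) ∂μ) ∂ν := by
  have h1 : Measurable (fun p : ℝ × ℂ => ∫⁻ s, F (p, s) ∂ν) := hF.lintegral_prod_right'
  calc ∫⁻ t, (∫⁻ ζ : ℂ, (∫⁻ s, F ((t, ζ), s) ∂ν)) ∂μ =
      ∫⁻ p : ℝ × ℂ, (∫⁻ s, F (p, s) ∂ν) ∂(μ.prod (volume : Measure ℂ)) := by
        rw [lintegral_prod _ h1.aemeasurable]
    _ = ∫⁻ s, (∫⁻ p : ℝ × ℂ, F (p, s) ∂(μ.prod (volume : Measure ℂ))) ∂ν :=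
        lintegral_lintegral_swap (f := fun p s => F (p, s)) hF.aemeasurable
    _ = _ := by
        apply lintegral_congr
        intro s
        have h2 : Measurable (fun p : ℝ × ℂ => F (p, s)) := hF.comp measurable_prodMk_right
        rw [lintegral_prod _ h2.aemeasurable]

lemma real4 (ε : ℝ) (hε : 0 < ε) (hε1 : ε < 1) : ∃ C : ℝ, 0 < C ∧ ∀ R : ℝ, 0 < R →
    ∀ S : Set ℂ, StarSet S → ∀ β : ℝ → ℝ, Measurable β → (∀ θ, 0 ≤ β θ) → (∀ θ, β θ ≤ 1) →
    ∫⁻ t in Icc R (2 * R), ∫⁻ ζ : ℂ, ‖Ex (fun x => (hr S β x : ℂ)) ζ t‖ₑ ^ 4 ≤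
      ENNReal.ofReal (C * R ^ (-1 + ε)) := by
  obtain ⟨C, hC, h4⟩ := star4 ε hε hε1
  refine ⟨C, hC, ?_⟩
  intro R hR S hS β hβ h0 h1
  have hh := hr_ray hS β hβ h0
  have hfin := hr_fin hS β h1
  have hum := (Ex_kr_meas hh.meas).enorm
  have hpt : ∀ (ζ : ℂ) (t : ℝ), ‖Ex (fun x => (hr S β x : ℂ)) ζ t‖ₑ ^ 4 ≤
      ∫⁻ s in Ioc (0 : ℝ) 1, ‖Ex (kr (hr S β) s) ζ t‖ₑ ^ 4 := by
    intro ζ t
    have e1 : ∫⁻ s in Ioi (0 : ℝ), ‖Ex (kr (hr S β) s) ζ t‖ₑ ≤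
        ∫⁻ s in Ioc (0 : ℝ) 1, ‖Ex (kr (hr S β) s) ζ t‖ₑ := by
      rw [← Ioc_union_Ioi_eq_Ioi (zero_le_one (α := ℝ))]
      refine (lintegral_union_le _ _ _).trans ?_
      have : ∫⁻ s in Ioi (1 : ℝ), ‖Ex (kr (hr S β) s) ζ t‖ₑ = 0 := by
        rw [setLIntegral_congr_fun (g := fun _ => 0) measurableSet_Ioi]
        · simp
        · intro s hs
          have hs1 : (1 : ℝ) < s := hs
          have hk : kr (hr S β) s = fun _ => 0 := by
            funext x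
            unfold kr
            rw [indicator_of_notMem]
            intro hx
            have h2 : s < hr S β x := hx
            have h3 := hr_le (S := S) β h0 h1 x
            linarith
          simp only
          rw [hk]
          unfold Ex
          simp
      rw [this, add_zero]
    have h5 := hol4 (volume.restrict (Ioc (0 : ℝ) 1)) (fun s : ℝ => ‖Ex (kr (hr S β) s) ζ t‖ₑ)
      (u_meas hh.meas ζ t).aemeasurable
    rw [Measure.restrict_apply_univ, Real.volume_Ioc, sub_zero, ENNReal.ofReal_one, one_pow,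
      one_mul] at h5
    exact (pow_le_pow_left' ((Ex_layer hh hfin ζ t).trans e1) 4).trans h5
  calc ∫⁻ t in Icc R (2 * R), ∫⁻ ζ : ℂ, ‖Ex (fun x => (hr S β x : ℂ)) ζ t‖ₑ ^ 4 ≤
      ∫⁻ t in Icc R (2 * R), ∫⁻ ζ : ℂ, ∫⁻ s in Ioc (0 : ℝ) 1, ‖Ex (kr (hr S β) s) ζ t‖ₑ ^ 4 :=
        lintegral_mono fun t => lintegral_mono fun ζ => hpt ζ t
    _ = ∫⁻ s in Ioc (0 : ℝ) 1, ∫⁻ t in Icc R (2 * R), ∫⁻ ζ : ℂ,
        ‖Ex (kr (hr S β) s) ζ t‖ₑ ^ 4 :=
        tri_swap' (fun p => ‖Ex (kr (hr S β) p.2) p.1.2 p.1.1‖ₑ ^ 4) (hum.pow_const 4)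
          (volume.restrict (Icc R (2 * R))) (volume.restrict (Ioc 0 1))
    _ ≤ ∫⁻ s in Ioc (0 : ℝ) 1, ENNReal.ofReal (C * R ^ (-1 + ε)) := by
        refine setLIntegral_mono' measurableSet_Ioc fun s hs => ?_
        exact h4 R hR _ (SL_star hh s hs.1)
    _ = _ := by
        rw [lintegral_const, Measure.restrict_apply_univ, Real.volume_Ioc, sub_zero,
          ENNReal.ofReal_one, mul_one]

/-- complex angular coefficient on a star-shaped set -/
noncomputable def hb (S : Set ℂ) (b : ℝ → ℂ) (x : ℂ) : ℂ := S.indicator (fun x => b (arg x)) x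

lemma hb_meas {S : Set ℂ} (hS : MeasurableSet S) (b : ℝ → ℂ) (hb' : Measurable b) :
    Measurable (hb S b) := (hb'.comp Complex.measurable_arg).indicator hS

lemma hb_le {S : Set ℂ} (b : ℝ → ℂ) (h1 : ∀ θ, ‖b θ‖ ≤ 1) (x : ℂ) :
    ‖hb S b x‖ ≤ S.indicator (fun _ => 1) x := by
  unfold hb
  by_cases hx : x ∈ S
  · rw [indicator_of_mem hx, indicator_of_mem hx]
    exact h1 _
  · rw [indicator_of_notMem hx, indicator_of_notMem hx, norm_zero]

lemma ind_int {S : Set ℂ} (hS : StarSet S) : Integrable (S.indicator (fun _ => (1 : ℝ))) := by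
  refine (integrable_indicator_iff hS.meas).2 ?_
  refine integrableOn_const ?_
  refine ne_top_of_le_ne_top (Metric.isBounded_ball (x := (0 : ℂ)) (r := 1)).measure_lt_top.ne
    (measure_mono fun x hx => ?_)
  rw [mem_ball_zero_iff]
  exact hS.bdd x hx

lemma hb_int {S : Set ℂ} (hS : StarSet S) (b : ℝ → ℂ) (hb' : Measurable b)
    (h1 : ∀ θ, ‖b θ‖ ≤ 1) : Integrable (hb S b) :=
  (ind_int hS).mono' (hb_meas hS.meas b hb').aestronglyMeasurable
    (Filter.Eventually.of_forall (hb_le b h1))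

lemma hb_dec (S : Set ℂ) (b : ℝ → ℂ) (x : ℂ) : hb S b x =
    ((hr S (fun θ => max 0 (b θ).re) x : ℝ) : ℂ) + I * ((hr S (fun θ => max 0 (b θ).im) x : ℝ) : ℂ)
      - ((hr S (fun θ => max 0 (-(b θ).re)) x : ℝ) : ℂ) +
      -I * ((hr S (fun θ => max 0 (-(b θ).im)) x : ℝ) : ℂ) := by
  unfold hb hr
  by_cases hx : x ∈ S
  · simp only [indicator_of_mem hx]
    have h1 : ∀ u : ℝ, max 0 u - max 0 (-u) = u := by
      intro u
      rcases le_total 0 u with h | h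
      · rw [max_eq_right h, max_eq_left (by linarith), sub_zero]
      · rw [max_eq_left h, max_eq_right (by linarith)]
        ring
    have h2 := h1 (b (arg x)).re
    have h3 := h1 (b (arg x)).im
    conv_lhs => rw [← Complex.re_add_im (b (arg x)), ← h2, ← h3]
    push_cast
    ring
  · simp only [indicator_of_notMem hx]
    simp

/-- **Arbitrary bounded angular coefficients.** -/
theorem coef4 (ε : ℝ) (hε : 0 < ε) (hε1 : ε < 1) : ∃ C : ℝ, 0 < C ∧ ∀ R : ℝ, 0 < R →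
    ∀ S : Set ℂ, StarSet S → ∀ b : ℝ → ℂ, Measurable b → (∀ θ, ‖b θ‖ ≤ 1) →
    ∫⁻ t in Icc R (2 * R), ∫⁻ ζ : ℂ, ‖Ex (hb S b) ζ t‖ₑ ^ 4 ≤
      ENNReal.ofReal (C * R ^ (-1 + ε)) := by
  obtain ⟨C, hC, h4⟩ := real4 ε hε hε1
  refine ⟨256 * C, by positivity, ?_⟩
  intro R hR S hS b hbm h1
  set β : Fin 4 → ℝ → ℝ := ![fun θ => max 0 (b θ).re, fun θ => max 0 (b θ).im,
    fun θ => max 0 (-(b θ).re), fun θ => max 0 (-(b θ).im)] with hβ
  have hre := Complex.measurable_re.comp hbm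
  have him := Complex.measurable_im.comp hbm
  have hm : ∀ i, Measurable (β i) := by
    intro i
    fin_cases i
    · exact measurable_const.max hre
    · exact measurable_const.max him
    · exact measurable_const.max hre.neg
    · exact measurable_const.max him.neg
  have h0 : ∀ i θ, 0 ≤ β i θ := by
    intro i θ
    fin_cases i <;> exact le_max_left _ _
  have hle : ∀ i θ, β i θ ≤ 1 := by
    intro i θ
    have hr1 := (Complex.abs_re_le_norm (b θ)).trans (h1 θ)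
    have hi1 := (Complex.abs_im_le_norm (b θ)).trans (h1 θ)
    fin_cases i
    · exact max_le zero_le_one ((le_abs_self _).trans hr1)
    · exact max_le zero_le_one ((le_abs_self _).trans hi1)
    · exact max_le zero_le_one ((neg_le_abs _).trans hr1)
    · exact max_le zero_le_one ((neg_le_abs _).trans hi1)
  set E : Fin 4 → ℂ → ℝ → ℂ := fun i ζ t => Ex (fun x => (hr S (β i) x : ℂ)) ζ t with hE
  have hint : ∀ i, Integrable (fun x => (hr S (β i) x : ℂ)) := by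
    intro i
    refine (ind_int hS).mono' ?_ (Filter.Eventually.of_forall fun x => ?_)
    · exact (Complex.measurable_ofReal.comp
        (hr_ray hS (β i) (hm i) (h0 i)).meas).aestronglyMeasurable
    · rw [Complex.norm_real, Real.norm_eq_abs, abs_of_nonneg
        ((hr_ray hS (β i) (hm i) (h0 i)).nonneg x)]
      unfold hr
      by_cases hx : x ∈ S
      · rw [indicator_of_mem hx, indicator_of_mem hx]
        exact hle i _
      · rw [indicator_of_notMem hx, indicator_of_notMem hx]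
  have hdec : ∀ (ζ : ℂ) (t : ℝ), Ex (hb S b) ζ t = E 0 ζ t + I * E 1 ζ t - E 2 ζ t +
      -I * E 3 ζ t := by
    intro ζ t
    have j := fun i => Ex_int _ (hint i) ζ t
    rw [hE]
    simp only
    unfold Ex
    rw [← integral_const_mul, ← integral_const_mul,
      ← integral_add (by exact j 0) (by exact (j 1).const_mul I),
      ← integral_sub (by exact (j 0).add ((j 1).const_mul I)) (by exact j 2),
      ← integral_add (by exact ((j 0).add ((j 1).const_mul I)).sub (j 2))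
        (by exact (j 3).const_mul (-I))]
    apply integral_congr_ae
    filter_upwards with x
    rw [hb_dec S b x]
    simp only [hβ, Matrix.cons_val]
    ring
  have hpt : ∀ (ζ : ℂ) (t : ℝ), ‖Ex (hb S b) ζ t‖ₑ ^ 4 ≤ 64 * (‖E 0 ζ t‖ₑ ^ 4 + ‖E 1 ζ t‖ₑ ^ 4 +
      ‖E 2 ζ t‖ₑ ^ 4 + ‖E 3 ζ t‖ₑ ^ 4) := by
    intro ζ t
    rw [hdec]
    have hI : ‖(I : ℂ)‖ₑ = 1 := by
      rw [← ofReal_norm, Complex.norm_I, ENNReal.ofReal_one]
    have := sum4 (E 0 ζ t) (I * E 1 ζ t) (E 2 ζ t) (-I * E 3 ζ t)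
    rw [enorm_mul, enorm_mul, enorm_neg, hI, one_mul, one_mul] at this
    exact this
  have hM : ∀ i, Measurable (fun p : ℝ × ℂ => ‖E i p.2 p.1‖ₑ ^ 4) := fun i =>
    ((Ex_meas _ (Complex.measurable_ofReal.comp
      (hr_ray hS (β i) (hm i) (h0 i)).meas)).comp measurable_swap).enorm.pow_const 4
  have hB := fun i => h4 R hR S hS (β i) (hm i) (h0 i) (hle i)
  calc ∫⁻ t in Icc R (2 * R), ∫⁻ ζ : ℂ, ‖Ex (hb S b) ζ t‖ₑ ^ 4 ≤
      ∫⁻ t in Icc R (2 * R), ∫⁻ ζ : ℂ, 64 * (‖E 0 ζ t‖ₑ ^ 4 + ‖E 1 ζ t‖ₑ ^ 4 +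
      ‖E 2 ζ t‖ₑ ^ 4 + ‖E 3 ζ t‖ₑ ^ 4) := lintegral_mono fun t => lintegral_mono fun ζ => hpt ζ t
    _ = 64 * ((∫⁻ t in Icc R (2 * R), ∫⁻ ζ : ℂ, ‖E 0 ζ t‖ₑ ^ 4) +
        (∫⁻ t in Icc R (2 * R), ∫⁻ ζ : ℂ, ‖E 1 ζ t‖ₑ ^ 4) +
        (∫⁻ t in Icc R (2 * R), ∫⁻ ζ : ℂ, ‖E 2 ζ t‖ₑ ^ 4) +
        ∫⁻ t in Icc R (2 * R), ∫⁻ ζ : ℂ, ‖E 3 ζ t‖ₑ ^ 4) := by
        have h9 : ∀ t : ℝ, ∫⁻ ζ : ℂ, 64 * (‖E 0 ζ t‖ₑ ^ 4 + ‖E 1 ζ t‖ₑ ^ 4 +
            ‖E 2 ζ t‖ₑ ^ 4 + ‖E 3 ζ t‖ₑ ^ 4) = 64 * ((∫⁻ ζ : ℂ, ‖E 0 ζ t‖ₑ ^ 4) +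
            (∫⁻ ζ : ℂ, ‖E 1 ζ t‖ₑ ^ 4) + (∫⁻ ζ : ℂ, ‖E 2 ζ t‖ₑ ^ 4) +
            ∫⁻ ζ : ℂ, ‖E 3 ζ t‖ₑ ^ 4) := by
          intro t
          have sec : ∀ F : ℝ × ℂ → ℝ≥0∞, Measurable F → Measurable (fun ζ : ℂ => F (t, ζ)) :=
            fun F hF => hF.comp measurable_prodMk_left
          exact lint_add4 volume _ _ _ _ (sec _ (hM 0)) (sec _ (hM 1)) (sec _ (hM 2))
        simp_rw [h9]
        exact lint_add4 _ _ _ _ _ ((hM 0).lintegral_prod_right' (ν := (volume : Measure ℂ)))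
          ((hM 1).lintegral_prod_right' (ν := (volume : Measure ℂ)))
          ((hM 2).lintegral_prod_right' (ν := (volume : Measure ℂ)))
    _ ≤ 64 * (ENNReal.ofReal (C * R ^ (-1 + ε)) + ENNReal.ofReal (C * R ^ (-1 + ε)) +
        ENNReal.ofReal (C * R ^ (-1 + ε)) + ENNReal.ofReal (C * R ^ (-1 + ε))) :=
        mul_le_mul' le_rfl (add_le_add (add_le_add (add_le_add (hB 0) (hB 1)) (hB 2)) (hB 3))
    _ = _ := by
        have h5 : 256 * C * R ^ (-1 + ε) = 256 * (C * R ^ (-1 + ε)) := by ring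
        rw [h5, ENNReal.ofReal_mul (p := 256) (by norm_num), show ENNReal.ofReal 256 = 256 by norm_num]
        ring

end Pool.Agent.Q63.Mix
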