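import Mathlib
import Pool.Agent.Q63.Mix.Coef
import Pool.Agent.H728R3.SR.P
set_option autoImplicit false

/-! The one-dimensional transforms of profiles. -/

namespace Pool.Agent.Q63.Mix

open MeasureTheory Set Complex Pool.Agent.Q63.Star
open scoped ENNReal NNReal ComplexConjugate

/-- the transform of a profile -/
noncomputable def HH (g : ℝ → ℂ) (v t : ℝ) : ℂ :=
  ∫ y in Icc (-1 : ℝ) 1, ph (v * y + t * y ^ 2) * g y

lemma phv_meas (v t : ℝ) : Measurable (fun y : ℝ => ph (v * y + t * y ^ 2)) := by fun_prop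

lemma HH_int {g : ℝ → ℂ} (hg : Measurable g) (h1 : ∀ y, ‖g y‖ ≤ 2) (v t : ℝ) :
    Integrable (fun y => ph (v * y + t * y ^ 2) * g y) (volume.restrict (Icc (-1 : ℝ) 1)) := by
  refine Integrable.mono' (g := fun _ => (2 : ℝ)) (integrable_const _)
    ((phv_meas v t).mul hg).aestronglyMeasurable (ae_of_all _ fun y => ?_)
  rw [norm_mul, norm_ph, one_mul]
  exact h1 y

lemma HH_le {g : ℝ → ℂ} (h1 : ∀ y, ‖g y‖ ≤ 1) (v t : ℝ) : ‖HH g v t‖ ≤ 2 := by
  unfold HH
  refine (norm_setIntegral_le_of_norm_le_const (C := 1) ?_ ?_).trans ?_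
  · rw [Real.volume_Icc]
    exact ENNReal.ofReal_lt_top
  · intro y _
    rw [norm_mul, norm_ph, one_mul]
    exact h1 y
  · rw [Measure.real, Real.volume_Icc, ENNReal.toReal_ofReal (by norm_num)]
    norm_num

lemma HH_sub {g h : ℝ → ℂ} (hg : Measurable g) (hh : Measurable h) (h1 : ∀ y, ‖g y‖ ≤ 1)
    (h2 : ∀ y, ‖h y‖ ≤ 1) (v t : ℝ) :
    HH (fun y => g y - h y) v t = HH g v t - HH h v t := by
  unfold HH
  rw [← integral_sub (HH_int hg (fun y => (h1 y).trans (by norm_num)) v t)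
    (HH_int hh (fun y => (h2 y).trans (by norm_num)) v t)]
  apply integral_congr_ae
  filter_upwards with y
  ring

lemma HH_L2 {g : ℝ → ℂ} (hg : Measurable g) (h1 : ∀ y, ‖g y‖ ≤ 2) (t : ℝ) :
    ∫⁻ v, ‖HH g v t‖ₑ ^ 2 ≤ ENNReal.ofReal (2 * Real.pi) * ∫⁻ y in Icc (-1 : ℝ) 1, ‖g y‖ₑ ^ 2 := by
  set G : ℝ → ℂ := fun y => (Icc (-1 : ℝ) 1).indicator (fun y => ph (t * y ^ 2) * g y) y with hG
  have hGm : Measurable G := by
    apply Measurable.indicator _ measurableSet_Icc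
    exact (by fun_prop : Measurable fun y : ℝ => ph (t * y ^ 2)).mul hg
  have hGi : Integrable G := by
    refine (integrable_indicator_iff measurableSet_Icc).2 ?_
    refine Integrable.mono' (g := fun _ => (2 : ℝ)) (integrable_const _) ?_
      (ae_of_all _ fun y => ?_)
    · exact ((by fun_prop : Measurable fun y : ℝ => ph (t * y ^ 2)).mul hg).aestronglyMeasurable
    · rw [norm_mul, norm_ph, one_mul]
      exact h1 y
  have e1 : ∀ v : ℝ, HH g v t = ∫ u : ℝ, ph (v * u) * G u := by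
    intro v
    unfold HH
    rw [← integral_indicator measurableSet_Icc]
    apply integral_congr_ae
    filter_upwards with y
    rw [hG]
    by_cases hy : y ∈ Icc (-1 : ℝ) 1
    · simp only [indicator_of_mem hy]
      rw [ph_add, mul_assoc]
    · simp only [indicator_of_notMem hy, mul_zero]
  have e2 : ∫⁻ y in Icc (-1 : ℝ) 1, ‖g y‖ₑ ^ 2 = ∫⁻ u, ‖G u‖ₑ ^ 2 := by
    rw [← lintegral_indicator measurableSet_Icc]
    apply lintegral_congr
    intro y
    rw [hG]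
    by_cases hy : y ∈ Icc (-1 : ℝ) 1
    · simp only [indicator_of_mem hy]
      rw [enorm_mul, enorm_ph, one_mul]
    · simp only [indicator_of_notMem hy, enorm_zero]
      norm_num
  have hFm : Measurable (fun v : ℝ => ‖∫ u : ℝ, ph (v * u) * G u‖ₑ ^ 2) := by
    have h : Measurable (fun w : ℝ × ℝ => ph (w.1 * w.2) * G w.2) := by fun_prop
    exact ((h.stronglyMeasurable.integral_prod_right' (ν := volume)).measurable.enorm).pow_const 2
  have h3 := planch1 G hGm hGi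
  have h4 := Pool.Agent.W771.lint_scale _ hFm 2 (by norm_num)
  rw [h4] at h3
  simp_rw [e1]
  rw [e2]
  calc ∫⁻ v, ‖∫ u : ℝ, ph (v * u) * G u‖ₑ ^ 2 =
      ENNReal.ofReal 2 * (ENNReal.ofReal |(2 : ℝ)⁻¹| * ∫⁻ v, ‖∫ u : ℝ, ph (v * u) * G u‖ₑ ^ 2) := by
        rw [← mul_assoc, ← ENNReal.ofReal_mul (by norm_num)]
        norm_num
    _ ≤ ENNReal.ofReal 2 * (ENNReal.ofReal Real.pi * ∫⁻ u, ‖G u‖ₑ ^ 2) := mul_le_mul' le_rfl h3
    _ = _ := by rw [← mul_assoc, ← ENNReal.ofReal_mul (by norm_num)]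

/-- parameter measurability -/
lemma HH_meas {α : Type*} [MeasurableSpace α] (g : α → ℝ → ℂ)
    (hg : Measurable (fun p : α × ℝ => g p.1 p.2)) :
    Measurable (fun w : α × (ℝ × ℝ) => HH (g w.1) w.2.1 w.2.2) := by
  have h : Measurable (fun p : (α × (ℝ × ℝ)) × ℝ =>
      ph (p.1.2.1 * p.2 + p.1.2.2 * p.2 ^ 2) * g p.1.1 p.2) := by
    have h1 : Measurable (fun p : (α × (ℝ × ℝ)) × ℝ => g p.1.1 p.2) :=
      hg.comp (f := fun p : (α × (ℝ × ℝ)) × ℝ => (p.1.1, p.2)) (by fun_prop)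
    have h2 : Measurable (fun p : (α × (ℝ × ℝ)) × ℝ =>
      ph (p.1.2.1 * p.2 + p.1.2.2 * p.2 ^ 2)) := by fun_prop
    exact h2.mul h1
  exact (h.stronglyMeasurable.integral_prod_right'
    (ν := volume.restrict (Icc (-1 : ℝ) 1))).measurable

/-- the full transform -/
noncomputable def Kt (v t : ℝ) : ℂ := HH (fun _ => 1) v t

lemma Kt_meas : Measurable (fun p : ℝ × ℝ => Kt p.1 p.2) := by
  have h := HH_meas (α := Unit) (fun _ _ => 1) (by fun_prop)
  have h2 := h.comp (f := fun p : ℝ × ℝ => (((), p) : Unit × (ℝ × ℝ))) (by fun_prop)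
  exact h2

lemma Kt_sq (v t : ℝ) (ht : t ≠ 0) : ‖Kt v t‖ ^ 2 ≤ 16 * Real.pi / |t| := by
  have hpi := Real.pi_pos
  have h := Pool.Agent.H728R3.SR.J_all (-v / (2 * Real.pi)) (-t / (2 * Real.pi))
    (div_ne_zero (neg_ne_zero.2 ht) (by positivity))
  have e1 : Pool.Agent.H728R3.SR.e1 (Pool.Agent.H728R3.SR.ind (-1) 1) (-v / (2 * Real.pi))
      (-t / (2 * Real.pi)) = Kt v t := by
    unfold Pool.Agent.H728R3.SR.e1 Pool.Agent.H728R3.SR.ind Kt HH
    apply setIntegral_congr_fun measurableSet_Icc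
    intro y hy
    simp only
    rw [indicator_of_mem hy, one_mul, mul_one]
    unfold ph
    congr 1
    push_cast
    have : (Real.pi : ℂ) ≠ 0 := by exact_mod_cast hpi.ne'
    field_simp
    ring
  rw [e1] at h
  refine h.trans (le_of_eq ?_)
  rw [abs_div, abs_neg, abs_of_pos (by positivity : (0 : ℝ) < 2 * Real.pi)]
  have : |t| ≠ 0 := abs_ne_zero.2 ht
  field_simp
  norm_num

lemma Kt4 (t : ℝ) (ht : t ≠ 0) (c : ℝ) :
    ∫⁻ v, ‖Kt (v + c) t‖ₑ ^ 4 ≤ ENNReal.ofReal (64 * Real.pi ^ 2 / |t|) := by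
  have hpi := Real.pi_pos
  rw [lintegral_add_right_eq_self (fun v => ‖Kt v t‖ₑ ^ 4) c]
  have h1 : ∀ v, ‖Kt v t‖ₑ ^ 4 ≤ ENNReal.ofReal (16 * Real.pi / |t|) * ‖Kt v t‖ₑ ^ 2 := by
    intro v
    have h2 : ‖Kt v t‖ₑ ^ 2 ≤ ENNReal.ofReal (16 * Real.pi / |t|) := by
      rw [← ofReal_norm, ← ENNReal.ofReal_pow (norm_nonneg _)]
      exact ENNReal.ofReal_le_ofReal (Kt_sq v t ht)
    calc ‖Kt v t‖ₑ ^ 4 = ‖Kt v t‖ₑ ^ 2 * ‖Kt v t‖ₑ ^ 2 := by rw [← pow_add]
      _ ≤ _ := mul_le_mul' h2 le_rfl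
  calc ∫⁻ v, ‖Kt v t‖ₑ ^ 4 ≤ ∫⁻ v, ENNReal.ofReal (16 * Real.pi / |t|) * ‖Kt v t‖ₑ ^ 2 :=
        lintegral_mono h1
    _ = ENNReal.ofReal (16 * Real.pi / |t|) * ∫⁻ v, ‖Kt v t‖ₑ ^ 2 :=
        lintegral_const_mul' _ _ ENNReal.ofReal_ne_top
    _ ≤ ENNReal.ofReal (16 * Real.pi / |t|) * (ENNReal.ofReal (2 * Real.pi) *
        ∫⁻ y in Icc (-1 : ℝ) 1, ‖(1 : ℂ)‖ₑ ^ 2) :=
        mul_le_mul' le_rfl (HH_L2 measurable_const (fun y => by rw [norm_one]; norm_num) t)
    _ = _ := by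
        rw [enorm_one, one_pow, lintegral_const, one_mul, Measure.restrict_apply_univ,
          Real.volume_Icc, ← ENNReal.ofReal_mul (by positivity), ← ENNReal.ofReal_mul (by positivity)]
        congr 1
        ring

/-- expansion of a profile -/
lemma HH_rep (a : ℤ → ℂ) (ha : Summable fun m => ‖a m‖) (W : ℝ → ℂ)
    (hrep : ∀ x ∈ Icc (-2 : ℝ) 2, HasSum (fun m : ℤ => a m * ph (-(Real.pi / 4 * m * x))) (W x))
    (η : ℝ) (hη : η ∈ Icc (-1 : ℝ) 1) (v t : ℝ) :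
    HasSum (fun m : ℤ => a m * ph (-(Real.pi / 4 * m * η)) * Kt (v + Real.pi / 4 * m) t)
      (HH (fun y => W (η - y)) v t) := by
  set F : ℤ → ℝ → ℂ := fun m y => a m * ph (-(Real.pi / 4 * m * η)) *
    (ph ((v + Real.pi / 4 * m) * y + t * y ^ 2) * 1) with hF
  have hFm : ∀ m, Measurable (F m) := fun m => by
    rw [hF]
    simp only
    fun_prop
  have hFn : ∀ m y, ‖F m y‖ = ‖a m‖ := by
    intro m y
    rw [hF]
    simp only [norm_mul, norm_ph, norm_one, mul_one]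
  have hFi : ∀ m, Integrable (F m) (volume.restrict (Icc (-1 : ℝ) 1)) := by
    intro m
    refine Integrable.mono' (g := fun _ => ‖a m‖) (integrable_const _)
      (hFm m).aestronglyMeasurable (ae_of_all _ fun y => (hFn m y).le)
  have hs : Summable fun m => ∫ y in Icc (-1 : ℝ) 1, ‖F m y‖ := by
    simp_rw [hFn]
    simp only [integral_const, smul_eq_mul]
    exact ha.mul_left _
  have h := hasSum_integral_of_summable_integral_norm hFi hs
  have e1 : ∀ m : ℤ, ∫ y in Icc (-1 : ℝ) 1, F m y =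
      a m * ph (-(Real.pi / 4 * m * η)) * Kt (v + Real.pi / 4 * m) t := by
    intro m
    rw [hF]
    simp only
    rw [integral_const_mul]
    rfl
  have e2 : ∫ y in Icc (-1 : ℝ) 1, ∑' m, F m y = HH (fun y => W (η - y)) v t := by
    unfold HH
    apply setIntegral_congr_fun measurableSet_Icc
    intro y hy
    simp only
    have h1 := (hrep (η - y) ⟨by linarith [hη.1, hy.2], by linarith [hη.2, hy.1]⟩).mul_left
      (ph (v * y + t * y ^ 2))
    rw [← h1.tsum_eq]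
    congr 1
    ext m
    rw [hF]
    simp only
    rw [mul_one, mul_assoc, ← ph_add, mul_left_comm, ← ph_add]
    congr 2
    ring
  rw [e2] at h
  simp_rw [e1] at h
  exact h

end Pool.Agent.Q63.Mix
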