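import Mathlib
import Pool.Agent.Q63.Mix.Kb
set_option autoImplicit false

/-! The extension operator on tensor products of a rough planar function and profiles: `L^2` and
`L^∞` bounds. -/

namespace Pool.Agent.Q63.Mix

open MeasureTheory Set Complex Pool.Agent.Q63.Star
open scoped ENNReal NNReal ComplexConjugate

/-- star-shaped sets about `0`, in the open disc of radius `3` -/
structure Star3 (S : Set ℂ) : Prop where
  meas : MeasurableSet S
  star : ∀ x ∈ S, ∀ s : ℝ, 0 < s → s ≤ 1 → (s : ℂ) * x ∈ S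
  bdd : ∀ x ∈ S, ‖x‖ < 3

lemma Star3.scale {S : Set ℂ} (hS : Star3 S) : StarSet {x : ℂ | ((3 : ℝ) : ℂ) * x ∈ S} where
  meas := hS.meas.preimage (f := fun x : ℂ => ((3 : ℝ) : ℂ) * x) (by fun_prop)
  star := by
    intro x hx s hs hs1
    have := hS.star _ hx s hs hs1
    show ((3 : ℝ) : ℂ) * ((s : ℂ) * x) ∈ S
    rw [mul_left_comm]
    exact this
  bdd := by
    intro x hx
    have := hS.bdd _ hx
    rw [norm_mul, Complex.norm_real, Real.norm_eq_abs, abs_of_pos (by norm_num)] at this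
    linarith

lemma hb_scale (S : Set ℂ) (b : ℝ → ℂ) :
    (fun x => hb S b (((3 : ℝ) : ℂ) * x)) = hb {x : ℂ | ((3 : ℝ) : ℂ) * x ∈ S} b := by
  funext x
  unfold hb
  by_cases hx : ((3 : ℝ) : ℂ) * x ∈ S
  · rw [indicator_of_mem hx, indicator_of_mem (show x ∈ {x : ℂ | ((3 : ℝ) : ℂ) * x ∈ S} from hx),
      Complex.arg_real_mul x (by norm_num)]
  · rw [indicator_of_notMem hx,
      indicator_of_notMem (show x ∉ {x : ℂ | ((3 : ℝ) : ℂ) * x ∈ S} from hx)]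

/-- the `L^4` bound on the disc of radius `3` -/
theorem coef4' (ε : ℝ) (hε : 0 < ε) (hε1 : ε < 1) : ∃ C : ℝ, 0 < C ∧ ∀ R : ℝ, 0 < R →
    ∀ S : Set ℂ, Star3 S → ∀ b : ℝ → ℂ, Measurable b → (∀ θ, ‖b θ‖ ≤ 1) →
    ∫⁻ t in Icc R (2 * R), ∫⁻ ζ : ℂ, ‖Ex (hb S b) ζ t‖ₑ ^ 4 ≤
      ENNReal.ofReal (C * R ^ (-1 + ε)) := by
  obtain ⟨C, hC, h4⟩ := coef4 ε hε hε1
  refine ⟨81 * C, by positivity, ?_⟩
  intro R hR S hS b hb' h1
  have h2 := h4 (9 * R) (by positivity) _ hS.scale b hb' h1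
  rw [← hb_scale, scaleT (hb S b) (hb_meas hS.meas b hb') 3 (by norm_num) (9 * R)] at h2
  have e1 : 9 * R / 3 ^ 2 = R := by ring
  rw [e1] at h2
  calc ∫⁻ t in Icc R (2 * R), ∫⁻ ζ : ℂ, ‖Ex (hb S b) ζ t‖ₑ ^ 4 =
      ENNReal.ofReal 81 * (ENNReal.ofReal ((3 ^ 4)⁻¹) *
        ∫⁻ t in Icc R (2 * R), ∫⁻ ζ : ℂ, ‖Ex (hb S b) ζ t‖ₑ ^ 4) := by
        rw [← mul_assoc, ← ENNReal.ofReal_mul (by norm_num)]
        norm_num
    _ ≤ ENNReal.ofReal 81 * ENNReal.ofReal (C * (9 * R) ^ (-1 + ε)) := mul_le_mul' le_rfl h2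
    _ ≤ _ := by
        rw [← ENNReal.ofReal_mul (by norm_num)]
        apply ENNReal.ofReal_le_ofReal
        rw [Real.mul_rpow (by norm_num) hR.le]
        have h3 : (9 : ℝ) ^ (-1 + ε) ≤ 1 :=
          Real.rpow_le_one_of_one_le_of_nonpos (by norm_num) (by linarith)
        have h5 : 0 ≤ R ^ (-1 + ε) := by positivity
        calc 81 * (C * ((9 : ℝ) ^ (-1 + ε) * R ^ (-1 + ε))) ≤ 81 * (C * (1 * R ^ (-1 + ε))) := by
              gcongr
          _ = _ := by ring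

/-- volume of the disc -/
noncomputable def V3 : ℝ := 9 * Real.pi

lemma V3_pos : 0 < V3 := by unfold V3; positivity

lemma vol3 {S : Set ℂ} (hS : Star3 S) : volume S ≤ ENNReal.ofReal V3 := by
  refine (measure_mono (t := Metric.ball (0 : ℂ) 3) fun x hx => ?_).trans (le_of_eq ?_)
  · rw [mem_ball_zero_iff]
    exact hS.bdd x hx
  · rw [Complex.volume_ball]
    unfold V3
    rw [ENNReal.ofReal_mul (by norm_num), ← ENNReal.ofReal_pow (by norm_num)]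
    congr 1
    · norm_num
    · exact (ENNReal.ofReal_eq_coe_nnreal Real.pi_pos.le).symm ▸ rfl

lemma hbM_le {S : Set ℂ} (b : ℝ → ℂ) (M : ℝ) (hM : 0 ≤ M) (h1 : ∀ θ, ‖b θ‖ ≤ M) (x : ℂ) :
    ‖hb S b x‖ ≤ S.indicator (fun _ => M) x := by
  unfold hb
  by_cases hx : x ∈ S
  · rw [indicator_of_mem hx, indicator_of_mem hx]
    exact h1 _
  · rw [indicator_of_notMem hx, indicator_of_notMem hx, norm_zero]

lemma hbM_int {S : Set ℂ} (hS : Star3 S) (b : ℝ → ℂ) (hb' : Measurable b) (M : ℝ) (hM : 0 ≤ M)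
    (h1 : ∀ θ, ‖b θ‖ ≤ M) : Integrable (hb S b) := by
  refine Integrable.mono' (g := S.indicator (fun _ => M)) ?_
    (hb_meas hS.meas b hb').aestronglyMeasurable
    (Filter.Eventually.of_forall (hbM_le b M hM h1))
  refine (integrable_indicator_iff hS.meas).2 (integrableOn_const ?_)
  exact ne_top_of_le_ne_top ENNReal.ofReal_ne_top (vol3 hS)

/-- parameter measurability of the planar extension operator -/
lemma Exp_meas {α : Type*} [MeasurableSpace α] (f : α → ℂ → ℂ)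
    (hf : Measurable (fun p : α × ℂ => f p.1 p.2)) :
    Measurable (fun w : α × (ℂ × ℝ) => Ex (f w.1) w.2.1 w.2.2) := by
  have h1 : Measurable (fun p : (α × (ℂ × ℝ)) × ℂ => f p.1.1 p.2) :=
    hf.comp (f := fun p : (α × (ℂ × ℝ)) × ℂ => (p.1.1, p.2)) (by fun_prop)
  have h2 : Measurable (fun p : (α × (ℂ × ℝ)) × ℂ =>
      ph (dt p.2 p.1.2.1 + p.1.2.2 * normSq p.2)) :=
    ker_meas.comp (f := fun p : (α × (ℂ × ℝ)) × ℂ => ((p.1.2, p.2) : (ℂ × ℝ) × ℂ)) (by fun_prop)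
  exact ((h2.mul h1).stronglyMeasurable.integral_prod_right' (ν := volume)).measurable

/-- the coefficient -/
noncomputable def cf {k : ℕ} (b : ℝ → ℂ) (g : Fin k → ℝ → ℝ → ℂ) (v : Fin k → ℝ) (t θ : ℝ) : ℂ :=
  b θ * ∏ j, HH (g j θ) (v j) t

/-- the extension operator on a tensor product -/
noncomputable def TT {k : ℕ} (S : Set ℂ) (b : ℝ → ℂ) (g : Fin k → ℝ → ℝ → ℂ) (ζ : ℂ)
    (v : Fin k → ℝ) (t : ℝ) : ℂ := Ex (hb S (cf b g v t)) ζ t

/-- admissible profiles -/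
structure Prf {k : ℕ} (g : Fin k → ℝ → ℝ → ℂ) : Prop where
  meas : ∀ j, Measurable (fun p : ℝ × ℝ => g j p.1 p.2)
  le : ∀ j θ y, ‖g j θ y‖ ≤ 1

lemma Prf.sec {k : ℕ} {g : Fin k → ℝ → ℝ → ℂ} (h : Prf g) (j : Fin k) (θ : ℝ) :
    Measurable (g j θ) := (h.meas j).comp measurable_prodMk_left

lemma cf_meas {k : ℕ} {b : ℝ → ℂ} (hb' : Measurable b) {g : Fin k → ℝ → ℝ → ℂ} (hg : Prf g) :
    Measurable (fun p : ((Fin k → ℝ) × ℝ) × ℝ => cf b g p.1.1 p.1.2 p.2) := by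
  unfold cf
  refine (hb'.comp measurable_snd).mul (Finset.measurable_prod _ fun j _ => ?_)
  exact (HH_meas (g j) (hg.meas j)).comp
    (f := fun p : ((Fin k → ℝ) × ℝ) × ℝ => ((p.2, (p.1.1 j, p.1.2)) : ℝ × (ℝ × ℝ))) (by fun_prop)

lemma cf_meas1 {k : ℕ} {b : ℝ → ℂ} (hb' : Measurable b) {g : Fin k → ℝ → ℝ → ℂ} (hg : Prf g)
    (v : Fin k → ℝ) (t : ℝ) : Measurable (cf b g v t) :=
  (cf_meas hb' hg).comp (f := fun θ : ℝ => (((v, t), θ) : ((Fin k → ℝ) × ℝ) × ℝ)) (by fun_prop)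

lemma cf_le {k : ℕ} {b : ℝ → ℂ} (h1 : ∀ θ, ‖b θ‖ ≤ 1) {g : Fin k → ℝ → ℝ → ℂ} (hg : Prf g)
    (v : Fin k → ℝ) (t θ : ℝ) : ‖cf b g v t θ‖ ≤ 2 ^ k := by
  unfold cf
  rw [norm_mul, norm_prod]
  calc ‖b θ‖ * ∏ j, ‖HH (g j θ) (v j) t‖ ≤ 1 * ∏ _j : Fin k, (2 : ℝ) := by
        refine mul_le_mul (h1 θ) ?_ (Finset.prod_nonneg fun j _ => norm_nonneg _) zero_le_one
        exact Finset.prod_le_prod (fun j _ => norm_nonneg _) fun j _ => HH_le (hg.le j θ) _ _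
    _ = 2 ^ k := by simp

lemma hbcf_meas {k : ℕ} {S : Set ℂ} (hS : MeasurableSet S) {b : ℝ → ℂ} (hb' : Measurable b)
    {g : Fin k → ℝ → ℝ → ℂ} (hg : Prf g) :
    Measurable (fun p : ((Fin k → ℝ) × ℝ) × ℂ => hb S (cf b g p.1.1 p.1.2) p.2) := by
  have h1 : Measurable (fun p : ((Fin k → ℝ) × ℝ) × ℂ => cf b g p.1.1 p.1.2 (arg p.2)) :=
    (cf_meas hb' hg).comp (f := fun p : ((Fin k → ℝ) × ℝ) × ℂ => ((p.1, arg p.2) :
      ((Fin k → ℝ) × ℝ) × ℝ)) (measurable_fst.prodMk (Complex.measurable_arg.comp measurable_snd))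
  have h2 : MeasurableSet {p : ((Fin k → ℝ) × ℝ) × ℂ | p.2 ∈ S} := measurable_snd hS
  have h3 := h1.indicator h2
  convert h3 using 1
  funext p
  unfold hb
  by_cases hx : p.2 ∈ S
  · rw [indicator_of_mem hx, indicator_of_mem (show p ∈ {p : ((Fin k → ℝ) × ℝ) × ℂ | p.2 ∈ S}
      from hx)]
  · rw [indicator_of_notMem hx, indicator_of_notMem
      (show p ∉ {p : ((Fin k → ℝ) × ℝ) × ℂ | p.2 ∈ S} from hx)]

lemma TT_meas {k : ℕ} {S : Set ℂ} (hS : MeasurableSet S) {b : ℝ → ℂ} (hb' : Measurable b)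
    {g : Fin k → ℝ → ℝ → ℂ} (hg : Prf g) :
    Measurable (fun w : (ℝ × (Fin k → ℝ)) × ℂ => TT S b g w.2 w.1.2 w.1.1) := by
  have h := Exp_meas (α := (Fin k → ℝ) × ℝ) (fun p x => hb S (cf b g p.1 p.2) x)
    (hbcf_meas hS hb' hg)
  exact h.comp (f := fun w : (ℝ × (Fin k → ℝ)) × ℂ => (((w.1.2, w.1.1), (w.2, w.1.1)) :
    ((Fin k → ℝ) × ℝ) × (ℂ × ℝ))) (by fun_prop)

lemma TT_le {k : ℕ} {S : Set ℂ} (hS : Star3 S) {b : ℝ → ℂ} (h1 : ∀ θ, ‖b θ‖ ≤ 1)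
    {g : Fin k → ℝ → ℝ → ℂ} (hg : Prf g) (ζ : ℂ) (v : Fin k → ℝ) (t : ℝ) :
    ‖TT S b g ζ v t‖ₑ ≤ ENNReal.ofReal (2 ^ k * V3) := by
  unfold TT
  refine (Ex_le _ _ _).trans ?_
  calc ∫⁻ x, ‖hb S (cf b g v t) x‖ₑ ≤ ∫⁻ x, S.indicator (fun _ => ENNReal.ofReal (2 ^ k)) x := by
        apply lintegral_mono
        intro x
        simp only
        have h2 := hbM_le (S := S) (cf b g v t) (2 ^ k) (by positivity) (cf_le h1 hg v t) x
        rw [← ofReal_norm]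
        by_cases hx : x ∈ S
        · rw [indicator_of_mem hx] at h2 ⊢
          exact ENNReal.ofReal_le_ofReal h2
        · rw [indicator_of_notMem hx] at h2 ⊢
          rw [le_antisymm h2 (norm_nonneg _), ENNReal.ofReal_zero]
    _ = ENNReal.ofReal (2 ^ k) * volume S := lintegral_indicator_const hS.meas _
    _ ≤ ENNReal.ofReal (2 ^ k) * ENNReal.ofReal V3 := mul_le_mul' le_rfl (vol3 hS)
    _ = _ := (ENNReal.ofReal_mul (by positivity)).symm

/-- Plancherel for tensor products -/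
theorem TT_L2 {k : ℕ} {S : Set ℂ} (hS : Star3 S) {b : ℝ → ℂ} (hb' : Measurable b)
    (h1 : ∀ θ, ‖b θ‖ ≤ 1) {g : Fin k → ℝ → ℝ → ℂ} (hg : Prf g) (B : Fin k → ℝ≥0∞)
    (hB : ∀ j θ, ∫⁻ y in Icc (-1 : ℝ) 1, ‖g j θ y‖ₑ ^ 2 ≤ B j) (t : ℝ) :
    ∫⁻ v : Fin k → ℝ, ∫⁻ ζ : ℂ, ‖TT S b g ζ v t‖ₑ ^ 2 ≤
      ENNReal.ofReal ((2 * Real.pi) ^ 2) * (ENNReal.ofReal V3 *
        ∏ j, (ENNReal.ofReal (2 * Real.pi) * B j)) := by
  have hm2 : Measurable (fun p : (Fin k → ℝ) × ℂ => ‖hb S (cf b g p.1 t) p.2‖ₑ ^ 2) :=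
    ((hbcf_meas hS.meas hb' hg).comp (f := fun p : (Fin k → ℝ) × ℂ => (((p.1, t), p.2) :
      ((Fin k → ℝ) × ℝ) × ℂ)) (by fun_prop)).enorm.pow_const 2
  calc ∫⁻ v : Fin k → ℝ, ∫⁻ ζ : ℂ, ‖TT S b g ζ v t‖ₑ ^ 2 ≤
      ∫⁻ v : Fin k → ℝ, ENNReal.ofReal ((2 * Real.pi) ^ 2) *
        ∫⁻ x : ℂ, ‖hb S (cf b g v t) x‖ₑ ^ 2 := by
        apply lintegral_mono
        intro v
        exact planch2 _ (hb_meas hS.meas _ (cf_meas1 hb' hg v t))
          (hbM_int hS _ (cf_meas1 hb' hg v t) (2 ^ k) (by positivity) (cf_le h1 hg v t)) t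
    _ = ENNReal.ofReal ((2 * Real.pi) ^ 2) *
        ∫⁻ v : Fin k → ℝ, ∫⁻ x : ℂ, ‖hb S (cf b g v t) x‖ₑ ^ 2 :=
        lintegral_const_mul' _ _ ENNReal.ofReal_ne_top
    _ = ENNReal.ofReal ((2 * Real.pi) ^ 2) *
        ∫⁻ x : ℂ, ∫⁻ v : Fin k → ℝ, ‖hb S (cf b g v t) x‖ₑ ^ 2 := by
        rw [lintegral_lintegral_swap hm2.aemeasurable]
    _ ≤ ENNReal.ofReal ((2 * Real.pi) ^ 2) *
        ∫⁻ x : ℂ, S.indicator (fun _ => ∏ j, (ENNReal.ofReal (2 * Real.pi) * B j)) x := by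
        refine mul_le_mul' le_rfl (lintegral_mono fun x => ?_)
        simp only
        by_cases hx : x ∈ S
        · rw [indicator_of_mem hx]
          have e1 : ∀ v : Fin k → ℝ, ‖hb S (cf b g v t) x‖ₑ ^ 2 ≤
              ∏ j, (fun j (w : ℝ) => ‖HH (g j (arg x)) w t‖ₑ ^ 2) j (v j) := by
            intro v
            unfold hb cf
            rw [indicator_of_mem hx, enorm_mul, mul_pow]
            have h2 : ‖b (arg x)‖ₑ ≤ 1 := by
              rw [← ofReal_norm, ENNReal.ofReal_le_one]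
              exact h1 _
            have h3 : ‖∏ j, HH (g j (arg x)) (v j) t‖ₑ = ∏ j, ‖HH (g j (arg x)) (v j) t‖ₑ := by
              rw [← ofReal_norm, norm_prod, ENNReal.ofReal_prod_of_nonneg fun j _ => norm_nonneg _]
              simp_rw [ofReal_norm]
            rw [h3, ← Finset.prod_pow]
            calc _ ≤ 1 ^ 2 * ∏ j, ‖HH (g j (arg x)) (v j) t‖ₑ ^ 2 :=
                  mul_le_mul' (pow_le_pow_left' h2 2) le_rfl
              _ = _ := by rw [one_pow, one_mul]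
          refine (lintegral_mono e1).trans ?_
          have h5 := Pool.Agent.H728R3.SR.lint_prod k
            (fun j (w : ℝ) => ‖HH (g j (arg x)) w t‖ₑ ^ 2) (by
              intro j
              have h4 : Measurable (fun w : ℝ => HH (g j (arg x)) w t) :=
                (HH_meas (g j) (hg.meas j)).comp
                  (f := fun w : ℝ => ((arg x, (w, t)) : ℝ × (ℝ × ℝ))) (by fun_prop)
              exact h4.enorm.pow_const 2)
          refine h5.le.trans ?_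
          refine Finset.prod_le_prod' fun j _ => ?_
          exact (HH_L2 (hg.sec j _) (fun y => (hg.le j _ y).trans (by norm_num)) t).trans
            (mul_le_mul' le_rfl (hB j _))
        · rw [indicator_of_notMem hx]
          refine le_of_eq ?_
          unfold hb
          simp only [indicator_of_notMem hx, enorm_zero]
          simp
    _ = ENNReal.ofReal ((2 * Real.pi) ^ 2) *
        ((∏ j, (ENNReal.ofReal (2 * Real.pi) * B j)) * volume S) := by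
        rw [lintegral_indicator_const hS.meas]
    _ ≤ _ := by
        refine mul_le_mul' le_rfl ?_
        rw [mul_comm]
        exact mul_le_mul' (vol3 hS) le_rfl

end Pool.Agent.Q63.Mix
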