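import Mathlib
import Pool.Agent.Q63.Mix.Tens
set_option autoImplicit false

/-! The `L^4` bound for tensor products with soft profiles, by induction on the number of
profiles. -/

namespace Pool.Agent.Q63.Mix

open MeasureTheory Set Complex Pool.Agent.Q63.Star
open scoped ENNReal NNReal ComplexConjugate

/-- the family of translates of a profile -/
def wf {k : ℕ} (W : ℝ → ℂ) (η : Fin k → ℝ → ℝ) : Fin k → ℝ → ℝ → ℂ := fun j θ y => W (η j θ - y)

lemma wf_prf {k : ℕ} {W : ℝ → ℂ} (hW : Measurable W) (hW1 : ∀ x, ‖W x‖ ≤ 1) {η : Fin k → ℝ → ℝ}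
    (hη : ∀ j, Measurable (η j)) : Prf (wf W η) where
  meas := fun j => hW.comp (((hη j).comp measurable_fst).sub measurable_snd)
  le := fun j θ y => hW1 _

lemma cons_eq {k : ℕ} (p : ℝ × (Fin k → ℝ)) :
    (MeasurableEquiv.piFinSuccAbove (fun _ : Fin (k + 1) => ℝ) 0).symm p =
      (Fin.cons p.1 p.2 : Fin (k + 1) → ℝ) := by
  funext j
  refine Fin.cases ?_ (fun i => ?_) j
  · simp [MeasurableEquiv.piFinSuccAbove]
  · simp [MeasurableEquiv.piFinSuccAbove]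

lemma cons_meas {k : ℕ} : Measurable (fun p : ℝ × (Fin k → ℝ) =>
    (Fin.cons p.1 p.2 : Fin (k + 1) → ℝ)) := by
  have h := (MeasurableEquiv.piFinSuccAbove (fun _ : Fin (k + 1) => ℝ) 0).symm.measurable
  have e : (fun p : ℝ × (Fin k → ℝ) => (Fin.cons p.1 p.2 : Fin (k + 1) → ℝ)) =
      (MeasurableEquiv.piFinSuccAbove (fun _ : Fin (k + 1) => ℝ) 0).symm :=
    funext fun p => (cons_eq p).symm
  rw [e]
  exact h

lemma lint_cons {k : ℕ} (F : (Fin (k + 1) → ℝ) → ℝ≥0∞) (hF : Measurable F) :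
    ∫⁻ v, F v = ∫⁻ v' : Fin k → ℝ, ∫⁻ s : ℝ, F (Fin.cons s v') := by
  have h1 := (volume_preserving_piFinSuccAbove (fun _ : Fin (k + 1) => ℝ) 0).symm
  have h2 := h1.lintegral_comp_emb (MeasurableEquiv.measurableEmbedding _) F
  have hm : Measurable (fun p : ℝ × (Fin k → ℝ) => F (Fin.cons p.1 p.2)) :=
    hF.comp cons_meas
  have h3 : ∫⁻ p : ℝ × (Fin k → ℝ), F (Fin.cons p.1 p.2) = ∫⁻ v, F v := by
    rw [← h2]
    apply lintegral_congr
    intro p
    rw [cons_eq]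
  rw [← h3, show (volume : Measure (ℝ × (Fin k → ℝ))) = volume.prod volume from rfl,
    lintegral_prod_symm _ hm.aemeasurable]

lemma holT (w u : ℤ → ℝ≥0∞) :
    (∑' m, w m * u m) ^ 4 ≤ (∑' m, w m) ^ 3 * ∑' m, w m * u m ^ 4 := by
  have h := hol4w (Measure.count : Measure ℤ) w u (measurable_of_countable _)
    (measurable_of_countable _)
  rw [lintegral_count, lintegral_count, lintegral_count] at h
  exact h

/-- the pointwise expansion -/
lemma TT_exp {k : ℕ} {S : Set ℂ} (hS : Star3 S) {b : ℝ → ℂ} (hb' : Measurable b)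
    (h1 : ∀ θ, ‖b θ‖ ≤ 1) (a : ℤ → ℂ) (ha : Summable fun m => ‖a m‖) (W : ℝ → ℂ)
    (hW : Measurable W) (hW1 : ∀ x, ‖W x‖ ≤ 1)
    (hrep : ∀ x ∈ Icc (-2 : ℝ) 2, HasSum (fun m : ℤ => a m * ph (-(Real.pi / 4 * m * x))) (W x))
    (η : Fin (k + 1) → ℝ → ℝ) (hη : ∀ j, Measurable (η j))
    (hη1 : ∀ j θ, η j θ ∈ Icc (-1 : ℝ) 1) (ζ : ℂ) (s : ℝ) (v : Fin k → ℝ) (t : ℝ) :
    HasSum (fun m : ℤ => a m * Kt (s + Real.pi / 4 * m) t *
      TT S (fun θ => b θ * ph (-(Real.pi / 4 * m * η 0 θ))) (wf W (fun j : Fin k => η j.succ)) ζ v t)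
      (TT S b (wf W η) ζ (Fin.cons s v) t) := by
  set bm : ℤ → ℝ → ℂ := fun m θ => b θ * ph (-(Real.pi / 4 * m * η 0 θ)) with hbm
  set g' : Fin k → ℝ → ℝ → ℂ := wf W (fun j : Fin k => η j.succ) with hg'
  have hprf : Prf g' := wf_prf hW hW1 (fun j => hη j.succ)
  have hbmm : ∀ m, Measurable (bm m) := by
    intro m
    rw [hbm]
    simp only
    have := hη 0
    fun_prop
  have hbm1 : ∀ m θ, ‖bm m θ‖ ≤ 1 := by
    intro m θ
    rw [hbm]
    simp only [norm_mul, norm_ph, mul_one]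
    exact h1 θ
  -- pointwise in the angle
  have hθ : ∀ θ, HasSum (fun m : ℤ => a m * Kt (s + Real.pi / 4 * m) t * cf (bm m) g' v t θ)
      (cf b (wf W η) (Fin.cons s v) t θ) := by
    intro θ
    have h2 := HH_rep a ha W hrep (η 0 θ) (hη1 0 θ) s t
    have h3 := h2.mul_left (b θ * ∏ j, HH (g' j θ) (v j) t)
    have e1 : (fun m : ℤ => a m * Kt (s + Real.pi / 4 * m) t * cf (bm m) g' v t θ) =
        fun m : ℤ => (b θ * ∏ j, HH (g' j θ) (v j) t) *
          (a m * ph (-(Real.pi / 4 * m * η 0 θ)) * Kt (s + Real.pi / 4 * m) t) := by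
      funext m
      unfold cf
      rw [hbm]
      ring
    have e2 : cf b (wf W η) (Fin.cons s v) t θ =
        (b θ * ∏ j, HH (g' j θ) (v j) t) * HH (fun y => W (η 0 θ - y)) s t := by
      unfold cf
      rw [Fin.prod_univ_succ]
      simp only [Fin.cons_zero, Fin.cons_succ]
      rw [hg']
      unfold wf
      ring
    rw [e1, e2]
    exact h3
  have hx : ∀ x, HasSum (fun m : ℤ => ph (dt x ζ + t * normSq x) *
      (a m * Kt (s + Real.pi / 4 * m) t * hb S (cf (bm m) g' v t) x))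
      (ph (dt x ζ + t * normSq x) * hb S (cf b (wf W η) (Fin.cons s v) t) x) := by
    intro x
    apply HasSum.mul_left
    unfold hb
    by_cases hxS : x ∈ S
    · simp only [indicator_of_mem hxS]
      exact hθ _
    · simp only [indicator_of_notMem hxS, mul_zero]
      exact hasSum_zero
  set F : ℤ → ℂ → ℂ := fun m x => ph (dt x ζ + t * normSq x) *
      (a m * Kt (s + Real.pi / 4 * m) t * hb S (cf (bm m) g' v t) x) with hF
  have hI : ∀ m, Integrable (hb S (cf (bm m) g' v t)) := fun m =>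
    hbM_int hS _ (cf_meas1 (hbmm m) hprf v t) (2 ^ k) (by positivity) (cf_le (hbm1 m) hprf v t)
  have hFi : ∀ m, Integrable (F m) := fun m =>
    Ex_int _ ((hI m).const_mul (a m * Kt (s + Real.pi / 4 * m) t)) ζ t
  have hbd : ∀ m, ∫ x, ‖hb S (cf (bm m) g' v t) x‖ ≤ 2 ^ k * V3 := by
    intro m
    have hi : Integrable (S.indicator (fun _ => (2 : ℝ) ^ k)) := by
      refine (integrable_indicator_iff hS.meas).2 (integrableOn_const ?_)
      exact ne_top_of_le_ne_top ENNReal.ofReal_ne_top (vol3 hS)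
    refine (integral_mono (hI m).norm hi
      (hbM_le (cf (bm m) g' v t) (2 ^ k) (by positivity) (cf_le (hbm1 m) hprf v t))).trans ?_
    rw [integral_indicator hS.meas, setIntegral_const, smul_eq_mul, mul_comm]
    refine mul_le_mul_of_nonneg_left ?_ (by positivity)
    rw [Measure.real]
    exact ENNReal.toReal_le_of_le_ofReal V3_pos.le (vol3 hS)
  have hs : Summable fun m => ∫ x, ‖F m x‖ := by
    refine Summable.of_nonneg_of_le (f := fun m => ‖a m‖ * (2 * (2 ^ k * V3)))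
      (fun m => integral_nonneg fun x => norm_nonneg _) (fun m => ?_) (ha.mul_right _)
    have e1 : ∀ x, ‖F m x‖ = ‖a m‖ * ‖Kt (s + Real.pi / 4 * m) t‖ *
        ‖hb S (cf (bm m) g' v t) x‖ := by
      intro x
      rw [hF]
      simp only [norm_mul, norm_ph, one_mul]
    simp_rw [e1]
    rw [integral_const_mul, mul_assoc]
    refine mul_le_mul_of_nonneg_left ?_ (norm_nonneg _)
    refine mul_le_mul (HH_le (fun y => by rw [norm_one]) _ _) (hbd m)
      (integral_nonneg fun x => norm_nonneg _) (by norm_num)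
  have h := hasSum_integral_of_summable_integral_norm hFi hs
  have e1 : ∀ m, ∫ x, F m x = a m * Kt (s + Real.pi / 4 * m) t * TT S (bm m) g' ζ v t := by
    intro m
    unfold TT Ex
    rw [← integral_const_mul]
    apply integral_congr_ae
    filter_upwards with x
    rw [hF]
    ring
  have e2 : ∫ x, ∑' m, F m x = TT S b (wf W η) ζ (Fin.cons s v) t := by
    unfold TT Ex
    apply integral_congr_ae
    filter_upwards with x
    exact (hx x).tsum_eq
  rw [e2] at h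
  simp_rw [e1] at h
  exact h

theorem M4 (C0 : ℝ) (hC0 : 0 ≤ C0) (R : ℝ) (hR : 0 < R)
    (h0 : ∀ S : Set ℂ, Star3 S → ∀ b : ℝ → ℂ, Measurable b → (∀ θ, ‖b θ‖ ≤ 1) →
      ∫⁻ t in Icc R (2 * R), ∫⁻ ζ : ℂ, ‖Ex (hb S b) ζ t‖ₑ ^ 4 ≤ ENNReal.ofReal C0)
    (a : ℤ → ℂ) (ha : Summable fun m => ‖a m‖) (A : ℝ) (hA : ∑' m, ‖a m‖ ≤ A) (W : ℝ → ℂ)
    (hW : Measurable W) (hW1 : ∀ x, ‖W x‖ ≤ 1)
    (hrep : ∀ x ∈ Icc (-2 : ℝ) 2, HasSum (fun m : ℤ => a m * ph (-(Real.pi / 4 * m * x))) (W x)) :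
    ∀ k : ℕ, ∀ S : Set ℂ, Star3 S → ∀ b : ℝ → ℂ, Measurable b → (∀ θ, ‖b θ‖ ≤ 1) →
    ∀ η : Fin k → ℝ → ℝ, (∀ j, Measurable (η j)) → (∀ j θ, η j θ ∈ Icc (-1 : ℝ) 1) →
    ∫⁻ t in Icc R (2 * R), ∫⁻ v : Fin k → ℝ, ∫⁻ ζ : ℂ, ‖TT S b (wf W η) ζ v t‖ₑ ^ 4 ≤
      ENNReal.ofReal ((A ^ 4 * (64 * Real.pi ^ 2 / R)) ^ k * C0) := by
  have hA0 : 0 ≤ A := (tsum_nonneg fun m => norm_nonneg _).trans hA
  have hAe : ∑' m, ‖a m‖ₑ ≤ ENNReal.ofReal A := by
    have h2 : ∑' m, ‖a m‖ₑ = ENNReal.ofReal (∑' m, ‖a m‖) := by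
      rw [ENNReal.ofReal_tsum_of_nonneg (fun m => norm_nonneg _) ha]
      simp_rw [ofReal_norm]
    rw [h2]
    exact ENNReal.ofReal_le_ofReal hA
  intro k
  induction k with
  | zero =>
    intro S hS b hb' h1 η hη hη1
    have e1 : ∀ (ζ : ℂ) (v : Fin 0 → ℝ) (t : ℝ), TT S b (wf W η) ζ v t = Ex (hb S b) ζ t := by
      intro ζ v t
      unfold TT cf
      simp
    simp_rw [e1]
    have e2 : ∀ t : ℝ, ∫⁻ _ : Fin 0 → ℝ, ∫⁻ ζ : ℂ, ‖Ex (hb S b) ζ t‖ₑ ^ 4 =
        ∫⁻ ζ : ℂ, ‖Ex (hb S b) ζ t‖ₑ ^ 4 := by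
      intro t
      simp [volume_pi, Measure.pi_of_empty]
    simp_rw [e2]
    rw [pow_zero, one_mul]
    exact h0 S hS b hb' h1
  | succ k ih =>
    intro S hS b hb' h1 η hη hη1
    set bm : ℤ → ℝ → ℂ := fun m θ => b θ * ph (-(Real.pi / 4 * m * η 0 θ)) with hbm
    set η' : Fin k → ℝ → ℝ := fun j : Fin k => η j.succ with hη'
    have hprf : Prf (wf W η') := wf_prf hW hW1 (fun j => hη j.succ)
    have hprf0 : Prf (wf W η) := wf_prf hW hW1 hη
    have hbmm : ∀ m, Measurable (bm m) := by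
      intro m
      rw [hbm]
      simp only
      have := hη 0
      fun_prop
    have hbm1 : ∀ m θ, ‖bm m θ‖ ≤ 1 := by
      intro m θ
      rw [hbm]
      simp only [norm_mul, norm_ph, mul_one]
      exact h1 θ
    have hTm := fun m => TT_meas hS.meas (hbmm m) hprf
    have hIH := fun m => ih S hS (bm m) (hbmm m) (hbm1 m) η' (fun j => hη j.succ)
      (fun j => hη1 j.succ)
    set κ : ℝ≥0∞ := ENNReal.ofReal (64 * Real.pi ^ 2 / R) with hκ
    set J : ℤ → ℝ → (Fin k → ℝ) → ℝ≥0∞ := fun m t v => ∫⁻ ζ : ℂ, ‖TT S (bm m) (wf W η') ζ v t‖ₑ ^ 4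
      with hJ
    have hJm : ∀ m, Measurable (fun p : ℝ × (Fin k → ℝ) => J m p.1 p.2) := fun m =>
      ((hTm m).enorm.pow_const 4).lintegral_prod_right' (ν := (volume : Measure ℂ))
    set AA : ℝ≥0∞ := (∑' m, ‖a m‖ₑ) ^ 3 with hAA
    have hAne : (∑' m, ‖a m‖ₑ) ≠ ∞ := ne_top_of_le_ne_top ENNReal.ofReal_ne_top hAe
    have hAAne : AA ≠ ∞ := ENNReal.pow_ne_top hAne
    have hKm : ∀ (m : ℤ) (t : ℝ), Measurable (fun s : ℝ => ‖Kt (s + Real.pi / 4 * m) t‖ₑ ^ 4) := by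
      intro m t
      exact (Kt_meas.comp (f := fun s : ℝ => (s + Real.pi / 4 * m, t)) (by fun_prop)).enorm.pow_const 4
    -- integration in `ζ`
    have s1 : ∀ (t s : ℝ) (v : Fin k → ℝ),
        ∫⁻ ζ : ℂ, ‖TT S b (wf W η) ζ (Fin.cons s v) t‖ₑ ^ 4 ≤
        AA * ∑' m : ℤ, ‖a m‖ₑ * (‖Kt (s + Real.pi / 4 * m) t‖ₑ ^ 4 * J m t v) := by
      intro t s v
      have hpt : ∀ ζ : ℂ, ‖TT S b (wf W η) ζ (Fin.cons s v) t‖ₑ ^ 4 ≤
          AA * ∑' m : ℤ, ‖a m‖ₑ * (‖Kt (s + Real.pi / 4 * m) t‖ₑ ^ 4 *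
            ‖TT S (bm m) (wf W η') ζ v t‖ₑ ^ 4) := by
        intro ζ
        have h2 := (TT_exp hS hb' h1 a ha W hW hW1 hrep η hη hη1 ζ s v t).tsum_eq
        rw [← h2]
        refine (pow_le_pow_left' enorm_tsum_le_tsum_enorm 4).trans ?_
        have h3 := holT (fun m => ‖a m‖ₑ) (fun m => ‖Kt (s + Real.pi / 4 * m) t‖ₑ *
          ‖TT S (bm m) (wf W η') ζ v t‖ₑ)
        refine (le_of_eq ?_).trans (h3.trans (le_of_eq ?_))
        · congr 2
          funext m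
          rw [enorm_mul, enorm_mul, mul_assoc]
        · rw [hAA]
          congr 2
          funext m
          rw [mul_pow]
      refine (lintegral_mono hpt).trans ?_
      have hm4 : ∀ m, Measurable (fun ζ : ℂ => ‖TT S (bm m) (wf W η') ζ v t‖ₑ ^ 4) := fun m =>
        ((hTm m).enorm.pow_const 4).comp (f := fun ζ : ℂ => (((t, v), ζ) : (ℝ × (Fin k → ℝ)) × ℂ))
          (by fun_prop)
      rw [lintegral_const_mul' _ _ hAAne, lintegral_tsum
        (fun m => (((hm4 m).const_mul _).const_mul _).aemeasurable)]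
      refine mul_le_mul' le_rfl (ENNReal.tsum_le_tsum fun m => ?_)
      rw [lintegral_const_mul _ ((hm4 m).const_mul _), lintegral_const_mul _ (hm4 m)]
    -- integration in `s`
    have s2 : ∀ t ∈ Icc R (2 * R), ∀ v : Fin k → ℝ,
        ∫⁻ s : ℝ, ∫⁻ ζ : ℂ, ‖TT S b (wf W η) ζ (Fin.cons s v) t‖ₑ ^ 4 ≤
        AA * ∑' m : ℤ, ‖a m‖ₑ * (κ * J m t v) := by
      intro t ht v
      have ht0 : 0 < t := lt_of_lt_of_le hR ht.1
      refine (lintegral_mono fun s => s1 t s v).trans ?_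
      rw [lintegral_const_mul' _ _ hAAne, lintegral_tsum
        (fun m => (((hKm m t).mul_const _).const_mul _).aemeasurable)]
      refine mul_le_mul' le_rfl (ENNReal.tsum_le_tsum fun m => ?_)
      rw [lintegral_const_mul _ ((hKm m t).mul_const _), lintegral_mul_const _ (hKm m t)]
      refine mul_le_mul' le_rfl (mul_le_mul' ?_ le_rfl)
      refine (Kt4 t ht0.ne' _).trans ?_
      rw [hκ]
      apply ENNReal.ofReal_le_ofReal
      rw [abs_of_pos ht0]
      exact div_le_div_of_nonneg_left (by positivity) hR ht.1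
    -- integration in `v`
    have hF0 : ∀ t : ℝ, Measurable (fun w : Fin (k + 1) → ℝ =>
        ∫⁻ ζ : ℂ, ‖TT S b (wf W η) ζ w t‖ₑ ^ 4) := by
      intro t
      have h2 := ((TT_meas hS.meas hb' hprf0).enorm.pow_const 4).lintegral_prod_right'
        (ν := (volume : Measure ℂ))
      exact h2.comp (f := fun w : Fin (k + 1) → ℝ => ((t, w) : ℝ × (Fin (k + 1) → ℝ)))
        (by fun_prop)
    have hJt : ∀ m t, Measurable (J m t) := fun m t =>
      (hJm m).comp (f := fun v : Fin k → ℝ => (t, v)) (by fun_prop)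
    have s3 : ∀ t ∈ Icc R (2 * R), ∫⁻ w : Fin (k + 1) → ℝ, ∫⁻ ζ : ℂ,
        ‖TT S b (wf W η) ζ w t‖ₑ ^ 4 ≤ AA * ∑' m : ℤ, ‖a m‖ₑ * (κ * ∫⁻ v, J m t v) := by
      intro t ht
      rw [lint_cons _ (hF0 t)]
      refine (lintegral_mono fun v => s2 t ht v).trans ?_
      rw [lintegral_const_mul' _ _ hAAne, lintegral_tsum
        (fun m => (((hJt m t).const_mul _).const_mul _).aemeasurable)]
      refine mul_le_mul' le_rfl (ENNReal.tsum_le_tsum fun m => ?_)
      rw [lintegral_const_mul _ ((hJt m t).const_mul _), lintegral_const_mul _ (hJt m t)]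
    have hJJ : ∀ m, Measurable (fun t => ∫⁻ v, J m t v) := fun m =>
      (hJm m).lintegral_prod_right' (ν := (volume : Measure (Fin k → ℝ)))
    calc ∫⁻ t in Icc R (2 * R), ∫⁻ w : Fin (k + 1) → ℝ, ∫⁻ ζ : ℂ, ‖TT S b (wf W η) ζ w t‖ₑ ^ 4 ≤
        ∫⁻ t in Icc R (2 * R), AA * ∑' m : ℤ, ‖a m‖ₑ * (κ * ∫⁻ v, J m t v) :=
          setLIntegral_mono' measurableSet_Icc s3
      _ ≤ AA * ∑' m : ℤ, ‖a m‖ₑ * (κ *
          ENNReal.ofReal ((A ^ 4 * (64 * Real.pi ^ 2 / R)) ^ k * C0)) := by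
          rw [lintegral_const_mul' _ _ hAAne, lintegral_tsum
            (fun m => (((hJJ m).const_mul _).const_mul _).aemeasurable)]
          refine mul_le_mul' le_rfl (ENNReal.tsum_le_tsum fun m => ?_)
          rw [lintegral_const_mul _ ((hJJ m).const_mul _), lintegral_const_mul _ (hJJ m)]
          exact mul_le_mul' le_rfl (mul_le_mul' le_rfl (hIH m))
      _ ≤ ENNReal.ofReal A ^ 3 * (ENNReal.ofReal A * (κ *
          ENNReal.ofReal ((A ^ 4 * (64 * Real.pi ^ 2 / R)) ^ k * C0))) := by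
          rw [ENNReal.tsum_mul_right]
          exact mul_le_mul' (pow_le_pow_left' hAe 3) (mul_le_mul' hAe le_rfl)
      _ = _ := by
          rw [hκ, ← ENNReal.ofReal_mul (by positivity), ← ENNReal.ofReal_mul (by positivity),
            ← ENNReal.ofReal_pow hA0, ← ENNReal.ofReal_mul (by positivity)]
          congr 1
          ring

end Pool.Agent.Q63.Mix
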