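import Mathlib
import Pool.Agent.Q63.Star.Basic
set_option autoImplicit false

/-! The ramp function as an absolutely convergent trigonometric series. -/

namespace Pool.Agent.Q63.Mix

open MeasureTheory Set Complex Pool.Agent.Q63.Star
open scoped ENNReal NNReal ComplexConjugate

/-- character -/
noncomputable def ch (m : ℤ) (s : ℝ) : ℂ := cexp (2 * Real.pi * I * m * s)

lemma ch_add (m : ℤ) (s s' : ℝ) : ch m (s + s') = ch m s * ch m s' := by
  unfold ch
  rw [← Complex.exp_add]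
  congr 1
  push_cast
  ring

lemma ch_norm (m : ℤ) (s : ℝ) : ‖ch m s‖ = 1 := by
  unfold ch
  have : (2 * Real.pi * I * m * s : ℂ) = ((2 * Real.pi * m * s : ℝ) : ℂ) * I := by
    push_cast
    ring
  rw [this]
  exact Complex.norm_exp_ofReal_mul_I _

lemma ch_one (m : ℤ) : ch m 1 = 1 := by
  unfold ch
  have : (2 * Real.pi * I * m * (1 : ℝ) : ℂ) = m * (2 * Real.pi * I) := by
    push_cast
    ring
  rw [this]
  exact Complex.exp_int_mul_two_pi_mul_I m

lemma ch_zero (s : ℝ) : ch 0 s = 1 := by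
  unfold ch
  simp

lemma ch_add_one (m : ℤ) (s : ℝ) : ch m (s + 1) = ch m s := by
  rw [ch_add, ch_one, mul_one]

lemma hq (v : ℝ) (hv : v ∈ Icc (0 : ℝ) 1) :
    HasSum (fun m : ℤ => (1 / (2 * Real.pi ^ 2 * m ^ 2) : ℂ) * ch m v)
      ((v ^ 2 - v + 1 / 6 : ℝ) : ℂ) := by
  have h := (hasSum_one_div_pow_mul_fourier_mul_bernoulliFun (k := 2) le_rfl hv).mul_left
    (1 / (2 * Real.pi ^ 2) : ℂ)
  have hpi : (Real.pi : ℂ) ≠ 0 := by exact_mod_cast Real.pi_ne_zero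
  have e1 : (fun m : ℤ => (1 / (2 * Real.pi ^ 2 * m ^ 2) : ℂ) * ch m v) =
      fun m : ℤ => (1 / (2 * Real.pi ^ 2) : ℂ) * (1 / (m : ℂ) ^ 2 * fourier m (v : UnitAddCircle)) := by
    funext m
    rw [fourier_coe_apply]
    unfold ch
    have e : (2 * Real.pi * I * m * v / (1 : ℝ) : ℂ) = 2 * Real.pi * I * m * v := by
      push_cast
      ring
    rw [e]
    have : (1 / (2 * Real.pi ^ 2 * m ^ 2) : ℂ) = 1 / (2 * Real.pi ^ 2) * (1 / (m : ℂ) ^ 2) := by
      rw [one_div_mul_one_div]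
    rw [this]
    ring
  have e2 : ((v ^ 2 - v + 1 / 6 : ℝ) : ℂ) = (1 / (2 * Real.pi ^ 2) : ℂ) *
      (-(2 * Real.pi * I) ^ 2 / (Nat.factorial 2 : ℂ) * bernoulliFun 2 v) := by
    rw [bernoulliFun_two]
    have hI : I ^ 2 = -1 := Complex.I_sq
    have e : (2 * Real.pi * I : ℂ) ^ 2 = -(4 * Real.pi ^ 2) := by
      rw [mul_pow, hI]
      ring
    rw [e, show (Nat.factorial 2 : ℂ) = 2 by norm_num [Nat.factorial]]
    push_cast
    field_simp
    ring
  rw [e1, e2]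
  exact h

/-- coefficients of the ramp -/
noncomputable def am (ε : ℝ) (m : ℤ) : ℂ := (if m = 0 then 1 / 2 else 0) -
  (1 / (4 * ε * Real.pi ^ 2 * m ^ 2) : ℂ) * ((1 - ch m (-ε)) * (1 - ch m (1 / 2)))

lemma ramp_hasSum (ε : ℝ) (hε : 0 < ε) (hε1 : ε ≤ 1 / 8) (x : ℝ) (hx : x ∈ Icc (-2 : ℝ) 2) :
    HasSum (fun m : ℤ => am ε m * ch m (x / 8)) ((max 0 (min 1 (x / (8 * ε))) : ℝ) : ℂ) := by
  set s : ℝ := x / 8 with hs
  have hs1 : -(1 / 4) ≤ s := by rw [hs]; linarith [hx.1]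
  have hs2 : s ≤ 1 / 4 := by rw [hs]; linarith [hx.2]
  have hεc : (ε : ℂ) ≠ 0 := by exact_mod_cast hε.ne'
  have hpi : (Real.pi : ℂ) ≠ 0 := by exact_mod_cast Real.pi_ne_zero
  obtain ⟨v1, hv1, hv1c, hv1'⟩ : ∃ v1 ∈ Icc (0 : ℝ) 1, (∀ m, ch m v1 = ch m s) ∧
      (v1 = if 0 ≤ s then s else s + 1) := by
    by_cases h : 0 ≤ s
    · exact ⟨s, ⟨h, by linarith⟩, fun m => rfl, by rw [if_pos h]⟩
    · exact ⟨s + 1, ⟨by linarith, by linarith [not_le.1 h]⟩, fun m => ch_add_one m s,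
        by rw [if_neg h]⟩
  obtain ⟨v2, hv2, hv2c, hv2'⟩ : ∃ v2 ∈ Icc (0 : ℝ) 1, (∀ m, ch m v2 = ch m (s + -ε)) ∧
      (v2 = if 0 ≤ s - ε then s - ε else s - ε + 1) := by
    by_cases h : 0 ≤ s - ε
    · exact ⟨s - ε, ⟨h, by linarith⟩, fun m => by rw [sub_eq_add_neg], by rw [if_pos h]⟩
    · exact ⟨s - ε + 1, ⟨by linarith, by linarith [not_le.1 h]⟩,
        fun m => by rw [ch_add_one, sub_eq_add_neg], by rw [if_neg h]⟩
  have h1 := hq v1 hv1
  have h2 := hq v2 hv2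
  have h3 := hq (s + 1 / 2) ⟨by linarith, by linarith⟩
  have h4 := hq (s + -ε + 1 / 2) ⟨by linarith, by linarith⟩
  have h5 := (((h1.sub h2).sub h3).add h4).mul_left (-(1 / (2 * ε)) : ℂ)
  have h6 : HasSum (fun m : ℤ => if m = 0 then (1 / 2 : ℂ) else 0) (1 / 2) := hasSum_ite_eq 0 _
  have h7 := h6.add h5
  convert h7 using 1
  · funext m
    rw [hv1c, hv2c, ch_add m s (1 / 2), ch_add m (s + -ε) (1 / 2), ch_add m s (-ε)]
    unfold am
    by_cases hm : m = 0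
    · subst hm
      simp only [ch_zero]
      simp
    · rw [if_neg hm]
      have hm' : (m : ℂ) ≠ 0 := by exact_mod_cast hm
      field_simp
      ring
  · have hreal : max 0 (min 1 (x / (8 * ε))) = 1 / 2 + -(1 / (2 * ε)) *
        ((v1 ^ 2 - v1 + 1 / 6) - (v2 ^ 2 - v2 + 1 / 6) -
        ((s + 1 / 2) ^ 2 - (s + 1 / 2) + 1 / 6) +
        ((s + -ε + 1 / 2) ^ 2 - (s + -ε + 1 / 2) + 1 / 6)) := by
      have hxs : x / (8 * ε) = s / ε := by
        rw [hs]
        field_simp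
      rw [hxs, hv1', hv2']
      by_cases c1 : 0 ≤ s
      · rw [if_pos c1]
        by_cases c2 : 0 ≤ s - ε
        · rw [if_pos c2]
          have : 1 ≤ s / ε := by
            rw [one_le_div hε]
            linarith
          rw [min_eq_left this, max_eq_right zero_le_one]
          field_simp
          ring
        · rw [if_neg c2]
          have h8 : s / ε ≤ 1 := by
            rw [div_le_one hε]
            linarith [not_le.1 c2]
          rw [min_eq_right h8, max_eq_right (by positivity)]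
          field_simp
          ring
      · rw [if_neg c1, if_neg (by linarith [not_le.1 c1])]
        have h8 : s / ε ≤ 0 := div_nonpos_of_nonpos_of_nonneg (not_le.1 c1).le hε.le
        rw [min_eq_right (h8.trans zero_le_one), max_eq_left h8]
        field_simp
        ring
    rw [hreal]
    push_cast
    ring

lemma am_norm (θ : ℝ) (hθ : 0 < θ) (hθ1 : θ < 1) (ε : ℝ) (hε : 0 < ε) (m : ℤ) (hm : m ≠ 0) :
    ‖am ε m‖ ≤ ε ^ (-θ) * |(m : ℝ)| ^ (-(1 + θ)) := by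
  have hpi := Real.pi_pos
  have hm' : (0 : ℝ) < |(m : ℝ)| := abs_pos.2 (by exact_mod_cast hm)
  set M : ℝ := |(m : ℝ)| with hM
  set X : ℝ := ‖1 - ch m (-ε)‖ with hX
  have hX0 : 0 ≤ X := norm_nonneg _
  have hX2 : X ≤ 2 := by
    calc X ≤ ‖(1 : ℂ)‖ + ‖ch m (-ε)‖ := norm_sub_le _ _
      _ = 2 := by rw [ch_norm, norm_one]; norm_num
  have hX1 : X ≤ 2 * Real.pi * (M * ε) := by
    rw [hX, norm_sub_rev]
    have h := Real.norm_exp_I_mul_ofReal_sub_one_le (x := 2 * Real.pi * m * (-ε))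
    have e : cexp (I * ((2 * Real.pi * m * (-ε) : ℝ) : ℂ)) = ch m (-ε) := by
      unfold ch
      congr 1
      push_cast
      ring
    rw [e] at h
    refine h.trans (le_of_eq ?_)
    rw [Real.norm_eq_abs, abs_mul, abs_mul, abs_of_pos (by positivity : (0 : ℝ) < 2 * Real.pi),
      abs_neg, abs_of_pos hε, ← hM]
    ring
  have hY : ‖1 - ch m (1 / 2)‖ ≤ 2 := by
    calc _ ≤ ‖(1 : ℂ)‖ + ‖ch m (1 / 2)‖ := norm_sub_le _ _
      _ = 2 := by rw [ch_norm, norm_one]; norm_num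
  have hXi : X ≤ 4 * Real.pi * (M * ε) ^ (1 - θ) := by
    have h1 : X ^ θ ≤ 2 := by
      calc X ^ θ ≤ 2 ^ θ := Real.rpow_le_rpow hX0 hX2 hθ.le
        _ ≤ 2 ^ (1 : ℝ) := Real.rpow_le_rpow_of_exponent_le (by norm_num) hθ1.le
        _ = 2 := Real.rpow_one 2
    have h2 : X ^ (1 - θ) ≤ 2 * Real.pi * (M * ε) ^ (1 - θ) := by
      calc X ^ (1 - θ) ≤ (2 * Real.pi * (M * ε)) ^ (1 - θ) :=
            Real.rpow_le_rpow hX0 hX1 (by linarith)
        _ = (2 * Real.pi) ^ (1 - θ) * (M * ε) ^ (1 - θ) :=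
            Real.mul_rpow (by positivity) (by positivity)
        _ ≤ (2 * Real.pi) ^ (1 : ℝ) * (M * ε) ^ (1 - θ) := by
            gcongr
            · linarith [Real.pi_gt_three]
            · linarith
        _ = _ := by rw [Real.rpow_one]
    rcases hX0.eq_or_lt with h0 | h0
    · rw [← h0]
      positivity
    · calc X = X ^ θ * X ^ (1 - θ) := by
            rw [← Real.rpow_add h0]
            have : θ + (1 - θ) = 1 := by ring
            rw [this, Real.rpow_one]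
        _ ≤ 2 * (2 * Real.pi * (M * ε) ^ (1 - θ)) := by
            gcongr
        _ = _ := by ring
  unfold am
  rw [if_neg hm, zero_sub, norm_neg, norm_mul, norm_mul]
  have e1 : ‖(1 / (4 * ε * Real.pi ^ 2 * m ^ 2) : ℂ)‖ = 1 / (4 * ε * Real.pi ^ 2 * M ^ 2) := by
    have : (1 / (4 * ε * Real.pi ^ 2 * m ^ 2) : ℂ) =
        ((1 / (4 * ε * Real.pi ^ 2 * (m : ℝ) ^ 2) : ℝ) : ℂ) := by push_cast; rfl
    rw [this, Complex.norm_real, Real.norm_eq_abs, abs_of_nonneg (by positivity), hM, sq_abs]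
  rw [e1, ← hX]
  calc 1 / (4 * ε * Real.pi ^ 2 * M ^ 2) * (X * ‖1 - ch m (1 / 2)‖) ≤
      1 / (4 * ε * Real.pi ^ 2 * M ^ 2) * ((4 * Real.pi * (M * ε) ^ (1 - θ)) * 2) := by gcongr
    _ = 2 / Real.pi * ((M * ε) ^ (1 - θ) / (ε * M ^ 2)) := by
        field_simp
    _ = 2 / Real.pi * (ε ^ (-θ) * M ^ (-(1 + θ))) := by
        congr 1
        rw [Real.mul_rpow hm'.le hε.le]
        have h1 : ε ^ (-θ) = ε ^ (1 - θ) / ε := by
          rw [show -θ = 1 - θ - 1 by ring, Real.rpow_sub_one hε.ne']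
        have h2 : M ^ (-(1 + θ)) = M ^ (1 - θ) / M ^ 2 := by
          rw [show -(1 + θ) = 1 - θ - (2 : ℕ) by push_cast; ring, Real.rpow_sub_natCast hm'.ne']
        rw [h1, h2]
        field_simp
    _ ≤ 1 * (ε ^ (-θ) * M ^ (-(1 + θ))) := by
        gcongr
        rw [div_le_one hpi]
        linarith [Real.pi_gt_three]
    _ = _ := one_mul _

/-- **The ramp.** -/
theorem ramp_rep (θ : ℝ) (hθ : 0 < θ) (hθ1 : θ < 1) : ∃ C : ℝ, 0 < C ∧ ∀ δ : ℝ, 0 < δ → δ ≤ 1 →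
    ∃ a : ℤ → ℂ, (Summable fun m => ‖a m‖) ∧ ∑' m, ‖a m‖ ≤ C * δ ^ (-θ) ∧
      ∀ x ∈ Icc (-2 : ℝ) 2, HasSum (fun m : ℤ => a m * ph (-(Real.pi / 4 * m * x)))
        ((max 0 (min 1 (x / δ)) : ℝ) : ℂ) := by
  have hs : Summable (fun m : ℤ => |(m : ℝ)| ^ (-(1 + θ))) :=
    Real.summable_abs_int_rpow (by linarith)
  set Z : ℝ := ∑' m : ℤ, |(m : ℝ)| ^ (-(1 + θ)) with hZ
  have hZ0 : 0 ≤ Z := tsum_nonneg fun m => by positivity
  refine ⟨1 + 8 * Z, by positivity, fun δ hδ hδ1 => ?_⟩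
  set ε : ℝ := δ / 8 with hε
  have hε0 : 0 < ε := by positivity
  have h6 : Summable (fun m : ℤ => if m = 0 then (1 / 2 : ℝ) else 0) := (hasSum_ite_eq 0 _).summable
  have hbd : ∀ m : ℤ, ‖am ε m‖ ≤ (if m = 0 then (1 / 2 : ℝ) else 0) +
      ε ^ (-θ) * |(m : ℝ)| ^ (-(1 + θ)) := by
    intro m
    by_cases hm : m = 0
    · subst hm
      unfold am
      simp
      positivity
    · rw [if_neg hm, zero_add]
      exact am_norm θ hθ hθ1 ε hε0 m hm
  have hsum2 : Summable (fun m : ℤ => (if m = 0 then (1 / 2 : ℝ) else 0) +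
      ε ^ (-θ) * |(m : ℝ)| ^ (-(1 + θ))) := h6.add (hs.mul_left _)
  refine ⟨am ε, hsum2.of_nonneg_of_le (fun m => norm_nonneg _) hbd, ?_, ?_⟩
  · calc ∑' m, ‖am ε m‖ ≤ ∑' m : ℤ, ((if m = 0 then (1 / 2 : ℝ) else 0) +
          ε ^ (-θ) * |(m : ℝ)| ^ (-(1 + θ))) :=
          (hsum2.of_nonneg_of_le (fun m => norm_nonneg _) hbd).tsum_le_tsum hbd hsum2
      _ = 1 / 2 + ε ^ (-θ) * Z := by
          rw [h6.tsum_add (hs.mul_left _), tsum_mul_left, (hasSum_ite_eq 0 _).tsum_eq]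
      _ ≤ _ := by
          have h1 : ε ^ (-θ) ≤ 8 * δ ^ (-θ) := by
            rw [hε, Real.div_rpow hδ.le (by norm_num), div_eq_mul_inv,
              ← Real.rpow_neg (by norm_num : (0 : ℝ) ≤ 8), neg_neg, mul_comm]
            gcongr
            calc (8 : ℝ) ^ θ ≤ 8 ^ (1 : ℝ) :=
                  Real.rpow_le_rpow_of_exponent_le (by norm_num) hθ1.le
              _ = 8 := Real.rpow_one 8
          have h2 : 1 ≤ δ ^ (-θ) := Real.one_le_rpow_of_pos_of_le_one_of_nonpos hδ hδ1 (by linarith)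
          nlinarith
  · intro x hx
    have h := ramp_hasSum ε hε0 (by rw [hε]; linarith) x hx
    have e : 8 * ε = δ := by rw [hε]; ring
    rw [e] at h
    convert h using 1
    funext m
    congr 1
    unfold ph ch
    congr 1
    push_cast
    ring

end Pool.Agent.Q63.Mix
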