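import Mathlib
import Pool.Agent.Q63.Mix.Ind
import Pool.Agent.Q63.Mix.Ramp
set_option autoImplicit false

/-! Hard and soft profiles; replacing the hard profiles by soft ones, one at a time. -/

namespace Pool.Agent.Q63.Mix

open MeasureTheory Set Complex Pool.Agent.Q63.Star
open scoped ENNReal NNReal ComplexConjugate

/-- the hard profile -/
noncomputable def hd (x : ℝ) : ℂ := if 0 < x then 1 else 0

/-- the soft profile -/
noncomputable def Wd (δ x : ℝ) : ℂ := ((max 0 (min 1 (x / δ)) : ℝ) : ℂ)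

lemma hd_meas : Measurable hd := Measurable.ite measurableSet_Ioi measurable_const measurable_const

lemma hd_le (x : ℝ) : ‖hd x‖ ≤ 1 := by
  unfold hd
  split_ifs <;> simp

lemma Wd_meas (δ : ℝ) : Measurable (Wd δ) := by
  unfold Wd
  fun_prop

lemma Wd_le (δ x : ℝ) : ‖Wd δ x‖ ≤ 1 := by
  unfold Wd
  rw [Complex.norm_real, Real.norm_eq_abs, abs_of_nonneg (le_max_left _ _)]
  exact max_le zero_le_one (min_le_left _ _)

lemma dif_le (δ x : ℝ) : ‖hd x - Wd δ x‖ ≤ 1 := by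
  unfold hd Wd
  have h1 : 0 ≤ max 0 (min 1 (x / δ)) := le_max_left _ _
  have h2 : max 0 (min 1 (x / δ)) ≤ 1 := max_le zero_le_one (min_le_left _ _)
  split_ifs
  · rw [← Complex.ofReal_one, ← Complex.ofReal_sub, Complex.norm_real, Real.norm_eq_abs, abs_le]
    constructor <;> linarith
  · rw [zero_sub, norm_neg, Complex.norm_real, Real.norm_eq_abs, abs_of_nonneg h1]
    exact h2

lemma dif_zero (δ x : ℝ) (hδ : 0 < δ) (hx : x ∉ Ioo 0 δ) : hd x - Wd δ x = 0 := by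
  unfold hd Wd
  rcases le_or_gt x 0 with h | h
  · have h1 : x / δ ≤ 0 := div_nonpos_of_nonpos_of_nonneg h hδ.le
    rw [if_neg (not_lt.2 h), max_eq_left ((min_le_right _ _).trans h1)]
    simp
  · have h2 : δ ≤ x := by
      by_contra hc
      exact hx ⟨h, not_le.1 hc⟩
    have h3 : 1 ≤ x / δ := by rwa [le_div_iff₀ hδ, one_mul]
    rw [if_pos h, min_eq_left h3, max_eq_right zero_le_one]
    simp

/-- the error profiles -/
noncomputable def fi {k : ℕ} (δ : ℝ) (i j : Fin k) : ℝ → ℂ :=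
  if j < i then Wd δ else if j = i then (fun x => hd x - Wd δ x) else hd

lemma fi_meas {k : ℕ} (δ : ℝ) (i j : Fin k) : Measurable (fi δ i j) := by
  unfold fi
  split_ifs
  · exact Wd_meas δ
  · exact hd_meas.sub (Wd_meas δ)
  · exact hd_meas

lemma fi_le {k : ℕ} (δ : ℝ) (i j : Fin k) (x : ℝ) : ‖fi δ i j x‖ ≤ 1 := by
  unfold fi
  split_ifs
  · exact Wd_le δ x
  · exact dif_le δ x
  · exact hd_le x

/-- the error families -/
noncomputable def ef {k : ℕ} (δ : ℝ) (η : Fin k → ℝ → ℝ) (i : Fin k) : Fin k → ℝ → ℝ → ℂ :=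
  fun j θ y => fi δ i j (η j θ - y)

lemma ef_prf {k : ℕ} (δ : ℝ) {η : Fin k → ℝ → ℝ} (hη : ∀ j, Measurable (η j)) (i : Fin k) :
    Prf (ef δ η i) where
  meas := fun j => (fi_meas δ i j).comp (((hη j).comp measurable_fst).sub measurable_snd)
  le := fun j θ y => fi_le δ i j _

lemma tele : ∀ (k : ℕ) (A C : Fin k → ℂ), ∏ j, C j = ∏ j, A j +
    ∑ i, ∏ j, (if j < i then A j else if j = i then C j - A j else C j) := by
  intro k
  induction k with
  | zero => intro A C; simp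
  | succ k ih =>
    intro A C
    have h := ih (fun j => A j.succ) (fun j => C j.succ)
    rw [Fin.sum_univ_succ, Fin.prod_univ_succ, Fin.prod_univ_succ, Fin.prod_univ_succ]
    have h1 : ∀ i : Fin k, (∏ j : Fin (k + 1), if j < i.succ then A j else
        if j = i.succ then C j - A j else C j) = A 0 * ∏ j : Fin k, (if j < i then A j.succ else
        if j = i then C j.succ - A j.succ else C j.succ) := by
      intro i
      rw [Fin.prod_univ_succ]
      simp only [Fin.succ_pos, if_true, Fin.succ_lt_succ_iff, Fin.succ_inj]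
    simp_rw [h1]
    rw [← Finset.mul_sum, h]
    simp only [lt_irrefl, if_false, if_true, Fin.not_lt_zero, Fin.succ_ne_zero]
    rw [h]
    ring

lemma HH_fi {k : ℕ} (δ : ℝ) (i j : Fin k) (e v t : ℝ) :
    HH (fun y => fi δ i j (e - y)) v t = if j < i then HH (fun y => Wd δ (e - y)) v t else
      if j = i then HH (fun y => hd (e - y)) v t - HH (fun y => Wd δ (e - y)) v t else
      HH (fun y => hd (e - y)) v t := by
  unfold fi
  split_ifs
  · rfl
  · refine HH_sub (g := fun y => hd (e - y)) (h := fun y => Wd δ (e - y)) ?_ ?_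
      (fun y => hd_le _) (fun y => Wd_le _ _) v t
    · exact hd_meas.comp (by fun_prop)
    · exact (Wd_meas δ).comp (by fun_prop)
  · rfl

lemma cf_tele {k : ℕ} (δ : ℝ) (b : ℝ → ℂ) (η : Fin k → ℝ → ℝ) (v : Fin k → ℝ) (t θ : ℝ) :
    cf b (wf hd η) v t θ = cf b (wf (Wd δ) η) v t θ + ∑ i, cf b (ef δ η i) v t θ := by
  unfold cf
  rw [← Finset.mul_sum, ← mul_add]
  congr 1
  rw [tele k (fun j => HH (wf (Wd δ) η j θ) (v j) t) (fun j => HH (wf hd η j θ) (v j) t)]
  congr 1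
  refine Finset.sum_congr rfl fun i _ => Finset.prod_congr rfl fun j _ => ?_
  have h := HH_fi δ i j (η j θ) (v j) t
  exact h.symm

lemma TT_tele {k : ℕ} {S : Set ℂ} (hS : Star3 S) {b : ℝ → ℂ} (hb' : Measurable b)
    (h1 : ∀ θ, ‖b θ‖ ≤ 1) (δ : ℝ) {η : Fin k → ℝ → ℝ} (hη : ∀ j, Measurable (η j)) (ζ : ℂ)
    (v : Fin k → ℝ) (t : ℝ) :
    TT S b (wf hd η) ζ v t = TT S b (wf (Wd δ) η) ζ v t + ∑ i, TT S b (ef δ η i) ζ v t := by
  have hpW : Prf (wf (Wd δ) η) := wf_prf (Wd_meas δ) (Wd_le δ) hη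
  have hI : ∀ g : Fin k → ℝ → ℝ → ℂ, Prf g →
      Integrable (fun x => ph (dt x ζ + t * normSq x) * hb S (cf b g v t) x) := fun g hg =>
    Ex_int _ (hbM_int hS _ (cf_meas1 hb' hg v t) (2 ^ k) (by positivity) (cf_le h1 hg v t)) ζ t
  unfold TT Ex
  rw [← integral_finsetSum _ (fun i _ => hI _ (ef_prf δ hη i)),
    ← integral_add (hI _ hpW) (integrable_finsetSum _ fun i _ => hI _ (ef_prf δ hη i))]
  apply integral_congr_ae
  filter_upwards with x
  rw [← Finset.mul_sum, ← mul_add]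
  congr 1
  unfold hb
  by_cases hx : x ∈ S
  · simp only [indicator_of_mem hx]
    exact cf_tele δ b η v t _
  · simp only [indicator_of_notMem hx]
    simp

lemma norm_sq_one (z : ℂ) (h : ‖z‖ ≤ 1) : ‖z‖ₑ ^ 2 ≤ 1 := by
  have : ‖z‖ₑ ≤ 1 := by
    rw [← ofReal_norm, ENNReal.ofReal_le_one]
    exact h
  calc ‖z‖ₑ ^ 2 ≤ 1 ^ 2 := pow_le_pow_left' this 2
    _ = 1 := one_pow 2

lemma B_gen {g : ℝ → ℂ} (h1 : ∀ y, ‖g y‖ ≤ 1) : ∫⁻ y in Icc (-1 : ℝ) 1, ‖g y‖ₑ ^ 2 ≤ 2 := by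
  calc ∫⁻ y in Icc (-1 : ℝ) 1, ‖g y‖ₑ ^ 2 ≤ ∫⁻ _ in Icc (-1 : ℝ) 1, 1 :=
        lintegral_mono fun y => norm_sq_one _ (h1 y)
    _ = 2 := by
        rw [lintegral_const, one_mul, Measure.restrict_apply_univ, Real.volume_Icc]
        norm_num

lemma B_dif (δ : ℝ) (hδ : 0 < δ) (e : ℝ) :
    ∫⁻ y in Icc (-1 : ℝ) 1, ‖hd (e - y) - Wd δ (e - y)‖ₑ ^ 2 ≤ ENNReal.ofReal δ := by
  calc ∫⁻ y in Icc (-1 : ℝ) 1, ‖hd (e - y) - Wd δ (e - y)‖ₑ ^ 2 ≤
      ∫⁻ y, ‖hd (e - y) - Wd δ (e - y)‖ₑ ^ 2 := setLIntegral_le_lintegral _ _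
    _ ≤ ∫⁻ y, (Ioo (e - δ) e).indicator (fun _ => 1) y := by
        apply lintegral_mono
        intro y
        simp only
        by_cases hy : y ∈ Ioo (e - δ) e
        · rw [indicator_of_mem hy]
          exact norm_sq_one _ (dif_le _ _)
        · rw [indicator_of_notMem hy, dif_zero δ (e - y) hδ]
          · simp
          · intro hc
            exact hy ⟨by linarith [hc.2], by linarith [hc.1]⟩
    _ = _ := by
        rw [lintegral_indicator_const measurableSet_Ioo, one_mul, Real.volume_Ioo]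
        congr 1
        ring

/-- the constant in the `L^2` bounds -/
noncomputable def c2 (k : ℕ) : ℝ := (2 * Real.pi) ^ 2 * (V3 * (4 * Real.pi) ^ k)

lemma c2_pos (k : ℕ) : 0 < c2 k := by
  have := V3_pos
  unfold c2
  positivity

lemma L2_gen {k : ℕ} {S : Set ℂ} (hS : Star3 S) {b : ℝ → ℂ} (hb' : Measurable b)
    (h1 : ∀ θ, ‖b θ‖ ≤ 1) {g : Fin k → ℝ → ℝ → ℂ} (hg : Prf g) (t : ℝ) :
    ∫⁻ v : Fin k → ℝ, ∫⁻ ζ : ℂ, ‖TT S b g ζ v t‖ₑ ^ 2 ≤ ENNReal.ofReal (c2 k) := by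
  have hV := V3_pos
  refine (TT_L2 hS hb' h1 hg (fun _ => 2) (fun j θ => B_gen (hg.le j θ)) t).trans (le_of_eq ?_)
  have e1 : ∏ _j : Fin k, (ENNReal.ofReal (2 * Real.pi) * 2) = ENNReal.ofReal ((4 * Real.pi) ^ k) := by
    rw [Finset.prod_const, Finset.card_univ, Fintype.card_fin, ENNReal.ofReal_pow (by positivity)]
    congr 1
    rw [show (2 : ℝ≥0∞) = ENNReal.ofReal 2 by norm_num, ← ENNReal.ofReal_mul (by positivity)]
    congr 1
    ring
  rw [e1]
  unfold c2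
  rw [← ENNReal.ofReal_mul hV.le, ← ENNReal.ofReal_mul (by positivity)]

lemma L2_err {k : ℕ} {S : Set ℂ} (hS : Star3 S) {b : ℝ → ℂ} (hb' : Measurable b)
    (h1 : ∀ θ, ‖b θ‖ ≤ 1) (δ : ℝ) (hδ : 0 < δ) {η : Fin k → ℝ → ℝ} (hη : ∀ j, Measurable (η j))
    (i : Fin k) (t : ℝ) :
    ∫⁻ v : Fin k → ℝ, ∫⁻ ζ : ℂ, ‖TT S b (ef δ η i) ζ v t‖ₑ ^ 2 ≤ ENNReal.ofReal (c2 k * δ) := by
  have hV := V3_pos
  have hpi := Real.pi_pos
  refine (TT_L2 hS hb' h1 (ef_prf δ hη i) (fun j => 2 * if j = i then ENNReal.ofReal δ else 1)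
    (fun j θ => ?_) t).trans (le_of_eq ?_)
  · split_ifs with h
    · refine le_trans (le_of_eq ?_) ((B_dif δ hδ (η j θ)).trans ?_)
      · apply lintegral_congr
        intro y
        unfold ef fi
        rw [h, if_neg (lt_irrefl i), if_pos rfl]
      · calc ENNReal.ofReal δ = 1 * ENNReal.ofReal δ := (one_mul _).symm
          _ ≤ 2 * ENNReal.ofReal δ := mul_le_mul' one_le_two le_rfl
    · rw [mul_one]
      exact B_gen ((ef_prf δ hη i).le j θ)
  · have e1 : ∏ j : Fin k, (ENNReal.ofReal (2 * Real.pi) *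
        (2 * if j = i then ENNReal.ofReal δ else 1)) = ENNReal.ofReal ((4 * Real.pi) ^ k * δ) := by
      have e2 : ∀ j : Fin k, ENNReal.ofReal (2 * Real.pi) *
          (2 * if j = i then ENNReal.ofReal δ else 1) = ENNReal.ofReal (4 * Real.pi) *
          (if j = i then ENNReal.ofReal δ else 1) := by
        intro j
        rw [← mul_assoc]
        congr 1
        rw [show (2 : ℝ≥0∞) = ENNReal.ofReal 2 by norm_num, ← ENNReal.ofReal_mul (by positivity)]
        congr 1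
        ring
      simp_rw [e2]
      rw [Finset.prod_mul_distrib, Finset.prod_const, Finset.card_univ, Fintype.card_fin,
        Finset.prod_ite_eq' Finset.univ i, if_pos (Finset.mem_univ i),
        ← ENNReal.ofReal_pow (by positivity), ← ENNReal.ofReal_mul (by positivity)]
    rw [e1]
    unfold c2
    rw [← ENNReal.ofReal_mul hV.le, ← ENNReal.ofReal_mul (by positivity)]
    congr 1
    ring

end Pool.Agent.Q63.Mix
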