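import Mathlib
import Pool.Agent.Q63.Mix.Tele
set_option autoImplicit false

/-! The `L^q` bound for hard tensor products on dyadic time intervals. -/

namespace Pool.Agent.Q63.Mix

open MeasureTheory Set Complex Pool.Agent.Q63.Star
open scoped ENNReal NNReal ComplexConjugate

/-- the measure on a time slab -/
noncomputable def nu (k : ℕ) (T : Set ℝ) : Measure (ℝ × ((Fin k → ℝ) × ℂ)) :=
  (volume.restrict T).prod (volume.prod volume)

lemma nu_lint (k : ℕ) (T : Set ℝ) (F : ℝ × ((Fin k → ℝ) × ℂ) → ℝ≥0∞) (hF : Measurable F) :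
    ∫⁻ w, F w ∂nu k T = ∫⁻ t in T, ∫⁻ v, ∫⁻ ζ, F (t, (v, ζ)) := by
  unfold nu
  rw [lintegral_prod _ hF.aemeasurable]
  apply lintegral_congr
  intro t
  have h : Measurable (fun p : (Fin k → ℝ) × ℂ => F (t, p)) := hF.comp measurable_prodMk_left
  rw [lintegral_prod _ h.aemeasurable]

/-- the extension on the slab -/
noncomputable def TX {k : ℕ} (S : Set ℂ) (b : ℝ → ℂ) (g : Fin k → ℝ → ℝ → ℂ)
    (w : ℝ × ((Fin k → ℝ) × ℂ)) : ℂ := TT S b g w.2.2 w.2.1 w.1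

lemma TX_meas {k : ℕ} {S : Set ℂ} (hS : MeasurableSet S) {b : ℝ → ℂ} (hb' : Measurable b)
    {g : Fin k → ℝ → ℝ → ℂ} (hg : Prf g) : Measurable (TX S b g) :=
  (TT_meas hS hb' hg).comp (f := fun w : ℝ × ((Fin k → ℝ) × ℂ) => (((w.1, w.2.1), w.2.2) :
    (ℝ × (Fin k → ℝ)) × ℂ)) (by fun_prop)

lemma X2 {k : ℕ} {S : Set ℂ} (hS : Star3 S) {b : ℝ → ℂ} (hb' : Measurable b)
    (h1 : ∀ θ, ‖b θ‖ ≤ 1) {g : Fin k → ℝ → ℝ → ℂ} (hg : Prf g) (T : Set ℝ) :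
    ∫⁻ w, ‖TX S b g w‖ₑ ^ 2 ∂nu k T ≤ ENNReal.ofReal (c2 k) * volume T := by
  rw [nu_lint k T _ ((TX_meas hS.meas hb' hg).enorm.pow_const 2)]
  calc _ ≤ ∫⁻ _ in T, ENNReal.ofReal (c2 k) :=
        lintegral_mono fun t => L2_gen hS hb' h1 hg t
    _ = _ := by rw [lintegral_const, Measure.restrict_apply_univ]

lemma X2e {k : ℕ} {S : Set ℂ} (hS : Star3 S) {b : ℝ → ℂ} (hb' : Measurable b)
    (h1 : ∀ θ, ‖b θ‖ ≤ 1) (δ : ℝ) (hδ : 0 < δ) {η : Fin k → ℝ → ℝ} (hη : ∀ j, Measurable (η j))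
    (i : Fin k) (T : Set ℝ) :
    ∫⁻ w, ‖TX S b (ef δ η i) w‖ₑ ^ 2 ∂nu k T ≤ ENNReal.ofReal (c2 k * δ) * volume T := by
  rw [nu_lint k T _ ((TX_meas hS.meas hb' (ef_prf δ hη i)).enorm.pow_const 2)]
  calc _ ≤ ∫⁻ _ in T, ENNReal.ofReal (c2 k * δ) :=
        lintegral_mono fun t => L2_err hS hb' h1 δ hδ hη i t
    _ = _ := by rw [lintegral_const, Measure.restrict_apply_univ]

/-- log-convexity -/
lemma logcm {X : Type*} [MeasurableSpace X] (μ : Measure X) (G : X → ℝ≥0∞) (hG : Measurable G)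
    (q : ℝ) (hq : 2 < q) (hq4 : q < 4) :
    ∫⁻ x, G x ^ q ∂μ ≤ (∫⁻ x, G x ^ 2 ∂μ) ^ ((4 - q) / 2) * (∫⁻ x, G x ^ 4 ∂μ) ^ ((q - 2) / 2) := by
  have h := ENNReal.lintegral_mul_norm_pow_le (μ := μ)
    (f := fun p => G p ^ 2) (g := fun p => G p ^ 4) (hG.pow_const 2).aemeasurable
    (hG.pow_const 4).aemeasurable (p := (4 - q) / 2) (q := (q - 2) / 2) (by linarith) (by linarith)
    (by ring)
  refine le_trans (le_of_eq ?_) h
  apply lintegral_congr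
  intro p
  rw [← ENNReal.rpow_natCast, ← ENNReal.rpow_natCast, ← ENNReal.rpow_mul, ← ENNReal.rpow_mul,
    ← ENNReal.rpow_add_of_nonneg _ _ (by push_cast; linarith) (by push_cast; linarith)]
  congr 1
  push_cast
  ring

lemma sum_sq_le {k : ℕ} (u : Fin k → ℝ≥0∞) : (∑ i, u i) ^ 2 ≤ k * ∑ i, u i ^ 2 := by
  have h := hol2 (Measure.count : Measure (Fin k)) u (measurable_of_countable _).aemeasurable
  rw [lintegral_count, lintegral_count, tsum_fintype, tsum_fintype] at h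
  simpa using h

/-- the error part -/
lemma Xerr {k : ℕ} {S : Set ℂ} (hS : Star3 S) {b : ℝ → ℂ} (hb' : Measurable b)
    (h1 : ∀ θ, ‖b θ‖ ≤ 1) (δ : ℝ) (hδ : 0 < δ) {η : Fin k → ℝ → ℝ} (hη : ∀ j, Measurable (η j))
    (T : Set ℝ) (q : ℝ) (hq : 2 < q) :
    ∫⁻ w, (∑ i, ‖TX S b (ef δ η i) w‖ₑ) ^ q ∂nu k T ≤
      ENNReal.ofReal ((k * (2 ^ k * V3)) ^ (q - 2) * (k * (k * (c2 k * δ)))) * volume T := by
  have hV := V3_pos
  have hc2 := c2_pos k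
  have hm := fun i => (TX_meas hS.meas hb' (ef_prf δ hη i)).enorm.pow_const 2
  have hq2 : 0 < q - 2 := by linarith
  set M : ℝ≥0∞ := ENNReal.ofReal (k * (2 ^ k * V3)) with hM
  have hMne : M ^ (q - 2) ≠ ∞ := ENNReal.rpow_ne_top_of_nonneg hq2.le ENNReal.ofReal_ne_top
  have hpt : ∀ w, (∑ i, ‖TX S b (ef δ η i) w‖ₑ) ^ q ≤
      M ^ (q - 2) * (k * ∑ i, ‖TX S b (ef δ η i) w‖ₑ ^ 2) := by
    intro w
    have hle : ∑ i, ‖TX S b (ef δ η i) w‖ₑ ≤ M := by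
      calc ∑ i, ‖TX S b (ef δ η i) w‖ₑ ≤ ∑ _i : Fin k, ENNReal.ofReal (2 ^ k * V3) :=
            Finset.sum_le_sum fun i _ => TT_le hS h1 (ef_prf δ hη i) _ _ _
        _ = M := by
            rw [Finset.sum_const, Finset.card_univ, Fintype.card_fin, nsmul_eq_mul, hM,
              ENNReal.ofReal_mul (p := (k : ℝ)) (by positivity), ENNReal.ofReal_natCast]
    have h2 := pw_up _ _ hle 2 q (by norm_num) hq.le
    rw [ENNReal.rpow_ofNat] at h2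
    exact h2.trans (mul_le_mul' le_rfl (sum_sq_le _))
  calc _ ≤ ∫⁻ w, M ^ (q - 2) * (k * ∑ i, ‖TX S b (ef δ η i) w‖ₑ ^ 2) ∂nu k T := lintegral_mono hpt
    _ = M ^ (q - 2) * (k * ∑ i, ∫⁻ w, ‖TX S b (ef δ η i) w‖ₑ ^ 2 ∂nu k T) := by
        rw [lintegral_const_mul' _ _ hMne, lintegral_const_mul' _ _ (ENNReal.natCast_ne_top k),
          lintegral_finsetSum _ fun i _ => hm i]
    _ ≤ M ^ (q - 2) * (k * ∑ _i : Fin k, ENNReal.ofReal (c2 k * δ) * volume T) :=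
        mul_le_mul' le_rfl (mul_le_mul' le_rfl
          (Finset.sum_le_sum fun i _ => X2e hS hb' h1 δ hδ hη i T))
    _ = _ := by
        rw [Finset.sum_const, Finset.card_univ, Fintype.card_fin, nsmul_eq_mul, hM,
          ENNReal.ofReal_rpow_of_nonneg (by positivity) hq2.le, ← ENNReal.ofReal_natCast k,
          ← mul_assoc (ENNReal.ofReal _) (ENNReal.ofReal _) (volume T), ← mul_assoc, ← mul_assoc,
          ← ENNReal.ofReal_mul (by positivity), ← ENNReal.ofReal_mul (by positivity),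
          ← ENNReal.ofReal_mul (by positivity)]
        congr 2
        ring

/-- **The dyadic estimate.** -/
theorem dyad (k : ℕ) (q : ℝ) (hq : 2 + 2 / ((k : ℝ) + 2) < q) (hq4 : q < 4) :
    ∃ τ : ℝ, 0 < τ ∧ ∃ K : ℝ, 0 < K ∧ ∀ R : ℝ, 1 ≤ R → ∀ S : Set ℂ, Star3 S →
    ∀ b : ℝ → ℂ, Measurable b → (∀ θ, ‖b θ‖ ≤ 1) → ∀ η : Fin k → ℝ → ℝ, (∀ j, Measurable (η j)) →
    (∀ j θ, η j θ ∈ Icc (-1 : ℝ) 1) →
    ∫⁻ w, ‖TX S b (wf hd η) w‖ₑ ^ q ∂nu k (Icc R (2 * R)) ≤ ENNReal.ofReal (K * R ^ (-τ)) := by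
  have hk0 : (0 : ℝ) ≤ k := Nat.cast_nonneg k
  have hk2 : (0 : ℝ) < (k : ℝ) + 2 := by linarith
  have hq2 : 2 < q := by
    have : 0 < 2 / ((k : ℝ) + 2) := by positivity
    linarith
  set s : ℝ := (q - 2) / 2 with hs
  have hs0 : 0 < s := by rw [hs]; linarith
  have hs1 : s < 1 := by rw [hs]; linarith
  set σ : ℝ := min (s * (k + 2) - 1) 1 with hσ
  have hσ0 : 0 < σ := by
    refine lt_min ?_ one_pos
    have h1 : 2 / ((k : ℝ) + 2) < q - 2 := by linarith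
    rw [div_lt_iff₀ hk2] at h1
    rw [hs]
    linarith
  have hσ1 : σ ≤ 1 := min_le_right _ _
  have hσs : σ ≤ s * (k + 2) - 1 := min_le_left _ _
  set ε : ℝ := σ / 4 with hε
  set θ : ℝ := σ / (32 * (k + 1)) with hθ
  have hε0 : 0 < ε := by positivity
  have hε1 : ε < 1 := by rw [hε]; linarith
  have hθ0 : 0 < θ := by positivity
  have hθk : 8 * θ * k ≤ σ / 4 := by
    rw [hθ]
    have : (k : ℝ) / (k + 1) ≤ 1 := by
      rw [div_le_one (by positivity)]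
      linarith
    calc 8 * (σ / (32 * (k + 1))) * k = σ / 4 * (k / (k + 1)) := by field_simp; ring
      _ ≤ σ / 4 * 1 := by gcongr
      _ = σ / 4 := mul_one _
  have hθ1 : θ < 1 := by
    rw [hθ, div_lt_one (by positivity)]
    nlinarith
  obtain ⟨C, hC, h4⟩ := coef4' ε hε0 hε1
  obtain ⟨Cθ, hCθ, hramp⟩ := ramp_rep θ hθ0 hθ1
  have hV := V3_pos
  have hc2 := c2_pos k
  have hpi := Real.pi_pos
  set K1 : ℝ := c2 k ^ ((4 - q) / 2) * ((Cθ ^ 4 * (64 * Real.pi ^ 2)) ^ k * C) ^ s with hK1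
  set K2 : ℝ := (k * (2 ^ k * V3)) ^ (q - 2) * (k * (k * c2 k)) with hK2
  have hK10 : 0 < K1 := by positivity
  have hK20 : 0 ≤ K2 := by positivity
  refine ⟨σ / 2, by positivity, 2 ^ (q - 1) * (K1 + K2), by positivity, ?_⟩
  intro R hR S hS b hb' h1 η hη hη1
  have hR0 : 0 < R := by linarith
  set δ : ℝ := R ^ (-(2 : ℝ)) with hδ
  have hδ0 : 0 < δ := Real.rpow_pos_of_pos hR0 _
  have hδ1 : δ ≤ 1 := Real.rpow_le_one_of_one_le_of_nonpos hR (by norm_num)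
  obtain ⟨a, ha, hA, hrep⟩ := hramp δ hδ0 hδ1
  have hpW : Prf (wf (Wd δ) η) := wf_prf (Wd_meas δ) (Wd_le δ) hη
  have hWm := (TX_meas hS.meas hb' hpW).enorm
  have hEm : Measurable (fun w => ∑ i, ‖TX S b (ef δ η i) w‖ₑ) :=
    Finset.measurable_sum _ fun i _ => (TX_meas hS.meas hb' (ef_prf δ hη i)).enorm
  have hvol : volume (Icc R (2 * R)) = ENNReal.ofReal R := by
    rw [Real.volume_Icc]
    congr 1
    ring
  -- soft part
  have hsoft4 : ∫⁻ w, ‖TX S b (wf (Wd δ) η) w‖ₑ ^ 4 ∂nu k (Icc R (2 * R)) ≤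
      ENNReal.ofReal (((Cθ ^ 4 * (64 * Real.pi ^ 2)) ^ k * C) *
        R ^ ((8 * θ - 1) * k + (-1 + ε))) := by
    rw [nu_lint k _ _ (hWm.pow_const 4)]
    have h5 := M4 (C * R ^ (-1 + ε)) (by positivity) R hR0 (fun S hS b hb h1 => h4 R hR0 S hS b hb h1)
      a ha (Cθ * δ ^ (-θ)) hA (Wd δ) (Wd_meas δ) (Wd_le δ) (by
        intro x hx
        exact hrep x hx) k S hS b hb' h1 η hη hη1
    refine h5.trans (le_of_eq ?_)
    congr 1
    have e1 : δ ^ (-θ) = R ^ (2 * θ) := by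
      rw [hδ, ← Real.rpow_mul hR0.le]
      congr 1
      ring
    have e2 : (Cθ * δ ^ (-θ)) ^ 4 * (64 * Real.pi ^ 2 / R) =
        Cθ ^ 4 * (64 * Real.pi ^ 2) * R ^ (8 * θ - 1) := by
      rw [e1, mul_pow, ← Real.rpow_natCast (R ^ (2 * θ)), ← Real.rpow_mul hR0.le,
        Real.rpow_sub_one hR0.ne']
      have : 2 * θ * ((4 : ℕ) : ℝ) = 8 * θ := by push_cast; ring
      rw [this]
      ring
    rw [e2, mul_pow, ← Real.rpow_natCast (R ^ (8 * θ - 1)), ← Real.rpow_mul hR0.le,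
      Real.rpow_add hR0 ((8 * θ - 1) * k) (-1 + ε)]
    ring
  have hsoft : ∫⁻ w, ‖TX S b (wf (Wd δ) η) w‖ₑ ^ q ∂nu k (Icc R (2 * R)) ≤
      ENNReal.ofReal (K1 * R ^ (-(σ / 2))) := by
    refine (logcm _ _ hWm q hq2 hq4).trans ?_
    have hA2 := X2 hS hb' h1 hpW (Icc R (2 * R))
    rw [hvol, ← ENNReal.ofReal_mul hc2.le] at hA2
    have hs3 : 0 ≤ (4 - q) / 2 := by linarith
    refine (mul_le_mul' (ENNReal.rpow_le_rpow hA2 hs3)
      (ENNReal.rpow_le_rpow hsoft4 hs0.le)).trans ?_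
    rw [ENNReal.ofReal_rpow_of_nonneg (by positivity) hs3,
      ENNReal.ofReal_rpow_of_nonneg (by positivity) hs0.le, ← ENNReal.ofReal_mul (by positivity)]
    apply ENNReal.ofReal_le_ofReal
    rw [Real.mul_rpow hc2.le hR0.le, Real.mul_rpow (by positivity) (by positivity),
      ← Real.rpow_mul hR0.le, mul_mul_mul_comm, ← hK1, ← Real.rpow_add hR0]
    refine mul_le_mul_of_nonneg_left (Real.rpow_le_rpow_of_exponent_le hR ?_) hK10.le
    have e3 : (4 - q) / 2 = 1 - s := by rw [hs]; ring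
    rw [e3]
    have e4 : 1 - s + ((8 * θ - 1) * k + (-1 + ε)) * s =
        -(s * (k + 2) - 1) + s * (8 * θ * k + ε) := by ring
    rw [e4]
    have e5 : s * (8 * θ * k + ε) ≤ 1 * (σ / 4 + σ / 4) := by
      refine mul_le_mul hs1.le (by rw [hε]; linarith) (by positivity) (by norm_num)
    linarith
  have herr : ∫⁻ w, (∑ i, ‖TX S b (ef δ η i) w‖ₑ) ^ q ∂nu k (Icc R (2 * R)) ≤
      ENNReal.ofReal (K2 * R ^ (-(σ / 2))) := by
    refine (Xerr hS hb' h1 δ hδ0 hη (Icc R (2 * R)) q hq2).trans ?_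
    rw [hvol, ← ENNReal.ofReal_mul (by positivity)]
    apply ENNReal.ofReal_le_ofReal
    have e1 : δ * R = R ^ (-(1 : ℝ)) := by
      rw [hδ]
      nth_rewrite 2 [← Real.rpow_one R]
      rw [← Real.rpow_add hR0]
      norm_num
    calc _ = K2 * (δ * R) := by rw [hK2]; ring
      _ = K2 * R ^ (-(1 : ℝ)) := by rw [e1]
      _ ≤ K2 * R ^ (-(σ / 2)) := by
          refine mul_le_mul_of_nonneg_left (Real.rpow_le_rpow_of_exponent_le hR ?_) hK20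
          linarith
  have hpt : ∀ w, ‖TX S b (wf hd η) w‖ₑ ^ q ≤ ENNReal.ofReal (2 ^ (q - 1)) *
      (‖TX S b (wf (Wd δ) η) w‖ₑ ^ q + (∑ i, ‖TX S b (ef δ η i) w‖ₑ) ^ q) := by
    intro w
    have h6 : ‖TX S b (wf hd η) w‖ₑ ≤ ‖TX S b (wf (Wd δ) η) w‖ₑ +
        ∑ i, ‖TX S b (ef δ η i) w‖ₑ := by
      unfold TX
      rw [TT_tele hS hb' h1 δ hη]
      exact (enorm_add_le _ _).trans (add_le_add le_rfl (enorm_sum_le _ _))
    refine (ENNReal.rpow_le_rpow h6 (by linarith)).trans ?_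
    refine (ENNReal.rpow_add_le_mul_rpow_add_rpow _ _ (by linarith)).trans (le_of_eq ?_)
    congr 1
    rw [← ENNReal.ofReal_rpow_of_pos (by norm_num)]
    norm_num
  calc _ ≤ ∫⁻ w, ENNReal.ofReal (2 ^ (q - 1)) * (‖TX S b (wf (Wd δ) η) w‖ₑ ^ q +
        (∑ i, ‖TX S b (ef δ η i) w‖ₑ) ^ q) ∂nu k (Icc R (2 * R)) := lintegral_mono hpt
    _ = ENNReal.ofReal (2 ^ (q - 1)) * ((∫⁻ w, ‖TX S b (wf (Wd δ) η) w‖ₑ ^ q
        ∂nu k (Icc R (2 * R))) + ∫⁻ w, (∑ i, ‖TX S b (ef δ η i) w‖ₑ) ^ q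
        ∂nu k (Icc R (2 * R))) := by
        rw [lintegral_const_mul' _ _ ENNReal.ofReal_ne_top, lintegral_add_left (hWm.pow_const q)]
    _ ≤ ENNReal.ofReal (2 ^ (q - 1)) * (ENNReal.ofReal (K1 * R ^ (-(σ / 2))) +
        ENNReal.ofReal (K2 * R ^ (-(σ / 2)))) := mul_le_mul' le_rfl (add_le_add hsoft herr)
    _ = _ := by
        rw [← ENNReal.ofReal_add (by positivity) (by positivity),
          ← ENNReal.ofReal_mul (by positivity)]
        congr 1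
        ring

end Pool.Agent.Q63.Mix
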