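import Mathlib
import Pool.Agent.Q63.Mix.Dy
set_option autoImplicit false

/-! The `L^q` bound for hard tensor products. -/

namespace Pool.Agent.Q63.Mix

open MeasureTheory Set Complex Pool.Agent.Q63.Star
open scoped ENNReal NNReal ComplexConjugate

/-- the norm at fixed time -/
noncomputable def GQ {k : ℕ} (S : Set ℂ) (b : ℝ → ℂ) (g : Fin k → ℝ → ℝ → ℂ) (q t : ℝ) : ℝ≥0∞ :=
  ∫⁻ v : Fin k → ℝ, ∫⁻ ζ : ℂ, ‖TT S b g ζ v t‖ₑ ^ q

lemma GQ_nu {k : ℕ} {S : Set ℂ} (hS : MeasurableSet S) {b : ℝ → ℂ} (hb' : Measurable b)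
    {g : Fin k → ℝ → ℝ → ℂ} (hg : Prf g) (q : ℝ) (T : Set ℝ) :
    ∫⁻ w, ‖TX S b g w‖ₑ ^ q ∂nu k T = ∫⁻ t in T, GQ S b g q t :=
  nu_lint k T _ ((TX_meas hS hb' hg).enorm.pow_const q)

lemma conj_HH {g : ℝ → ℂ} (hg : ∀ y, conj (g y) = g y) (v t : ℝ) :
    HH g v (-t) = conj (HH g (-v) t) := by
  unfold HH
  rw [← integral_conj]
  apply integral_congr_ae
  filter_upwards with y
  rw [map_mul, ph_conj, hg]
  congr 2
  ring

lemma hd_conj (x : ℝ) : conj (hd x) = hd x := by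
  unfold hd
  split_ifs <;> simp

lemma conj_TT {k : ℕ} (S : Set ℂ) (b : ℝ → ℂ) (η : Fin k → ℝ → ℝ) (ζ : ℂ) (v : Fin k → ℝ)
    (t : ℝ) : TT S b (wf hd η) ζ v (-t) =
      conj (TT S (fun θ => conj (b θ)) (wf hd η) (-ζ) (-v) t) := by
  unfold TT Ex
  rw [← integral_conj]
  apply integral_congr_ae
  filter_upwards with x
  rw [map_mul, ph_conj, dt_neg_right]
  congr 1
  · congr 1
    ring
  · unfold hb
    by_cases hx : x ∈ S
    · simp only [indicator_of_mem hx]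
      unfold cf
      rw [map_mul, Complex.conj_conj, map_prod]
      congr 1
      refine Finset.prod_congr rfl fun j _ => ?_
      exact conj_HH (fun y => hd_conj _) _ _
    · simp only [indicator_of_notMem hx, map_zero]

lemma GQ_neg {k : ℕ} {S : Set ℂ} (hS : MeasurableSet S) {b : ℝ → ℂ} (hb' : Measurable b)
    {η : Fin k → ℝ → ℝ} (hη : ∀ j, Measurable (η j)) (q t : ℝ) :
    GQ S b (wf hd η) q (-t) = GQ S (fun θ => conj (b θ)) (wf hd η) q t := by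
  have hp : Prf (wf hd η) := wf_prf hd_meas hd_le hη
  have hbc : Measurable (fun θ => conj (b θ)) := Complex.continuous_conj.measurable.comp hb'
  unfold GQ
  set F : (Fin k → ℝ) → ℂ → ℝ≥0∞ := fun v ζ =>
    ‖TT S (fun θ => conj (b θ)) (wf hd η) ζ v t‖ₑ ^ q with hF
  have hFm : Measurable (fun p : (Fin k → ℝ) × ℂ => F p.1 p.2) :=
    ((TT_meas hS hbc hp).comp (f := fun p : (Fin k → ℝ) × ℂ => (((t, p.1), p.2) :
      (ℝ × (Fin k → ℝ)) × ℂ)) (by fun_prop)).enorm.pow_const q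
  have e1 : ∀ (v : Fin k → ℝ) (ζ : ℂ), ‖TT S b (wf hd η) ζ v (-t)‖ₑ ^ q = F (-v) (-ζ) := by
    intro v ζ
    rw [conj_TT, hF]
    simp only
    congr 1
    rw [← ofReal_norm, ← ofReal_norm, RCLike.norm_conj]
  simp_rw [e1]
  have e2 : ∀ v : Fin k → ℝ, ∫⁻ ζ : ℂ, F v (-ζ) = ∫⁻ ζ : ℂ, F v ζ := by
    intro v
    exact (Measure.measurePreserving_neg (volume : Measure ℂ)).lintegral_comp
      (hFm.comp (f := fun ζ : ℂ => (v, ζ)) (by fun_prop))
  simp_rw [e2]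
  exact (Measure.measurePreserving_neg (volume : Measure (Fin k → ℝ))).lintegral_comp
    (f := fun v => ∫⁻ ζ : ℂ, F v ζ) hFm.lintegral_prod_right'

lemma both (G H : ℝ → ℝ≥0∞) (h : ∀ t, G (-t) = H t) :
    ∫⁻ t, G t ≤ (∫⁻ t in Ici (0 : ℝ), G t) + ∫⁻ t in Ici (0 : ℝ), H t := by
  have h1 := lintegral_add_compl (μ := volume) G (measurableSet_Ici (a := (0 : ℝ)))
  rw [compl_Ici] at h1
  rw [← h1]
  refine add_le_add le_rfl ?_
  have h3 := (Measure.measurePreserving_neg (volume : Measure ℝ)).setLIntegral_comp_preimage_emb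
    (MeasurableEquiv.neg ℝ).measurableEmbedding G (Iic 0)
  have h4 : (Neg.neg ⁻¹' (Iic (0 : ℝ)) : Set ℝ) = Ici 0 := by
    ext x
    simp
  rw [h4] at h3
  calc _ ≤ ∫⁻ t in Iic (0 : ℝ), G t := lintegral_mono_set Iio_subset_Iic_self
    _ = ∫⁻ t in Ici (0 : ℝ), G (-t) := h3.symm
    _ = _ := by simp_rw [h]

/-- positive times -/
lemma posT (k : ℕ) (q : ℝ) (hq : 2 + 2 / ((k : ℝ) + 2) < q) (hq4 : q < 4) :
    ∃ C : ℝ≥0∞, C ≠ ∞ ∧ ∀ S : Set ℂ, Star3 S →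
    ∀ b : ℝ → ℂ, Measurable b → (∀ θ, ‖b θ‖ ≤ 1) → ∀ η : Fin k → ℝ → ℝ, (∀ j, Measurable (η j)) →
    (∀ j θ, η j θ ∈ Icc (-1 : ℝ) 1) → ∫⁻ t in Ici (0 : ℝ), GQ S b (wf hd η) q t ≤ C := by
  obtain ⟨τ, hτ, K, hK, h⟩ := dyad k q hq hq4
  have hk0 : (0 : ℝ) ≤ k := Nat.cast_nonneg k
  have hq2 : 2 < q := by
    have : 0 < 2 / ((k : ℝ) + 2) := by positivity
    linarith
  set r : ℝ≥0∞ := ENNReal.ofReal (2 ^ (-τ)) with hr
  have hr1 : r < 1 := by
    rw [hr, ENNReal.ofReal_lt_one]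
    exact Real.rpow_lt_one_of_one_lt_of_neg (by norm_num) (by linarith)
  set M : ℝ≥0∞ := ENNReal.ofReal (2 ^ k * V3) with hM
  have hMne : M ^ (q - 2) ≠ ∞ :=
    ENNReal.rpow_ne_top_of_nonneg (by linarith) ENNReal.ofReal_ne_top
  refine ⟨M ^ (q - 2) * (ENNReal.ofReal (c2 k) * ENNReal.ofReal 16) +
    ENNReal.ofReal K * (1 - r)⁻¹, ?_, ?_⟩
  · have h1 : (1 - r)⁻¹ ≠ ∞ := by
      rw [Ne, ENNReal.inv_eq_top]
      exact (tsub_pos_of_lt hr1).ne'
    exact ENNReal.add_ne_top.2 ⟨ENNReal.mul_ne_top hMne (ENNReal.mul_ne_top ENNReal.ofReal_ne_top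
      ENNReal.ofReal_ne_top), ENNReal.mul_ne_top ENNReal.ofReal_ne_top h1⟩
  intro S hS b hb' h1 η hη hη1
  have hp : Prf (wf hd η) := wf_prf hd_meas hd_le hη
  refine (cover _).trans (add_le_add ?_ ?_)
  · rw [← GQ_nu hS.meas hb' hp q]
    calc _ ≤ ∫⁻ w, M ^ (q - 2) * ‖TX S b (wf hd η) w‖ₑ ^ 2 ∂nu k (Icc 0 16) := by
          apply lintegral_mono
          intro w
          have h2 := pw_up _ _ (TT_le hS h1 hp w.2.2 w.2.1 w.1) 2 q (by norm_num) hq2.le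
          rwa [ENNReal.rpow_ofNat] at h2
      _ = M ^ (q - 2) * ∫⁻ w, ‖TX S b (wf hd η) w‖ₑ ^ 2 ∂nu k (Icc 0 16) :=
          lintegral_const_mul' _ _ hMne
      _ ≤ _ := by
          refine mul_le_mul' le_rfl ((X2 hS hb' h1 hp _).trans (le_of_eq ?_))
          rw [Real.volume_Icc, sub_zero]
  · calc ∑' i : ℕ, ∫⁻ t in Icc (16 * 2 ^ i : ℝ) (2 * (16 * 2 ^ i)), GQ S b (wf hd η) q t ≤
        ∑' i : ℕ, ENNReal.ofReal K * r ^ i := by
          refine ENNReal.tsum_le_tsum fun i => ?_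
          have hi : (1 : ℝ) ≤ 2 ^ i := one_le_pow₀ (by norm_num)
          rw [← GQ_nu hS.meas hb' hp q]
          refine (h (16 * 2 ^ i) (by linarith) S hS b hb' h1 η hη hη1).trans ?_
          rw [hr, ← ENNReal.ofReal_pow (by positivity), ← ENNReal.ofReal_mul hK.le]
          apply ENNReal.ofReal_le_ofReal
          refine mul_le_mul_of_nonneg_left ?_ hK.le
          calc (16 * 2 ^ i : ℝ) ^ (-τ) ≤ (2 ^ i : ℝ) ^ (-τ) := by
                apply Real.rpow_le_rpow_of_nonpos (by positivity) (by linarith) (by linarith)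
            _ = _ := by
                rw [← Real.rpow_natCast, ← Real.rpow_natCast, ← Real.rpow_mul (by norm_num),
                  ← Real.rpow_mul (by norm_num), mul_comm]
      _ = _ := by
          rw [ENNReal.tsum_mul_left, ENNReal.tsum_geometric]

/-- **Hard tensor products.** -/
theorem glob (k : ℕ) (q : ℝ) (hq : 2 + 2 / ((k : ℝ) + 2) < q) :
    ∃ C : ℝ≥0∞, C ≠ ∞ ∧ ∀ S : Set ℂ, Star3 S →
    ∀ b : ℝ → ℂ, Measurable b → (∀ θ, ‖b θ‖ ≤ 1) → ∀ η : Fin k → ℝ → ℝ, (∀ j, Measurable (η j)) →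
    (∀ j θ, η j θ ∈ Icc (-1 : ℝ) 1) → ∫⁻ t : ℝ, GQ S b (wf hd η) q t ≤ C := by
  have hk0 : (0 : ℝ) ≤ k := Nat.cast_nonneg k
  have hk1 : 2 / ((k : ℝ) + 2) ≤ 1 := by
    rw [div_le_one (by positivity)]
    linarith
  have hk2 : 0 < 2 / ((k : ℝ) + 2) := by positivity
  set p : ℝ := min q (7 / 2) with hp
  have hp3 : 2 + 2 / ((k : ℝ) + 2) < p := lt_min hq (by linarith)
  have hp4 : p < 4 := lt_of_le_of_lt (min_le_right _ _) (by norm_num)
  have hpq : p ≤ q := min_le_left _ _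
  have hp0 : 0 ≤ p := by linarith
  obtain ⟨C, hC, h⟩ := posT k p hp3 hp4
  set M : ℝ≥0∞ := ENNReal.ofReal (2 ^ k * V3) with hM
  have hMne : M ^ (q - p) ≠ ∞ :=
    ENNReal.rpow_ne_top_of_nonneg (by linarith) ENNReal.ofReal_ne_top
  refine ⟨M ^ (q - p) * (C + C), ENNReal.mul_ne_top hMne (ENNReal.add_ne_top.2 ⟨hC, hC⟩), ?_⟩
  intro S hS b hb' h1 η hη hη1
  have hpr : Prf (wf hd η) := wf_prf hd_meas hd_le hη
  have hbc : Measurable (fun θ => conj (b θ)) := Complex.continuous_conj.measurable.comp hb'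
  have hbc1 : ∀ θ, ‖conj (b θ)‖ ≤ 1 := fun θ => by rw [RCLike.norm_conj]; exact h1 θ
  have hup : ∀ t, GQ S b (wf hd η) q t ≤ M ^ (q - p) * GQ S b (wf hd η) p t := by
    intro t
    unfold GQ
    rw [← lintegral_const_mul' _ _ hMne]
    apply lintegral_mono
    intro v
    simp only
    rw [← lintegral_const_mul' _ _ hMne]
    apply lintegral_mono
    intro ζ
    exact pw_up _ _ (TT_le hS h1 hpr ζ v t) p q hp0 hpq
  calc ∫⁻ t, GQ S b (wf hd η) q t ≤ ∫⁻ t, M ^ (q - p) * GQ S b (wf hd η) p t := lintegral_mono hup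
    _ = M ^ (q - p) * ∫⁻ t, GQ S b (wf hd η) p t := lintegral_const_mul' _ _ hMne
    _ ≤ M ^ (q - p) * (C + C) := by
        refine mul_le_mul' le_rfl ((both _ _ (GQ_neg hS.meas hb' hη p)).trans ?_)
        exact add_le_add (h S hS b hb' h1 η hη hη1)
          (h S hS (fun θ => conj (b θ)) hbc hbc1 η hη hη1)

end Pool.Agent.Q63.Mix
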