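import Mathlib
import Pool.Agent.Q63.Mix.Glob
import Pool.Agent.Q63.Star.Fin11
set_option autoImplicit false

/-! Reduction of the extension operator over the cube to the tensor products. -/

namespace Pool.Agent.Q63.Mix

open MeasureTheory Set Complex Pool.Agent.Q63.Star
open scoped ENNReal NNReal ComplexConjugate

/-- The closed cube `[-1,1]^n`. -/
abbrev cube (n : ℕ) : Set (Fin n → ℝ) := Icc (fun _ : Fin n => (-1 : ℝ)) (fun _ => 1)

/-- The extension operator of the truncated paraboloid in `ℝ^(n+1)`. -/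
noncomputable def ext {n : ℕ} (f : (Fin n → ℝ) → ℂ) (y : (Fin n → ℝ) × ℝ) : ℂ :=
  ∫ ξ in cube n,
    f ξ * cexp (2 * Real.pi * I * ((∑ j, ξ j * y.1 j + (∑ j, ξ j ^ 2) * y.2 : ℝ) : ℂ))

/-- coordinates -/
def e2 {k : ℕ} (p : ℂ × (Fin k → ℝ)) : Fin (k + 2) → ℝ :=
  Fin.cons p.1.re (Fin.cons p.1.im p.2 : Fin (k + 1) → ℝ)

lemma e2_meas {k : ℕ} : Measurable (e2 : ℂ × (Fin k → ℝ) → Fin (k + 2) → ℝ) := by
  have h1 : Measurable (fun p : ℂ × (Fin k → ℝ) => (Fin.cons p.1.im p.2 : Fin (k + 1) → ℝ)) :=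
    cons_meas.comp (f := fun p : ℂ × (Fin k → ℝ) => (p.1.im, p.2)) (by fun_prop)
  exact cons_meas.comp (f := fun p : ℂ × (Fin k → ℝ) =>
    (p.1.re, (Fin.cons p.1.im p.2 : Fin (k + 1) → ℝ)))
    ((Complex.measurable_re.comp measurable_fst).prodMk h1)

lemma lint_e2 {k : ℕ} (F : (Fin (k + 2) → ℝ) → ℝ≥0∞) (hF : Measurable F) :
    ∫⁻ ξ, F ξ = ∫⁻ v : Fin k → ℝ, ∫⁻ x : ℂ, F (e2 (x, v)) := by
  rw [lint_cons F hF]
  have h1 : Measurable (fun w : Fin (k + 1) → ℝ => ∫⁻ s : ℝ, F (Fin.cons s w)) := by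
    have h2 : Measurable (fun p : (Fin (k + 1) → ℝ) × ℝ => F (Fin.cons p.2 p.1)) :=
      (hF.comp cons_meas).comp (f := fun p : (Fin (k + 1) → ℝ) × ℝ => (p.2, p.1)) (by fun_prop)
    exact h2.lintegral_prod_right'
  rw [lint_cons _ h1]
  apply lintegral_congr
  intro v
  have h3 : Measurable (fun p : ℝ × ℝ =>
      F (Fin.cons p.1 (Fin.cons p.2 v : Fin (k + 1) → ℝ))) := by
    have h4 : Measurable (fun p : ℝ × ℝ => (Fin.cons p.2 v : Fin (k + 1) → ℝ)) :=
      cons_meas.comp (f := fun p : ℝ × ℝ => (p.2, v)) (by fun_prop)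
    exact (hF.comp cons_meas).comp (f := fun p : ℝ × ℝ =>
      (p.1, (Fin.cons p.2 v : Fin (k + 1) → ℝ))) (measurable_fst.prodMk h4)
  rw [← lintegral_prod_symm (μ := (volume : Measure ℝ)) (ν := (volume : Measure ℝ))
    (fun p : ℝ × ℝ => F (Fin.cons p.1 (Fin.cons p.2 v : Fin (k + 1) → ℝ))) h3.aemeasurable]
  exact (Complex.volume_preserving_equiv_real_prod.lintegral_comp h3).symm

lemma mp_e2 {k : ℕ} : MeasurePreserving (e2 : ℂ × (Fin k → ℝ) → Fin (k + 2) → ℝ) where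
  measurable := e2_meas
  map_eq := by
    ext A hA
    rw [Measure.map_apply e2_meas hA]
    have h1 := lint_e2 (k := k) (A.indicator fun _ => 1) (measurable_const.indicator hA)
    rw [lintegral_indicator_const hA, one_mul] at h1
    rw [h1]
    have h2 : (volume : Measure (ℂ × (Fin k → ℝ))) (e2 ⁻¹' A) =
        ∫⁻ p : ℂ × (Fin k → ℝ), (e2 ⁻¹' A).indicator (fun _ => 1) p := by
      rw [lintegral_indicator_const (e2_meas hA), one_mul]
    rw [h2, Measure.volume_eq_prod, lintegral_prod_symm _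
      (measurable_const.indicator (e2_meas hA)).aemeasurable]
    rfl

/-- the point of the plane with the first two coordinates -/
def pl {k : ℕ} (ξ : Fin (k + 2) → ℝ) : ℂ := ⟨ξ 0, ξ 1⟩

lemma pl_meas {k : ℕ} : Measurable (pl : (Fin (k + 2) → ℝ) → ℂ) := by
  have h : Measurable (fun ξ : Fin (k + 2) → ℝ => ((ξ 0, ξ 1) : ℝ × ℝ)) := by fun_prop
  exact Complex.measurableEquivRealProd.symm.measurable.comp h

lemma e2_zero {k : ℕ} (x : ℂ) (v : Fin k → ℝ) : e2 (x, v) 0 = x.re := rfl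

lemma e2_one {k : ℕ} (x : ℂ) (v : Fin k → ℝ) : e2 (x, v) (Fin.succ 0) = x.im := rfl

lemma e2_succ {k : ℕ} (x : ℂ) (v : Fin k → ℝ) (j : Fin k) : e2 (x, v) j.succ.succ = v j := rfl

lemma pl_e2 {k : ℕ} (x : ℂ) (v : Fin k → ℝ) : pl (e2 (x, v)) = x := by
  unfold pl
  rw [← Fin.succ_zero_eq_one, e2_zero, e2_one]

/-- the square -/
def Sq : Set ℂ := {x | x.re ∈ Icc (-1 : ℝ) 1 ∧ x.im ∈ Icc (-1 : ℝ) 1}

lemma Sq_meas : MeasurableSet Sq :=
  (Complex.measurable_re measurableSet_Icc).inter (Complex.measurable_im measurableSet_Icc)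

lemma e2_cube {k : ℕ} (x : ℂ) (v : Fin k → ℝ) :
    e2 (x, v) ∈ cube (k + 2) ↔ x ∈ Sq ∧ ∀ j, v j ∈ Icc (-1 : ℝ) 1 := by
  have h : e2 (x, v) ∈ cube (k + 2) ↔ ∀ i, e2 (x, v) i ∈ Icc (-1 : ℝ) 1 := by
    simp only [mem_Icc, Pi.le_def]
    exact ⟨fun h i => ⟨h.1 i, h.2 i⟩, fun h => ⟨fun i => (h i).1, fun i => (h i).2⟩⟩
  rw [h, Fin.forall_fin_succ, Fin.forall_fin_succ]
  unfold Sq
  constructor
  · rintro ⟨h1, h2, h3⟩
    exact ⟨⟨h1, h2⟩, h3⟩
  · rintro ⟨⟨h1, h2⟩, h3⟩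
    exact ⟨h1, h2, h3⟩

/-- the function: rough in the angle about `a` -/
noncomputable def Fb {k : ℕ} (a : ℂ) (b : ℝ → ℂ) (ρ : ℝ → ℝ) (η : Fin k → ℝ → ℝ)
    (ξ : Fin (k + 2) → ℝ) : ℂ :=
  b (arg (pl ξ - a)) * (if ‖pl ξ - a‖ < ρ (arg (pl ξ - a)) then 1 else 0) *
    ∏ j : Fin k, (if ξ j.succ.succ < η j (arg (pl ξ - a)) then 1 else 0)

lemma Fb_le {k : ℕ} (a : ℂ) {b : ℝ → ℂ} (h1 : ∀ θ, ‖b θ‖ ≤ 1) (ρ : ℝ → ℝ) (η : Fin k → ℝ → ℝ)
    (ξ : Fin (k + 2) → ℝ) : ‖Fb a b ρ η ξ‖ ≤ 1 := by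
  unfold Fb
  rw [norm_mul, norm_mul, norm_prod]
  have h2 : ‖(if ‖pl ξ - a‖ < ρ (arg (pl ξ - a)) then (1 : ℂ) else 0)‖ ≤ 1 := by
    split_ifs <;> simp
  have h3 : ∏ j : Fin k, ‖(if ξ j.succ.succ < η j (arg (pl ξ - a)) then (1 : ℂ) else 0)‖ ≤ 1 := by
    refine Finset.prod_le_one (fun j _ => norm_nonneg _) fun j _ => ?_
    split_ifs <;> simp
  have h4 := mul_le_mul (mul_le_mul (h1 (arg (pl ξ - a))) h2 (norm_nonneg _) zero_le_one) h3
    (Finset.prod_nonneg fun j _ => norm_nonneg _) (by norm_num : (0 : ℝ) ≤ 1 * 1)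
  exact h4.trans (by norm_num)

lemma Fb_meas {k : ℕ} (a : ℂ) {b : ℝ → ℂ} (hb' : Measurable b) {ρ : ℝ → ℝ} (hρ : Measurable ρ)
    {η : Fin k → ℝ → ℝ} (hη : ∀ j, Measurable (η j)) : Measurable (Fb a b ρ η) := by
  have hθ : Measurable (fun ξ : Fin (k + 2) → ℝ => arg (pl ξ - a)) :=
    Complex.measurable_arg.comp (pl_meas.sub_const a)
  unfold Fb
  refine ((hb'.comp hθ).mul ?_).mul (Finset.measurable_prod _ fun j _ => ?_)
  · exact Measurable.ite (measurableSet_lt (pl_meas.sub_const a).norm (hρ.comp hθ))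
      measurable_const measurable_const
  · exact Measurable.ite (measurableSet_lt (measurable_pi_apply _) ((hη j).comp hθ))
      measurable_const measurable_const

/-- clipping -/
lemma HH_clip (e v t : ℝ) : HH (fun y => hd (e - y)) v t =
    HH (fun y => hd (max (-1) (min 1 e) - y)) v t := by
  unfold HH
  rw [integral_Icc_eq_integral_Ico, integral_Icc_eq_integral_Ico]
  apply setIntegral_congr_fun measurableSet_Ico
  intro y hy
  simp only
  congr 1
  unfold hd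
  have h : (0 < e - y) ↔ (0 < max (-1) (min 1 e) - y) := by
    rw [sub_pos, sub_pos]
    constructor
    · intro h1
      exact lt_max_of_lt_right (lt_min hy.2 h1)
    · intro h1
      rcases lt_max_iff.1 h1 with h2 | h2
      · exact absurd h2 (not_lt.2 hy.1)
      · exact (lt_min_iff.1 h2).2
  by_cases h1 : 0 < e - y
  · rw [if_pos h1, if_pos (h.1 h1)]
  · rw [if_neg h1, if_neg (fun hc => h1 (h.2 hc))]

/-- the clipped profile parameters -/
noncomputable def cl {k : ℕ} (η : Fin k → ℝ → ℝ) : Fin k → ℝ → ℝ :=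
  fun j θ => max (-1) (min 1 (η j θ))

lemma cl_mem {k : ℕ} (η : Fin k → ℝ → ℝ) (j : Fin k) (θ : ℝ) : cl η j θ ∈ Icc (-1 : ℝ) 1 :=
  ⟨le_max_left _ _, max_le (by norm_num) (min_le_left _ _)⟩

lemma cl_meas {k : ℕ} {η : Fin k → ℝ → ℝ} (hη : ∀ j, Measurable (η j)) (j : Fin k) :
    Measurable (cl η j) := measurable_const.max (measurable_const.min (hη j))

/-- the star-shaped set -/
def Sa (a : ℂ) (ρ : ℝ → ℝ) : Set ℂ := {x | a + x ∈ Sq ∧ ‖x‖ < ρ (arg x)}

lemma Sa_star (a : ℂ) (ha : a ∈ Sq) (ρ : ℝ → ℝ) (hρ : Measurable ρ) : Star3 (Sa a ρ) where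
  meas := (Sq_meas.preimage (measurable_const_add a)).inter
    (measurableSet_lt measurable_norm (hρ.comp Complex.measurable_arg))
  star := by
    rintro x ⟨⟨h1, h2⟩, h3⟩ s hs hs1
    refine ⟨⟨?_, ?_⟩, ?_⟩
    · have e : (a + (s : ℂ) * x).re = (1 - s) * a.re + s * (a + x).re := by
        simp only [add_re, mul_re, ofReal_re, ofReal_im]
        ring
      rw [e]
      constructor
      · nlinarith [ha.1.1, h1.1]
      · nlinarith [ha.1.2, h1.2]
    · have e : (a + (s : ℂ) * x).im = (1 - s) * a.im + s * (a + x).im := by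
        simp only [add_im, mul_im, ofReal_re, ofReal_im]
        ring
      rw [e]
      constructor
      · nlinarith [ha.2.1, h2.1]
      · nlinarith [ha.2.2, h2.2]
    · rw [Complex.arg_real_mul x hs, norm_mul, Complex.norm_real, Real.norm_eq_abs,
        abs_of_pos hs]
      calc s * ‖x‖ ≤ 1 * ‖x‖ := by gcongr
        _ = ‖x‖ := one_mul _
        _ < _ := h3
  bdd := by
    rintro x ⟨⟨h1, h2⟩, _⟩
    have hr : |x.re| ≤ 2 := by
      rw [add_re] at h1
      rw [abs_le]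
      constructor
      · linarith [ha.1.2, h1.1]
      · linarith [ha.1.1, h1.2]
    have hi : |x.im| ≤ 2 := by
      rw [add_im] at h2
      rw [abs_le]
      constructor
      · linarith [ha.2.2, h2.1]
      · linarith [ha.2.1, h2.2]
    have h4 : ‖x‖ ^ 2 ≤ 8 := by
      rw [← Complex.normSq_eq_norm_sq, Complex.normSq_apply, ← sq, ← sq, ← sq_abs x.re,
        ← sq_abs x.im]
      nlinarith [abs_nonneg x.re, abs_nonneg x.im]
    by_contra hc
    rw [not_lt] at hc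
    nlinarith

/-- the integrand in the new coordinates -/
lemma integrand {k : ℕ} (a : ℂ) (b : ℝ → ℂ) (ρ : ℝ → ℝ) (η : Fin k → ℝ → ℝ) (z : ℂ)
    (w : Fin k → ℝ) (τ : ℝ) (x : ℂ) (v : Fin k → ℝ) :
    (cube (k + 2)).indicator (fun ξ => Fb a b ρ η ξ *
      cexp (2 * Real.pi * I * ((∑ j, ξ j * e2 (z, w) j + (∑ j, ξ j ^ 2) * τ : ℝ) : ℂ))) (e2 (x, v)) =
    ph (dt x (((-(2 * Real.pi) : ℝ) : ℂ) * z) + (-(2 * Real.pi) * τ) * normSq x) *
      Sq.indicator (fun x => b (arg (x - a)) * (if ‖x - a‖ < ρ (arg (x - a)) then 1 else 0)) x *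
      ∏ j : Fin k, (Icc (-1 : ℝ) 1).indicator (fun y => ph ((-(2 * Real.pi) * w j) * y +
        (-(2 * Real.pi) * τ) * y ^ 2) * hd (η j (arg (x - a)) - y)) (v j) := by
  by_cases hx : x ∈ Sq
  · by_cases hv : ∀ j, v j ∈ Icc (-1 : ℝ) 1
    · rw [indicator_of_mem ((e2_cube x v).2 ⟨hx, hv⟩), indicator_of_mem hx]
      have e1 : ∏ j : Fin k, (Icc (-1 : ℝ) 1).indicator (fun y => ph ((-(2 * Real.pi) * w j) * y +
          (-(2 * Real.pi) * τ) * y ^ 2) * hd (η j (arg (x - a)) - y)) (v j) =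
          (∏ j : Fin k, ph ((-(2 * Real.pi) * w j) * v j + (-(2 * Real.pi) * τ) * v j ^ 2)) *
          ∏ j : Fin k, hd (η j (arg (x - a)) - v j) := by
        rw [← Finset.prod_mul_distrib]
        refine Finset.prod_congr rfl fun j _ => ?_
        rw [indicator_of_mem (hv j)]
      have e2' : ∏ j : Fin k, ph ((-(2 * Real.pi) * w j) * v j + (-(2 * Real.pi) * τ) * v j ^ 2) =
          ph (∑ j : Fin k, ((-(2 * Real.pi) * w j) * v j + (-(2 * Real.pi) * τ) * v j ^ 2)) := by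
        unfold ph
        rw [← Complex.exp_sum]
        congr 1
        rw [Complex.ofReal_sum, Finset.mul_sum, Finset.sum_neg_distrib]
      have e3 : ∏ j : Fin k, hd (η j (arg (x - a)) - v j) =
          ∏ j : Fin k, (if e2 (x, v) j.succ.succ < η j (arg (x - a)) then (1 : ℂ) else 0) := by
        refine Finset.prod_congr rfl fun j _ => ?_
        unfold hd
        rw [e2_succ]
        by_cases h : v j < η j (arg (x - a))
        · rw [if_pos (sub_pos.2 h), if_pos h]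
        · rw [if_neg (fun hc => h (sub_pos.1 hc)), if_neg h]
      rw [e1, e2', e3]
      unfold Fb
      rw [pl_e2]
      have e4 : cexp (2 * Real.pi * I * ((∑ j, e2 (x, v) j * e2 (z, w) j +
          (∑ j, e2 (x, v) j ^ 2) * τ : ℝ) : ℂ)) =
          ph (dt x (((-(2 * Real.pi) : ℝ) : ℂ) * z) + (-(2 * Real.pi) * τ) * normSq x) *
          ph (∑ j : Fin k, ((-(2 * Real.pi) * w j) * v j + (-(2 * Real.pi) * τ) * v j ^ 2)) := by
        rw [← ph_add]
        unfold ph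
        congr 1
        rw [dt_smul_right, Fin.sum_univ_succ, Fin.sum_univ_succ, Fin.sum_univ_succ,
          Fin.sum_univ_succ]
        simp only [e2_zero, e2_one, e2_succ]
        rw [normSq_apply]
        unfold dt
        have e5 : ∑ j : Fin k, ((-(2 * Real.pi) * w j) * v j + (-(2 * Real.pi) * τ) * v j ^ 2) =
            -(2 * Real.pi) * (∑ j, v j * w j) + -(2 * Real.pi) * τ * ∑ j, v j ^ 2 := by
          rw [Finset.mul_sum, Finset.mul_sum, ← Finset.sum_add_distrib]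
          refine Finset.sum_congr rfl fun j _ => by ring
        rw [e5]
        push_cast
        ring
      rw [e4]
      ring
    · rw [indicator_of_notMem (fun hc => hv ((e2_cube x v).1 hc).2)]
      push Not at hv
      obtain ⟨j, hj⟩ := hv
      rw [Finset.prod_eq_zero (Finset.mem_univ j), mul_zero]
      rw [indicator_of_notMem hj]
  · rw [indicator_of_notMem (fun hc => hx ((e2_cube x v).1 hc).1), indicator_of_notMem hx]
    ring

end Pool.Agent.Q63.Mix
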