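import Mathlib
import Pool.Agent.Q63.Mix.Red
set_option autoImplicit false

/-! Assembly. -/

namespace Pool.Agent.Q63.Mix

open MeasureTheory Set Complex Pool.Agent.Q63.Star
open scoped ENNReal NNReal ComplexConjugate

/-- the exponential -/
noncomputable def ker {n : ℕ} (ξ : Fin n → ℝ) (y : (Fin n → ℝ) × ℝ) : ℂ :=
  cexp (2 * Real.pi * I * ((∑ j, ξ j * y.1 j + (∑ j, ξ j ^ 2) * y.2 : ℝ) : ℂ))

lemma ker_norm {n : ℕ} (ξ : Fin n → ℝ) (y : (Fin n → ℝ) × ℝ) : ‖ker ξ y‖ = 1 := by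
  unfold ker
  have : (2 * Real.pi * I * ((∑ j, ξ j * y.1 j + (∑ j, ξ j ^ 2) * y.2 : ℝ) : ℂ)) =
      ((2 * Real.pi * (∑ j, ξ j * y.1 j + (∑ j, ξ j ^ 2) * y.2) : ℝ) : ℂ) * I := by
    push_cast
    ring
  rw [this, Complex.norm_exp_ofReal_mul_I]

lemma ker_meas' {n : ℕ} : Measurable (fun p : (Fin n → ℝ) × ((Fin n → ℝ) × ℝ) => ker p.1 p.2) := by
  unfold ker
  fun_prop

lemma vol_cube (n : ℕ) : volume (cube n) ≠ ∞ := by
  unfold cube
  exact isCompact_Icc.measure_lt_top.ne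

instance cube_fin (n : ℕ) : IsFiniteMeasure ((volume : Measure (Fin n → ℝ)).restrict (cube n)) :=
  ⟨by rw [Measure.restrict_apply_univ]; exact (vol_cube n).lt_top⟩

lemma ext_measP {n : ℕ} {α : Type*} [MeasurableSpace α] (F : α → (Fin n → ℝ) → ℂ)
    (hF : Measurable (fun p : α × (Fin n → ℝ) => F p.1 p.2)) :
    Measurable (fun w : α × ((Fin n → ℝ) × ℝ) => ext (F w.1) w.2) := by
  have h1 : Measurable (fun p : (α × ((Fin n → ℝ) × ℝ)) × (Fin n → ℝ) => F p.1.1 p.2) :=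
    hF.comp (f := fun p : (α × ((Fin n → ℝ) × ℝ)) × (Fin n → ℝ) => (p.1.1, p.2)) (by fun_prop)
  have h2 : Measurable (fun p : (α × ((Fin n → ℝ) × ℝ)) × (Fin n → ℝ) => ker p.2 p.1.2) :=
    ker_meas'.comp (f := fun p : (α × ((Fin n → ℝ) × ℝ)) × (Fin n → ℝ) => (p.2, p.1.2))
      (by fun_prop)
  exact ((h1.mul h2).stronglyMeasurable.integral_prod_right'
    (ν := (volume : Measure (Fin n → ℝ)).restrict (cube n))).measurable

lemma ext_meas1 {n : ℕ} (F : (Fin n → ℝ) → ℂ) (hF : Measurable F) : Measurable (ext F) :=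
  (ext_measP (α := Unit) (fun _ => F) (hF.comp measurable_snd)).comp
    (f := fun y : (Fin n → ℝ) × ℝ => (((), y) : Unit × ((Fin n → ℝ) × ℝ))) (by fun_prop)

/-- identification -/
lemma ext_Fb {k : ℕ} (a : ℂ) {b : ℝ → ℂ} (hb' : Measurable b) (h1 : ∀ θ, ‖b θ‖ ≤ 1)
    {ρ : ℝ → ℝ} (hρ : Measurable ρ) {η : Fin k → ℝ → ℝ} (hη : ∀ j, Measurable (η j)) (z : ℂ)
    (w : Fin k → ℝ) (τ : ℝ) :
    ‖ext (Fb a b ρ η) (e2 (z, w), τ)‖ₑ = ‖TT (Sa a ρ) b (wf hd (cl η))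
      (((-(2 * Real.pi) : ℝ) : ℂ) * z + (2 * (-(2 * Real.pi) * τ) : ℝ) * a)
      (fun j => -(2 * Real.pi) * w j) (-(2 * Real.pi) * τ)‖ₑ := by
  set t : ℝ := -(2 * Real.pi) * τ with ht
  set ζ : ℂ := ((-(2 * Real.pi) : ℝ) : ℂ) * z with hζ
  set w' : Fin k → ℝ := fun j => -(2 * Real.pi) * w j with hw'
  set G : (Fin (k + 2) → ℝ) → ℂ := fun ξ => Fb a b ρ η ξ * ker ξ (e2 (z, w), τ) with hG
  have hGm : Measurable G := (Fb_meas a hb' hρ hη).mul (ker_meas'.comp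
    (f := fun ξ : Fin (k + 2) → ℝ => (ξ, (e2 (z, w), τ))) (by fun_prop))
  have hGn : ∀ ξ, ‖G ξ‖ ≤ 1 := by
    intro ξ
    rw [hG]
    simp only
    rw [norm_mul, ker_norm, mul_one]
    exact Fb_le a h1 ρ η ξ
  have hGi : Integrable ((cube (k + 2)).indicator G) := by
    refine (integrable_indicator_iff measurableSet_Icc).2 ?_
    exact Integrable.mono' (g := fun _ => (1 : ℝ)) (integrable_const _) hGm.aestronglyMeasurable
      (ae_of_all _ hGn)
  have hIm : Measurable ((cube (k + 2)).indicator G) := hGm.indicator measurableSet_Icc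
  set g0 : ℂ → ℂ := fun x => Sq.indicator
    (fun x => b (arg (x - a)) * (if ‖x - a‖ < ρ (arg (x - a)) then 1 else 0)) x with hg0
  set pr : ℂ → Fin k → ℝ → ℂ := fun x j => (Icc (-1 : ℝ) 1).indicator
    (fun y => ph (w' j * y + t * y ^ 2) * hd (η j (arg (x - a)) - y)) with hpr
  have hint : ∀ (x : ℂ) (v : Fin k → ℝ), (cube (k + 2)).indicator G (e2 (x, v)) =
      ph (dt x ζ + t * normSq x) * g0 x * ∏ j : Fin k, pr x j (v j) := fun x v =>
    integrand a b ρ η z w τ x v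
  have e1 : ext (Fb a b ρ η) (e2 (z, w), τ) =
      ∫ p : ℂ × (Fin k → ℝ), (cube (k + 2)).indicator G (e2 p) := by
    have e0 : ext (Fb a b ρ η) (e2 (z, w), τ) = ∫ ξ, (cube (k + 2)).indicator G ξ := by
      rw [integral_indicator measurableSet_Icc]
      rfl
    rw [e0, ← mp_e2.map_eq, integral_map mp_e2.measurable.aemeasurable
      hIm.aestronglyMeasurable]
  have hI2 : Integrable (fun p : ℂ × (Fin k → ℝ) => (cube (k + 2)).indicator G (e2 p))
      ((volume : Measure ℂ).prod (volume : Measure (Fin k → ℝ))) :=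
    (mp_e2.integrable_comp hIm.aestronglyMeasurable).2 hGi
  set f : ℂ → ℂ := fun x => g0 x * ∏ j : Fin k, HH (fun y => hd (η j (arg (x - a)) - y)) (w' j) t
    with hf
  have e2' : ext (Fb a b ρ η) (e2 (z, w), τ) = Ex f ζ t := by
    rw [e1, Measure.volume_eq_prod, integral_prod _ hI2]
    unfold Ex
    apply integral_congr_ae
    filter_upwards with x
    simp_rw [hint x]
    rw [integral_const_mul, integral_fintype_prod_volume_eq_prod, hf]
    simp only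
    rw [mul_assoc]
    congr 2
    refine Finset.prod_congr rfl fun j _ => ?_
    rw [hpr]
    simp only
    rw [integral_indicator measurableSet_Icc]
    rfl
  rw [e2', shear f a ζ t]
  unfold TT
  congr 2
  funext y
  rw [hf]
  simp only
  rw [hg0]
  simp only
  unfold hb
  have ey : a + y - a = y := by ring
  by_cases hy : a + y ∈ Sq
  · rw [indicator_of_mem hy, ey]
    by_cases hr : ‖y‖ < ρ (arg y)
    · rw [if_pos hr, mul_one, indicator_of_mem (show y ∈ Sa a ρ from ⟨hy, hr⟩)]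
      unfold cf
      congr 1
      refine Finset.prod_congr rfl fun j _ => ?_
      rw [HH_clip]
      rfl
    · rw [if_neg hr, mul_zero, zero_mul, indicator_of_notMem (fun hc => hr hc.2)]
  · rw [indicator_of_notMem hy, zero_mul, indicator_of_notMem (fun hc => hy hc.1)]

lemma lint_smulE {k : ℕ} (F : (Fin k → ℝ) → ℝ≥0∞) (hF : Measurable F) (c : ℝ) (hc : 1 ≤ |c|) :
    ∫⁻ v : Fin k → ℝ, F (fun j => c * v j) ≤ ∫⁻ v, F v := by
  have hc0 : c ≠ 0 := by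
    intro h
    rw [h, abs_zero] at hc
    linarith
  have h := Measure.map_addHaar_smul (volume : Measure (Fin k → ℝ)) hc0
  have e : ∫⁻ v : Fin k → ℝ, F (fun j => c * v j) = ∫⁻ v, F (c • v) := rfl
  rw [e, ← lintegral_map hF (measurable_const_smul c), h, lintegral_smul_measure, smul_eq_mul]
  calc _ ≤ 1 * ∫⁻ v, F v := by
        refine mul_le_mul' ?_ le_rfl
        rw [ENNReal.ofReal_le_one, abs_inv, abs_pow]
        exact inv_le_one_of_one_le₀ (one_le_pow₀ hc)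
    _ = _ := one_mul _

/-- the bound for one function -/
theorem single (k : ℕ) (q : ℝ) (hq : 2 + 2 / ((k : ℝ) + 2) < q) :
    ∃ C : ℝ≥0∞, C ≠ ∞ ∧ ∀ a ∈ Sq, ∀ b : ℝ → ℂ, Measurable b → (∀ θ, ‖b θ‖ ≤ 1) →
    ∀ ρ : ℝ → ℝ, Measurable ρ → ∀ η : Fin k → ℝ → ℝ, (∀ j, Measurable (η j)) →
    ∫⁻ y : (Fin (k + 2) → ℝ) × ℝ, ‖ext (Fb a b ρ η) y‖ₑ ^ q ≤ C := by
  obtain ⟨C, hC, h⟩ := glob k q hq
  refine ⟨C, hC, ?_⟩
  intro a ha b hb' h1 ρ hρ η hη
  have hpi := Real.pi_gt_three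
  set c : ℝ := -(2 * Real.pi) with hc
  have hc0 : c ≠ 0 := by rw [hc]; linarith
  have hc1 : 1 ≤ |c| := by
    rw [hc, abs_neg, abs_of_pos (by linarith)]
    linarith
  have hp : Prf (wf hd (cl η)) := wf_prf hd_meas hd_le (cl_meas hη)
  have hS := Sa_star a ha ρ hρ
  have hem : Measurable (fun y : (Fin (k + 2) → ℝ) × ℝ => ‖ext (Fb a b ρ η) y‖ₑ ^ q) :=
    (ext_meas1 _ (Fb_meas a hb' hρ hη)).enorm.pow_const q
  set T : ℂ → (Fin k → ℝ) → ℝ → ℝ≥0∞ := fun ζ v t =>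
    ‖TT (Sa a ρ) b (wf hd (cl η)) ζ v t‖ₑ ^ q with hT
  have hTm : Measurable (fun w : (ℝ × (Fin k → ℝ)) × ℂ => T w.2 w.1.2 w.1.1) :=
    (TT_meas hS.meas hb' hp).enorm.pow_const q
  have hTζ : ∀ t v, Measurable (fun ζ => T ζ v t) := fun t v =>
    hTm.comp (f := fun ζ : ℂ => (((t, v), ζ) : (ℝ × (Fin k → ℝ)) × ℂ)) (by fun_prop)
  have hT2 : Measurable (fun w : ℝ × (Fin k → ℝ) => ∫⁻ ζ, T ζ w.2 w.1) :=
    hTm.lintegral_prod_right' (ν := (volume : Measure ℂ))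
  have hT2v : ∀ t, Measurable (fun v => ∫⁻ ζ, T ζ v t) := fun t =>
    hT2.comp (f := fun v : Fin k → ℝ => (t, v)) (by fun_prop)
  have hT3 : Measurable (fun t => ∫⁻ v, ∫⁻ ζ, T ζ v t) :=
    hT2.lintegral_prod_right' (ν := (volume : Measure (Fin k → ℝ)))
  calc ∫⁻ y : (Fin (k + 2) → ℝ) × ℝ, ‖ext (Fb a b ρ η) y‖ₑ ^ q =
      ∫⁻ τ : ℝ, ∫⁻ y1 : Fin (k + 2) → ℝ, ‖ext (Fb a b ρ η) (y1, τ)‖ₑ ^ q := by
        rw [Measure.volume_eq_prod, lintegral_prod_symm _ hem.aemeasurable]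
    _ = ∫⁻ τ : ℝ, ∫⁻ v : Fin k → ℝ, ∫⁻ z : ℂ, ‖ext (Fb a b ρ η) (e2 (z, v), τ)‖ₑ ^ q := by
        apply lintegral_congr
        intro τ
        exact lint_e2 (fun y1 => ‖ext (Fb a b ρ η) (y1, τ)‖ₑ ^ q)
          (hem.comp (f := fun y1 : Fin (k + 2) → ℝ => (y1, τ)) (by fun_prop))
    _ ≤ ∫⁻ τ : ℝ, (fun t => ∫⁻ v : Fin k → ℝ, ∫⁻ ζ : ℂ, T ζ v t) (c * τ) := by
        apply lintegral_mono
        intro τ
        simp only
        calc ∫⁻ v : Fin k → ℝ, ∫⁻ z : ℂ, ‖ext (Fb a b ρ η) (e2 (z, v), τ)‖ₑ ^ q ≤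
            ∫⁻ v : Fin k → ℝ, (fun v => ∫⁻ ζ : ℂ, T ζ v (c * τ)) (fun j => c * v j) := by
              apply lintegral_mono
              intro v
              simp only
              have e1 : ∀ z : ℂ, ‖ext (Fb a b ρ η) (e2 (z, v), τ)‖ₑ ^ q =
                  (fun u => T (u + (2 * (c * τ) : ℝ) * a) (fun j => c * v j) (c * τ))
                    ((c : ℂ) * z) := by
                intro z
                rw [ext_Fb a hb' h1 hρ hη]
              simp_rw [e1]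
              rw [lint_smulC (fun u => T (u + (2 * (c * τ) : ℝ) * a) (fun j => c * v j) (c * τ))
                ((hTζ _ _).comp (measurable_add_const _)) c hc0,
                lintegral_add_right_eq_self (fun u => T u (fun j => c * v j) (c * τ))]
              calc _ ≤ 1 * ∫⁻ u, T u (fun j => c * v j) (c * τ) := by
                    refine mul_le_mul' ?_ le_rfl
                    rw [ENNReal.ofReal_le_one]
                    apply inv_le_one_of_one_le₀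
                    rw [← sq_abs]
                    exact one_le_pow₀ hc1
                _ = _ := one_mul _
          _ ≤ _ := lint_smulE _ (hT2v _) c hc1
    _ = ENNReal.ofReal |c⁻¹| * ∫⁻ t : ℝ, ∫⁻ v : Fin k → ℝ, ∫⁻ ζ : ℂ, T ζ v t :=
        Pool.Agent.W771.lint_scale _ hT3 c hc0
    _ ≤ 1 * ∫⁻ t : ℝ, GQ (Sa a ρ) b (wf hd (cl η)) q t := by
        refine mul_le_mul' ?_ le_rfl
        rw [ENNReal.ofReal_le_one, abs_inv]
        exact inv_le_one_of_one_le₀ hc1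
    _ ≤ C := by
        rw [one_mul]
        exact h _ hS b hb' h1 _ (cl_meas hη) (cl_mem η)

/-- Jensen -/
lemma jens {Ω : Type*} [MeasurableSpace Ω] (P : Measure Ω) [IsProbabilityMeasure P] (g : Ω → ℂ)
    (hg : Measurable g) (q : ℝ) (hq : 1 < q) : ‖∫ ω, g ω ∂P‖ₑ ^ q ≤ ∫⁻ ω, ‖g ω‖ₑ ^ q ∂P := by
  have hq0 : 0 < q := by linarith
  have hpq : q.HolderConjugate (q / (q - 1)) := Real.HolderConjugate.conjExponent hq
  have h := ENNReal.lintegral_mul_le_Lp_mul_Lq P hpq hg.enorm.aemeasurable (g := fun _ => 1)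
    aemeasurable_const
  simp only [Pi.mul_apply, mul_one, ENNReal.one_rpow, lintegral_const, one_mul, measure_univ] at h
  calc ‖∫ ω, g ω ∂P‖ₑ ^ q ≤ (∫⁻ ω, ‖g ω‖ₑ ∂P) ^ q :=
        ENNReal.rpow_le_rpow (enorm_integral_le_lintegral_enorm _) hq0.le
    _ ≤ ((∫⁻ ω, ‖g ω‖ₑ ^ q ∂P) ^ (1 / q)) ^ q := ENNReal.rpow_le_rpow h hq0.le
    _ = _ := by
        rw [← ENNReal.rpow_mul, one_div, inv_mul_cancel₀ hq0.ne', ENNReal.rpow_one]

/-- superpositions -/
theorem superp {n : ℕ} (q : ℝ) (hq : 1 < q) (C : ℝ≥0∞) {Ω : Type*} [MeasurableSpace Ω]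
    (P : Measure Ω) [IsProbabilityMeasure P] (F : Ω → (Fin n → ℝ) → ℂ)
    (hF : Measurable (fun p : Ω × (Fin n → ℝ) => F p.1 p.2)) (hF1 : ∀ ω ξ, ‖F ω ξ‖ ≤ 1)
    (h : ∀ ω, ∫⁻ y : (Fin n → ℝ) × ℝ, ‖ext (F ω) y‖ₑ ^ q ≤ C) :
    ∫⁻ y : (Fin n → ℝ) × ℝ, ‖ext (fun ξ => ∫ ω, F ω ξ ∂P) y‖ₑ ^ q ≤ C := by
  have hM := ext_measP F hF
  have e1 : ∀ y, ext (fun ξ => ∫ ω, F ω ξ ∂P) y = ∫ ω, ext (F ω) y ∂P := by
    intro y
    have hint : Integrable (Function.uncurry fun (ξ : Fin n → ℝ) (ω : Ω) => F ω ξ * ker ξ y)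
        (((volume : Measure (Fin n → ℝ)).restrict (cube n)).prod P) := by
      refine Integrable.mono' (g := fun _ => (1 : ℝ)) (integrable_const _) ?_
        (ae_of_all _ fun p => ?_)
      · have h1 : Measurable (fun p : (Fin n → ℝ) × Ω => F p.2 p.1) :=
          hF.comp (f := fun p : (Fin n → ℝ) × Ω => (p.2, p.1)) (by fun_prop)
        have h2 : Measurable (fun p : (Fin n → ℝ) × Ω => ker p.1 y) :=
          ker_meas'.comp (f := fun p : (Fin n → ℝ) × Ω => (p.1, y)) (by fun_prop)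
        exact (h1.mul h2).aestronglyMeasurable
      · show ‖F p.2 p.1 * ker p.1 y‖ ≤ 1
        rw [norm_mul, ker_norm, mul_one]
        exact hF1 _ _
    have h3 := integral_integral_swap hint
    calc ext (fun ξ => ∫ ω, F ω ξ ∂P) y = ∫ ξ in cube n, ∫ ω, F ω ξ * ker ξ y ∂P := by
          unfold ext
          apply integral_congr_ae
          filter_upwards with ξ
          rw [integral_mul_const]
          rfl
      _ = ∫ ω, (∫ ξ in cube n, F ω ξ * ker ξ y) ∂P := h3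
      _ = _ := rfl
  calc ∫⁻ y : (Fin n → ℝ) × ℝ, ‖ext (fun ξ => ∫ ω, F ω ξ ∂P) y‖ₑ ^ q ≤
      ∫⁻ y : (Fin n → ℝ) × ℝ, ∫⁻ ω, ‖ext (F ω) y‖ₑ ^ q ∂P := by
        apply lintegral_mono
        intro y
        simp only
        rw [e1]
        exact jens P _ (hM.comp (f := fun ω : Ω => (ω, y)) (by fun_prop)) q hq
    _ = ∫⁻ ω, (∫⁻ y : (Fin n → ℝ) × ℝ, ‖ext (F ω) y‖ₑ ^ q) ∂P := by
        rw [lintegral_lintegral_swap]
        exact ((hM.comp (f := fun p : ((Fin n → ℝ) × ℝ) × Ω => (p.2, p.1))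
          (by fun_prop)).enorm.pow_const q).aemeasurable
    _ ≤ ∫⁻ _, C ∂P := lintegral_mono h
    _ = C := by rw [lintegral_const, measure_univ, mul_one]

end Pool.Agent.Q63.Mix
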