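import Mathlib
import Pool.Agent.Q63.Mix.Asm
set_option autoImplicit false

/-! The `L^4` bound for hard tensor products on dyadic time intervals. -/

namespace Pool.Agent.Q63.Mix

open MeasureTheory Set Complex Pool.Agent.Q63.Star
open scoped ENNReal NNReal ComplexConjugate

lemma four_rpow (x : ℝ≥0∞) : x ^ (4 : ℝ) = x ^ 4 := by
  rw [show (4 : ℝ) = ((4 : ℕ) : ℝ) by norm_num, ENNReal.rpow_natCast]

lemma two_rpow (x : ℝ≥0∞) : x ^ (2 : ℝ) = x ^ 2 := by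
  rw [show (2 : ℝ) = ((2 : ℕ) : ℝ) by norm_num, ENNReal.rpow_natCast]

/-- **The dyadic `L^4` estimate.** -/
theorem blk4 (k : ℕ) (ε : ℝ) (hε0 : 0 < ε) (hε1 : ε < 1) : ∃ K : ℝ, 0 < K ∧ ∀ R : ℝ, 1 ≤ R →
    ∀ S : Set ℂ, Star3 S →
    ∀ b : ℝ → ℂ, Measurable b → (∀ θ, ‖b θ‖ ≤ 1) → ∀ η : Fin k → ℝ → ℝ, (∀ j, Measurable (η j)) →
    (∀ j θ, η j θ ∈ Icc (-1 : ℝ) 1) →
    ∫⁻ w, ‖TX S b (wf hd η) w‖ₑ ^ (4 : ℝ) ∂nu k (Icc R (2 * R)) ≤
      ENNReal.ofReal (K * R ^ (-1 - (k : ℝ) + ε)) := by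
  have hk0 : (0 : ℝ) ≤ k := Nat.cast_nonneg k
  set θ : ℝ := ε / (8 * (k + 4) * (k + 1)) with hθ
  have hθ0 : 0 < θ := by positivity
  have hθk : 4 * ((k + 4) * θ) * k ≤ ε / 2 := by
    rw [hθ]
    have : (k : ℝ) / (k + 1) ≤ 1 := by
      rw [div_le_one (by positivity)]
      linarith
    calc 4 * (((k : ℝ) + 4) * (ε / (8 * (k + 4) * (k + 1)))) * k = ε / 2 * (k / (k + 1)) := by
          field_simp
          ring
      _ ≤ ε / 2 * 1 := by gcongr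
      _ = ε / 2 := mul_one _
  have hθ1 : θ < 1 := by
    rw [hθ, div_lt_one (by positivity)]
    nlinarith
  obtain ⟨C, hC, h4⟩ := coef4' (ε / 2) (by positivity) (by linarith)
  obtain ⟨Cθ, hCθ, hramp⟩ := ramp_rep θ hθ0 hθ1
  have hV := V3_pos
  have hc2 := c2_pos k
  have hpi := Real.pi_pos
  set K1 : ℝ := (Cθ ^ 4 * (64 * Real.pi ^ 2)) ^ k * C with hK1
  set K2 : ℝ := (k * (2 ^ k * V3)) ^ ((4 : ℝ) - 2) * (k * (k * c2 k)) with hK2
  have hK10 : 0 < K1 := by positivity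
  have hK20 : 0 ≤ K2 := by positivity
  refine ⟨2 ^ ((4 : ℝ) - 1) * (K1 + K2), by positivity, ?_⟩
  intro R hR S hS b hb' h1 η hη hη1
  have hR0 : 0 < R := by linarith
  set δ : ℝ := R ^ (-((k : ℝ) + 4)) with hδ
  have hδ0 : 0 < δ := Real.rpow_pos_of_pos hR0 _
  have hδ1 : δ ≤ 1 := Real.rpow_le_one_of_one_le_of_nonpos hR (by linarith)
  obtain ⟨a, ha, hA, hrep⟩ := hramp δ hδ0 hδ1
  have hpW : Prf (wf (Wd δ) η) := wf_prf (Wd_meas δ) (Wd_le δ) hη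
  have hWm := (TX_meas hS.meas hb' hpW).enorm
  have hvol : volume (Icc R (2 * R)) = ENNReal.ofReal R := by
    rw [Real.volume_Icc]
    congr 1
    ring
  have hsoft : ∫⁻ w, ‖TX S b (wf (Wd δ) η) w‖ₑ ^ (4 : ℝ) ∂nu k (Icc R (2 * R)) ≤
      ENNReal.ofReal (K1 * R ^ (-1 - (k : ℝ) + ε)) := by
    simp_rw [four_rpow]
    rw [nu_lint k _ _ (hWm.pow_const 4)]
    have h5 := M4 (C * R ^ (-1 + ε / 2)) (by positivity) R hR0
      (fun S hS b hb h1 => h4 R hR0 S hS b hb h1)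
      a ha (Cθ * δ ^ (-θ)) hA (Wd δ) (Wd_meas δ) (Wd_le δ) (by
        intro x hx
        exact hrep x hx) k S hS b hb' h1 η hη hη1
    refine h5.trans (ENNReal.ofReal_le_ofReal ?_)
    have e1 : δ ^ (-θ) = R ^ ((k + 4) * θ) := by
      rw [hδ, ← Real.rpow_mul hR0.le]
      congr 1
      ring
    have e2 : (Cθ * δ ^ (-θ)) ^ 4 * (64 * Real.pi ^ 2 / R) =
        Cθ ^ 4 * (64 * Real.pi ^ 2) * R ^ (4 * ((k + 4) * θ) - 1) := by
      rw [e1, mul_pow, ← Real.rpow_natCast (R ^ ((k + 4) * θ)), ← Real.rpow_mul hR0.le,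
        Real.rpow_sub_one hR0.ne']
      have : ((k : ℝ) + 4) * θ * ((4 : ℕ) : ℝ) = 4 * ((k + 4) * θ) := by push_cast; ring
      rw [this]
      ring
    have e3 : ((Cθ * δ ^ (-θ)) ^ 4 * (64 * Real.pi ^ 2 / R)) ^ k * (C * R ^ (-1 + ε / 2)) =
        K1 * R ^ ((4 * ((k + 4) * θ) - 1) * k + (-1 + ε / 2)) := by
      rw [e2, mul_pow, ← Real.rpow_natCast (R ^ (4 * ((k + 4) * θ) - 1)),
        ← Real.rpow_mul hR0.le, Real.rpow_add hR0 ((4 * ((k + 4) * θ) - 1) * k) (-1 + ε / 2)]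
      rw [hK1]
      ring
    rw [e3]
    refine mul_le_mul_of_nonneg_left (Real.rpow_le_rpow_of_exponent_le hR ?_) hK10.le
    have e4 : (4 * (((k : ℝ) + 4) * θ) - 1) * k + (-1 + ε / 2) =
        -1 - k + ε / 2 + 4 * ((k + 4) * θ) * k := by ring
    rw [e4]
    linarith
  have herr : ∫⁻ w, (∑ i, ‖TX S b (ef δ η i) w‖ₑ) ^ (4 : ℝ) ∂nu k (Icc R (2 * R)) ≤
      ENNReal.ofReal (K2 * R ^ (-1 - (k : ℝ) + ε)) := by
    refine (Xerr hS hb' h1 δ hδ0 hη (Icc R (2 * R)) 4 (by norm_num)).trans ?_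
    rw [hvol, ← ENNReal.ofReal_mul (by positivity)]
    apply ENNReal.ofReal_le_ofReal
    have e1 : δ * R = R ^ (-((k : ℝ) + 3)) := by
      rw [hδ]
      nth_rewrite 2 [← Real.rpow_one R]
      rw [← Real.rpow_add hR0]
      congr 1
      ring
    calc _ = K2 * (δ * R) := by rw [hK2]; ring
      _ = K2 * R ^ (-((k : ℝ) + 3)) := by rw [e1]
      _ ≤ K2 * R ^ (-1 - (k : ℝ) + ε) := by
          refine mul_le_mul_of_nonneg_left (Real.rpow_le_rpow_of_exponent_le hR ?_) hK20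
          linarith
  have hpt : ∀ w, ‖TX S b (wf hd η) w‖ₑ ^ (4 : ℝ) ≤ ENNReal.ofReal (2 ^ ((4 : ℝ) - 1)) *
      (‖TX S b (wf (Wd δ) η) w‖ₑ ^ (4 : ℝ) + (∑ i, ‖TX S b (ef δ η i) w‖ₑ) ^ (4 : ℝ)) := by
    intro w
    have h6 : ‖TX S b (wf hd η) w‖ₑ ≤ ‖TX S b (wf (Wd δ) η) w‖ₑ +
        ∑ i, ‖TX S b (ef δ η i) w‖ₑ := by
      unfold TX
      rw [TT_tele hS hb' h1 δ hη]
      exact (enorm_add_le _ _).trans (add_le_add le_rfl (enorm_sum_le _ _))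
    refine (ENNReal.rpow_le_rpow h6 (by norm_num)).trans ?_
    refine (ENNReal.rpow_add_le_mul_rpow_add_rpow _ _ (by norm_num)).trans (le_of_eq ?_)
    congr 1
    rw [← ENNReal.ofReal_rpow_of_pos (by norm_num)]
    norm_num
  calc _ ≤ ∫⁻ w, ENNReal.ofReal (2 ^ ((4 : ℝ) - 1)) * (‖TX S b (wf (Wd δ) η) w‖ₑ ^ (4 : ℝ) +
        (∑ i, ‖TX S b (ef δ η i) w‖ₑ) ^ (4 : ℝ)) ∂nu k (Icc R (2 * R)) := lintegral_mono hpt
    _ = ENNReal.ofReal (2 ^ ((4 : ℝ) - 1)) * ((∫⁻ w, ‖TX S b (wf (Wd δ) η) w‖ₑ ^ (4 : ℝ)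
        ∂nu k (Icc R (2 * R))) + ∫⁻ w, (∑ i, ‖TX S b (ef δ η i) w‖ₑ) ^ (4 : ℝ)
        ∂nu k (Icc R (2 * R))) := by
        rw [lintegral_const_mul' _ _ ENNReal.ofReal_ne_top, lintegral_add_left (hWm.pow_const _)]
    _ ≤ ENNReal.ofReal (2 ^ ((4 : ℝ) - 1)) * (ENNReal.ofReal (K1 * R ^ (-1 - (k : ℝ) + ε)) +
        ENNReal.ofReal (K2 * R ^ (-1 - (k : ℝ) + ε))) :=
        mul_le_mul' le_rfl (add_le_add hsoft herr)
    _ = _ := by
        rw [← ENNReal.ofReal_add (by positivity) (by positivity),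
          ← ENNReal.ofReal_mul (by positivity)]
        congr 1
        ring

/-- the time slab -/
def Tm (R : ℝ) : Set ℝ := {t | R ≤ |t| ∧ |t| ≤ 2 * R}

lemma Tm_meas (R : ℝ) : MeasurableSet (Tm R) :=
  (measurableSet_le measurable_const measurable_norm).inter
    (measurableSet_le measurable_norm measurable_const)

lemma Tm_sub (R : ℝ) : Tm R ⊆ Icc R (2 * R) ∪ Icc (-(2 * R)) (-R) := by
  rintro t ⟨h1, h2⟩
  rcases le_total 0 t with h | h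
  · rw [abs_of_nonneg h] at h1 h2
    exact Or.inl ⟨h1, h2⟩
  · rw [abs_of_nonpos h] at h1 h2
    exact Or.inr ⟨by linarith, by linarith⟩

lemma Tm_vol (R : ℝ) (hR : 0 ≤ R) : volume (Tm R) ≤ ENNReal.ofReal (2 * R) := by
  refine (measure_mono (Tm_sub R)).trans ((measure_union_le _ _).trans (le_of_eq ?_))
  rw [Real.volume_Icc, Real.volume_Icc, ← ENNReal.ofReal_add (by linarith) (by linarith)]
  congr 1
  ring

lemma Tm_split (R : ℝ) (G : ℝ → ℝ≥0∞) : ∫⁻ t in Tm R, G t ≤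
    (∫⁻ t in Icc R (2 * R), G t) + ∫⁻ t in Icc R (2 * R), G (-t) := by
  refine (lintegral_mono_set (Tm_sub R)).trans ((lintegral_union_le _ _ _).trans ?_)
  refine add_le_add le_rfl ?_
  have h3 := (Measure.measurePreserving_neg (volume : Measure ℝ)).setLIntegral_comp_preimage_emb
    (MeasurableEquiv.neg ℝ).measurableEmbedding G (Icc (-(2 * R)) (-R))
  have h4 : (Neg.neg ⁻¹' (Icc (-(2 * R)) (-R)) : Set ℝ) = Icc R (2 * R) := by
    ext x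
    simp only [mem_preimage, mem_Icc]
    constructor
    · rintro ⟨h1, h2⟩
      exact ⟨by linarith, by linarith⟩
    · rintro ⟨h1, h2⟩
      exact ⟨by linarith, by linarith⟩
  rw [h4] at h3
  exact h3.symm.le

/-- both signs of time -/
theorem blk4' (k : ℕ) (ε : ℝ) (hε0 : 0 < ε) (hε1 : ε < 1) : ∃ K : ℝ, 0 < K ∧ ∀ R : ℝ, 1 ≤ R →
    ∀ S : Set ℂ, Star3 S →
    ∀ b : ℝ → ℂ, Measurable b → (∀ θ, ‖b θ‖ ≤ 1) → ∀ η : Fin k → ℝ → ℝ, (∀ j, Measurable (η j)) →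
    (∀ j θ, η j θ ∈ Icc (-1 : ℝ) 1) →
    ∫⁻ t in Tm R, GQ S b (wf hd η) 4 t ≤ ENNReal.ofReal (K * R ^ (-1 - (k : ℝ) + ε)) := by
  obtain ⟨K, hK, h⟩ := blk4 k ε hε0 hε1
  refine ⟨2 * K, by positivity, ?_⟩
  intro R hR S hS b hb' h1 η hη hη1
  have hR0 : 0 < R := by linarith
  have hp : Prf (wf hd η) := wf_prf hd_meas hd_le hη
  have hbc : Measurable (fun θ => conj (b θ)) := Complex.continuous_conj.measurable.comp hb'
  have hbc1 : ∀ θ, ‖conj (b θ)‖ ≤ 1 := fun θ => by rw [RCLike.norm_conj]; exact h1 θ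
  refine (Tm_split R _).trans ?_
  simp_rw [GQ_neg hS.meas hb' hη]
  have h2 := h R hR S hS b hb' h1 η hη hη1
  have h3 := h R hR S hS (fun θ => conj (b θ)) hbc hbc1 η hη hη1
  rw [GQ_nu hS.meas hb' hp] at h2
  rw [GQ_nu hS.meas hbc hp] at h3
  refine (add_le_add h2 h3).trans (le_of_eq ?_)
  rw [← ENNReal.ofReal_add (by positivity) (by positivity)]
  congr 1
  ring

end Pool.Agent.Q63.Mix
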