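import Mathlib
import Pool.Agent.Q63.Mix.Blk
set_option autoImplicit false

/-! Good classes of functions on the cube: the one-dimensional class and the planar classes. -/

namespace Pool.Agent.Q63.Mix

open MeasureTheory Set Complex Pool.Agent.Q63.Star
open Pool.Agent.H147R3.PE (SS c4 Iβ c4_ne Iβ_ne SS_meas)
open scoped ENNReal NNReal ComplexConjugate

/-- fixed time norm -/
noncomputable def NQ {n : ℕ} (F : (Fin n → ℝ) → ℂ) (q t : ℝ) : ℝ≥0∞ :=
  ∫⁻ y : Fin n → ℝ, ‖ext F (y, t)‖ₑ ^ q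

lemma NQ_meas {n : ℕ} {F : (Fin n → ℝ) → ℂ} (hF : Measurable F) (q : ℝ) : Measurable (NQ F q) := by
  have h : Measurable (fun p : ℝ × (Fin n → ℝ) => ‖ext F (p.2, p.1)‖ₑ ^ q) :=
    ((ext_meas1 F hF).comp measurable_swap).enorm.pow_const q
  exact h.lintegral_prod_right'

/-- good classes -/
structure Gd (n : ℕ) (𝒢 : ((Fin n → ℝ) → ℂ) → Prop) : Prop where
  meas : ∀ F, 𝒢 F → Measurable F
  le : ∀ F, 𝒢 F → ∀ ξ, ‖F ξ‖ ≤ 1
  two : ∃ M : ℝ, 0 < M ∧ ∀ F, 𝒢 F → ∀ t, NQ F 2 t ≤ ENNReal.ofReal M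
  four : ∀ ε : ℝ, 0 < ε → ε < 1 → ∃ K : ℝ, 0 < K ∧ ∀ R : ℝ, 1 ≤ R → ∀ F, 𝒢 F →
    ∫⁻ t in SS R, NQ F 4 t ≤ ENNReal.ofReal (K * R ^ (1 - (n : ℝ) + ε))

lemma ext_line (F : (Fin 1 → ℝ) → ℂ) (y : (Fin 1 → ℝ) × ℝ) :
    ext F y = Pool.Agent.H728R3.SR.e1 (fun s => F (fun _ => s)) (y.1 0) y.2 := by
  have h := Pool.Agent.H728R3.SR.ext_prod (n := 1) (fun _ s => F (fun _ => s)) y
  rw [Fin.prod_univ_one] at h
  rw [← h]
  unfold ext Pool.Agent.H728R3.SR.ext
  apply integral_congr_ae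
  filter_upwards with ξ
  rw [Fin.prod_univ_one]
  congr 2
  funext j
  rw [Subsingleton.elim j 0]

lemma NQ_line (F : (Fin 1 → ℝ) → ℂ) (hF : Measurable F) (q t : ℝ) :
    NQ F q t = ∫⁻ x, ‖Pool.Agent.H728R3.SR.e1 (fun s => F (fun _ => s)) x t‖ₑ ^ q := by
  unfold NQ
  simp_rw [ext_line]
  have hm : Measurable (fun s : ℝ => F (fun _ => s)) := hF.comp (by fun_prop)
  have h := Pool.Agent.H728R3.SR.lint_prod 1
    (fun _ x => ‖Pool.Agent.H728R3.SR.e1 (fun s => F (fun _ => s)) x t‖ₑ ^ q) (by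
      intro j
      exact ((Pool.Agent.H728R3.SR.e1_meas hm).comp (f := fun x : ℝ => (x, t))
        (by fun_prop)).enorm.pow_const q)
  rw [Fin.prod_univ_one] at h
  rw [← h]
  apply lintegral_congr
  intro y
  rw [Fin.prod_univ_one]

/-- the one-dimensional class: arbitrary functions -/
theorem good_line : Gd 1 (fun F => Measurable F ∧ ∀ ξ, ‖F ξ‖ ≤ 1) where
  meas := fun F h => h.1
  le := fun F h => h.2
  two := by
    refine ⟨2, by norm_num, ?_⟩
    rintro F ⟨hF, h1⟩ t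
    have hm : Measurable (fun s : ℝ => F (fun _ => s)) := hF.comp (by fun_prop)
    rw [NQ_line F hF]
    simp_rw [two_rpow]
    refine (Pool.Agent.H728R3.SR.e1_two_le hm (fun y => h1 _) t).trans (le_of_eq ?_)
    norm_num
  four := by
    intro ε hε hε1
    have hne : c4 * Iβ (1 - ε) * 8 ≠ ∞ :=
      ENNReal.mul_ne_top (ENNReal.mul_ne_top c4_ne (Iβ_ne _ (by linarith))) (by norm_num)
    refine ⟨(c4 * Iβ (1 - ε) * 8).toReal + 1, by positivity, ?_⟩
    rintro R hR F ⟨hF, h1⟩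
    have hR0 : 0 < R := by linarith
    have hm : Measurable (fun s : ℝ => F (fun _ => s)) := hF.comp (by fun_prop)
    simp_rw [NQ_line F hF, four_rpow]
    refine (Pool.Agent.H728R3.SR.plan4 hm (fun y => h1 _) hR0 (β := 1 - ε) (by linarith)
      (by linarith)).trans ?_
    have e1 : 1 - (1 - ε) = ε := by ring
    have e2 : (1 : ℝ) - ((1 : ℕ) : ℝ) + ε = ε := by push_cast; ring
    rw [e1, e2]
    calc c4 * Iβ (1 - ε) * ENNReal.ofReal (4 * R ^ ε) * 2 =
        (c4 * Iβ (1 - ε) * 8) * ENNReal.ofReal (R ^ ε) := by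
          rw [ENNReal.ofReal_mul (by norm_num), ENNReal.ofReal_ofNat,
            show (8 : ℝ≥0∞) = 4 * 2 by norm_num]
          ring
      _ ≤ ENNReal.ofReal ((c4 * Iβ (1 - ε) * 8).toReal + 1) * ENNReal.ofReal (R ^ ε) := by
          refine mul_le_mul' ?_ le_rfl
          rw [← ENNReal.ofReal_toReal hne]
          apply ENNReal.ofReal_le_ofReal
          rw [ENNReal.toReal_ofReal ENNReal.toReal_nonneg]
          linarith
      _ = _ := (ENNReal.ofReal_mul (by positivity)).symm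

/-- the planar classes -/
def Pln (k : ℕ) (F : (Fin (k + 2) → ℝ) → ℂ) : Prop :=
  ∃ (a : ℂ) (b : ℝ → ℂ) (ρ : ℝ → ℝ) (η : Fin k → ℝ → ℝ), a ∈ Sq ∧ Measurable b ∧
    (∀ θ, ‖b θ‖ ≤ 1) ∧ Measurable ρ ∧ (∀ j, Measurable (η j)) ∧ F = Fb a b ρ η

/-- identification at fixed time -/
lemma NQ_pln {k : ℕ} {a : ℂ} (ha : a ∈ Sq) {b : ℝ → ℂ} (hb' : Measurable b)
    (h1 : ∀ θ, ‖b θ‖ ≤ 1) {ρ : ℝ → ℝ} (hρ : Measurable ρ) {η : Fin k → ℝ → ℝ}
    (hη : ∀ j, Measurable (η j)) (q τ : ℝ) :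
    NQ (Fb a b ρ η) q τ ≤ GQ (Sa a ρ) b (wf hd (cl η)) q (-(2 * Real.pi) * τ) := by
  have hpi := Real.pi_gt_three
  set c : ℝ := -(2 * Real.pi) with hc
  have hc0 : c ≠ 0 := by rw [hc]; linarith
  have hc1 : 1 ≤ |c| := by
    rw [hc, abs_neg, abs_of_pos (by linarith)]
    linarith
  have hp : Prf (wf hd (cl η)) := wf_prf hd_meas hd_le (cl_meas hη)
  have hS := Sa_star a ha ρ hρ
  have hem : Measurable (fun y : (Fin (k + 2) → ℝ) × ℝ => ‖ext (Fb a b ρ η) y‖ₑ ^ q) :=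
    (ext_meas1 _ (Fb_meas a hb' hρ hη)).enorm.pow_const q
  set T : ℂ → (Fin k → ℝ) → ℝ → ℝ≥0∞ := fun ζ v t =>
    ‖TT (Sa a ρ) b (wf hd (cl η)) ζ v t‖ₑ ^ q with hT
  have hTm : Measurable (fun w : (ℝ × (Fin k → ℝ)) × ℂ => T w.2 w.1.2 w.1.1) :=
    (TT_meas hS.meas hb' hp).enorm.pow_const q
  have hTζ : ∀ t v, Measurable (fun ζ => T ζ v t) := fun t v =>
    hTm.comp (f := fun ζ : ℂ => (((t, v), ζ) : (ℝ × (Fin k → ℝ)) × ℂ)) (by fun_prop)
  have hT2 : Measurable (fun w : ℝ × (Fin k → ℝ) => ∫⁻ ζ, T ζ w.2 w.1) :=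
    hTm.lintegral_prod_right' (ν := (volume : Measure ℂ))
  have hT2v : ∀ t, Measurable (fun v => ∫⁻ ζ, T ζ v t) := fun t =>
    hT2.comp (f := fun v : Fin k → ℝ => (t, v)) (by fun_prop)
  unfold NQ
  rw [lint_e2 (fun y1 => ‖ext (Fb a b ρ η) (y1, τ)‖ₑ ^ q)
    (hem.comp (f := fun y1 : Fin (k + 2) → ℝ => (y1, τ)) (by fun_prop))]
  calc ∫⁻ v : Fin k → ℝ, ∫⁻ z : ℂ, ‖ext (Fb a b ρ η) (e2 (z, v), τ)‖ₑ ^ q ≤
      ∫⁻ v : Fin k → ℝ, (fun v => ∫⁻ ζ : ℂ, T ζ v (c * τ)) (fun j => c * v j) := by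
        apply lintegral_mono
        intro v
        simp only
        have e1 : ∀ z : ℂ, ‖ext (Fb a b ρ η) (e2 (z, v), τ)‖ₑ ^ q =
            (fun u => T (u + (2 * (c * τ) : ℝ) * a) (fun j => c * v j) (c * τ))
              ((c : ℂ) * z) := by
          intro z
          rw [ext_Fb a hb' h1 hρ hη]
        simp_rw [e1]
        rw [lint_smulC (fun u => T (u + (2 * (c * τ) : ℝ) * a) (fun j => c * v j) (c * τ))
          ((hTζ _ _).comp (measurable_add_const _)) c hc0,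
          lintegral_add_right_eq_self (fun u => T u (fun j => c * v j) (c * τ))]
        calc _ ≤ 1 * ∫⁻ u, T u (fun j => c * v j) (c * τ) := by
              refine mul_le_mul' ?_ le_rfl
              rw [ENNReal.ofReal_le_one]
              apply inv_le_one_of_one_le₀
              rw [← sq_abs]
              exact one_le_pow₀ hc1
          _ = _ := one_mul _
    _ ≤ _ := lint_smulE _ (hT2v _) c hc1

lemma GQ_meas {k : ℕ} {S : Set ℂ} (hS : MeasurableSet S) {b : ℝ → ℂ} (hb' : Measurable b)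
    {g : Fin k → ℝ → ℝ → ℂ} (hg : Prf g) (q : ℝ) : Measurable (GQ S b g q) := by
  have h := (((TT_meas hS hb' hg).enorm.pow_const q).lintegral_prod_right'
    (ν := (volume : Measure ℂ))).lintegral_prod_right' (ν := (volume : Measure (Fin k → ℝ)))
  exact h

theorem good_pln (k : ℕ) : Gd (k + 2) (Pln k) where
  meas := by
    rintro F ⟨a, b, ρ, η, ha, hb', h1, hρ, hη, rfl⟩
    exact Fb_meas a hb' hρ hη
  le := by
    rintro F ⟨a, b, ρ, η, ha, hb', h1, hρ, hη, rfl⟩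
    exact Fb_le a h1 ρ η
  two := by
    refine ⟨c2 k, c2_pos k, ?_⟩
    rintro F ⟨a, b, ρ, η, ha, hb', h1, hρ, hη, rfl⟩ t
    refine (NQ_pln ha hb' h1 hρ hη 2 t).trans ?_
    unfold GQ
    simp_rw [two_rpow]
    exact L2_gen (Sa_star a ha ρ hρ) hb' h1 (wf_prf hd_meas hd_le (cl_meas hη)) _
  four := by
    intro ε hε hε1
    obtain ⟨K, hK, h⟩ := blk4' k ε hε hε1
    have hk0 : (0 : ℝ) ≤ k := Nat.cast_nonneg k
    refine ⟨K, hK, ?_⟩
    rintro R hR F ⟨a, b, ρ, η, ha, hb', h1, hρ, hη, rfl⟩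
    have hpi := Real.pi_gt_three
    have hR0 : 0 < R := by linarith
    have hS := Sa_star a ha ρ hρ
    have hp : Prf (wf hd (cl η)) := wf_prf hd_meas hd_le (cl_meas hη)
    set c : ℝ := -(2 * Real.pi) with hc
    have hc0 : c ≠ 0 := by rw [hc]; linarith
    have hc1 : 1 ≤ |c| := by
      rw [hc, abs_neg, abs_of_pos (by linarith)]
      linarith
    have hcR : 1 ≤ |c| * R := by nlinarith
    set G : ℝ → ℝ≥0∞ := GQ (Sa a ρ) b (wf hd (cl η)) 4 with hG
    have hGm : Measurable G := GQ_meas hS.meas hb' hp 4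
    calc ∫⁻ t in SS R, NQ (Fb a b ρ η) 4 t ≤ ∫⁻ t in SS R, G (c * t) :=
          lintegral_mono fun t => NQ_pln ha hb' h1 hρ hη 4 t
      _ ≤ ∫⁻ t : ℝ, ((Tm (|c| * R)).indicator G) (c * t) := by
          rw [← lintegral_indicator (SS_meas R)]
          apply lintegral_mono
          intro t
          simp only
          by_cases ht : t ∈ SS R
          · rw [indicator_of_mem ht, indicator_of_mem]
            obtain ⟨h2, h3⟩ := ht
            constructor
            · rw [abs_mul]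
              gcongr
            · rw [abs_mul]
              nlinarith
          · rw [indicator_of_notMem ht]
            exact zero_le
      _ = ENNReal.ofReal |c⁻¹| * ∫⁻ t : ℝ, (Tm (|c| * R)).indicator G t :=
          Pool.Agent.W771.lint_scale _ (hGm.indicator (Tm_meas _)) c hc0
      _ ≤ 1 * ∫⁻ t in Tm (|c| * R), G t := by
          rw [lintegral_indicator (Tm_meas _)]
          refine mul_le_mul' ?_ le_rfl
          rw [ENNReal.ofReal_le_one, abs_inv]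
          exact inv_le_one_of_one_le₀ hc1
      _ ≤ ENNReal.ofReal (K * (|c| * R) ^ (-1 - (k : ℝ) + ε)) := by
          rw [one_mul]
          exact h _ hcR _ hS b hb' h1 _ (cl_meas hη) (cl_mem η)
      _ ≤ _ := by
          apply ENNReal.ofReal_le_ofReal
          refine mul_le_mul_of_nonneg_left ?_ hK.le
          have e1 : (1 : ℝ) - ((k + 2 : ℕ) : ℝ) + ε = -1 - k + ε := by push_cast; ring
          rw [e1]
          exact Real.rpow_le_rpow_of_nonpos hR0 (by nlinarith) (by linarith)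

end Pool.Agent.Q63.Mix
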