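import Mathlib
import Pool.Agent.Q63.Mix.Blk2
set_option autoImplicit false

/-! Factorization of the extension operator over blocks of coordinates. -/

namespace Pool.Agent.Q63.Mix

open MeasureTheory Set Complex Pool.Agent.Q63.Star
open scoped ENNReal NNReal ComplexConjugate

set_option backward.isDefEq.respectTransparency false in
/-- Tonelli for products -/
theorem lint_prodN {N : ℕ} {E : Fin N → Type*} {mE : ∀ i, MeasurableSpace (E i)}
    {μ : (i : Fin N) → Measure (E i)} [∀ i, SigmaFinite (μ i)] (f : (i : Fin N) → E i → ℝ≥0∞)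
    (hf : ∀ i, Measurable (f i)) :
    ∫⁻ x : (i : Fin N) → E i, ∏ i, f i (x i) ∂(Measure.pi μ) = ∏ i, ∫⁻ x, f i x ∂(μ i) := by
  induction N with
  | zero => simp
  | succ n n_ih =>
      calc
        _ = ∫⁻ x : E 0 × ((i : Fin n) → E (Fin.succ i)),
            f 0 x.1 * ∏ i : Fin n, f (Fin.succ i) (x.2 i)
            ∂((μ 0).prod (Measure.pi (fun i ↦ μ i.succ))) := by
          rw [← ((measurePreserving_piFinSuccAbove μ 0).symm).lintegral_comp_emb
            (MeasurableEquiv.measurableEmbedding _)]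
          simp_rw [MeasurableEquiv.piFinSuccAbove_symm_apply, Fin.insertNthEquiv,
            Fin.prod_univ_succ, Fin.insertNth_zero, Equiv.coe_fn_mk, Fin.cons_succ,
            Fin.zero_succAbove, cast_eq, Fin.cons_zero]
        _ = (∫⁻ x, f 0 x ∂μ 0)
            * ∏ i : Fin n, ∫⁻ (x : E (Fin.succ i)), f (Fin.succ i) x ∂(μ i.succ) := by
          rw [← n_ih (fun i => f i.succ) (fun i => hf i.succ)]
          exact lintegral_prod_mul (hf 0).aemeasurable
            (Finset.measurable_prod _ fun (j : Fin n) _ => (hf j.succ).comp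
              (measurable_pi_apply j)).aemeasurable
        _ = ∏ i, ∫⁻ x, f i x ∂(μ i) := by rw [Fin.prod_univ_succ]

variable {N n : ℕ} {m : Fin N → ℕ}

/-- assembling the blocks -/
def asm (e : (Σ i, Fin (m i)) ≃ Fin n) (u : ∀ i, Fin (m i) → ℝ) : Fin n → ℝ :=
  fun l => u (e.symm l).1 (e.symm l).2

/-- the coordinates in the block `i` -/
def prj (e : (Σ i, Fin (m i)) ≃ Fin n) (i : Fin N) (ξ : Fin n → ℝ) : Fin (m i) → ℝ :=
  fun j => ξ (e ⟨i, j⟩)

lemma prj_asm (e : (Σ i, Fin (m i)) ≃ Fin n) (i : Fin N) (u : ∀ i, Fin (m i) → ℝ) :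
    prj e i (asm e u) = u i := by
  funext j
  unfold prj asm
  rw [Equiv.symm_apply_apply]

lemma asm_meas (e : (Σ i, Fin (m i)) ≃ Fin n) : Measurable (asm e) :=
  measurable_pi_iff.2 fun _ => (measurable_pi_apply _).comp (measurable_pi_apply _)

lemma prj_meas (e : (Σ i, Fin (m i)) ≃ Fin n) (i : Fin N) : Measurable (prj e i) :=
  measurable_pi_iff.2 fun _ => measurable_pi_apply _

lemma asm_mp (e : (Σ i, Fin (m i)) ≃ Fin n) : MeasurePreserving (asm e)
    (Measure.pi fun i => (volume : Measure (Fin (m i) → ℝ))) volume where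
  measurable := asm_meas e
  map_eq := by
    rw [volume_pi]
    refine (Measure.pi_eq fun s hs => ?_).symm
    rw [Measure.map_apply (asm_meas e) (MeasurableSet.univ_pi hs)]
    have h1 : asm e ⁻¹' (univ.pi s) = univ.pi (fun i => univ.pi (fun j => s (e ⟨i, j⟩))) := by
      ext u
      simp only [mem_preimage, mem_univ_pi]
      constructor
      · intro h i j
        have := h (e ⟨i, j⟩)
        unfold asm at this
        rwa [Equiv.symm_apply_apply] at this
      · intro h l
        have := h (e.symm l).1 (e.symm l).2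
        unfold asm
        rwa [Sigma.eta, Equiv.apply_symm_apply] at this
    rw [h1, Measure.pi_pi]
    have h2 : ∀ i : Fin N, volume (univ.pi (fun j : Fin (m i) => s (e ⟨i, j⟩))) =
        ∏ j : Fin (m i), volume (s (e ⟨i, j⟩)) := fun i => volume_pi_pi _
    simp_rw [h2]
    rw [← Fintype.prod_sigma (fun p : (Σ i, Fin (m i)) => volume (s (e p)))]
    exact e.prod_comp (fun l => volume (s l))

lemma asm_cube (e : (Σ i, Fin (m i)) ≃ Fin n) (u : ∀ i, Fin (m i) → ℝ) :
    asm e u ∈ cube n ↔ ∀ i, u i ∈ cube (m i) := by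
  have hc : ∀ (d : ℕ) (w : Fin d → ℝ), w ∈ cube d ↔ ∀ j, w j ∈ Icc (-1 : ℝ) 1 := by
    intro d w
    simp only [mem_Icc, Pi.le_def]
    exact ⟨fun h i => ⟨h.1 i, h.2 i⟩, fun h => ⟨fun i => (h i).1, fun i => (h i).2⟩⟩
  rw [hc]
  constructor
  · intro h i
    rw [hc]
    intro j
    have := h (e ⟨i, j⟩)
    unfold asm at this
    rwa [Equiv.symm_apply_apply] at this
  · intro h l
    exact (hc _ _).1 (h (e.symm l).1) (e.symm l).2

lemma sum_blocks (e : (Σ i, Fin (m i)) ≃ Fin n) (g : Fin n → ℝ) :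
    ∑ l, g l = ∑ i, ∑ j, g (e ⟨i, j⟩) := by
  rw [← e.sum_comp, Fintype.sum_sigma]

lemma ker_blocks (e : (Σ i, Fin (m i)) ≃ Fin n) (u : ∀ i, Fin (m i) → ℝ) (y : Fin n → ℝ)
    (t : ℝ) : ker (asm e u) (y, t) = ∏ i, ker (u i) (prj e i y, t) := by
  unfold ker
  rw [← Complex.exp_sum]
  congr 1
  simp only
  rw [sum_blocks e (fun l => asm e u l * y l), sum_blocks e (fun l => asm e u l ^ 2)]
  have h1 : ∀ i j, asm e u (e ⟨i, j⟩) = u i j := fun i j => congrFun (prj_asm e i u) j
  simp_rw [h1]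
  rw [Finset.sum_mul, ← Finset.sum_add_distrib, Complex.ofReal_sum, Finset.mul_sum]
  rfl

/-- **Factorization.** -/
theorem ext_blocks (e : (Σ i, Fin (m i)) ≃ Fin n) (F : ∀ i, (Fin (m i) → ℝ) → ℂ)
    (hF : ∀ i, Measurable (F i)) (y : Fin n → ℝ) (t : ℝ) :
    ext (fun ξ => ∏ i, F i (prj e i ξ)) (y, t) = ∏ i, ext (F i) (prj e i y, t) := by
  set G : (Fin n → ℝ) → ℂ := fun ξ => (∏ i, F i (prj e i ξ)) * ker ξ (y, t) with hG
  have hGm : Measurable G := by
    refine (Finset.measurable_prod _ fun i _ => (hF i).comp (prj_meas e i)).mul ?_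
    exact ker_meas'.comp (f := fun ξ : Fin n → ℝ => (ξ, (y, t))) (by fun_prop)
  have hIm : Measurable ((cube n).indicator G) := hGm.indicator measurableSet_Icc
  have e0 : ext (fun ξ => ∏ i, F i (prj e i ξ)) (y, t) = ∫ ξ, (cube n).indicator G ξ := by
    rw [integral_indicator measurableSet_Icc]
    rfl
  have e1 : ∀ u : ∀ i, Fin (m i) → ℝ, (cube n).indicator G (asm e u) =
      ∏ i, (cube (m i)).indicator (fun w => F i w * ker w (prj e i y, t)) (u i) := by
    intro u
    by_cases hu : ∀ i, u i ∈ cube (m i)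
    · rw [indicator_of_mem ((asm_cube e u).2 hu)]
      have e2 : ∏ i, (cube (m i)).indicator (fun w => F i w * ker w (prj e i y, t)) (u i) =
          ∏ i, (F i (u i) * ker (u i) (prj e i y, t)) :=
        Finset.prod_congr rfl fun i _ => indicator_of_mem (hu i) _
      rw [e2, Finset.prod_mul_distrib, ← ker_blocks, hG]
      simp only [prj_asm]
    · rw [indicator_of_notMem (fun hc => hu ((asm_cube e u).1 hc))]
      push Not at hu
      obtain ⟨i, hi⟩ := hu
      rw [Finset.prod_eq_zero (Finset.mem_univ i)]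
      exact indicator_of_notMem hi _
  rw [e0, ← (asm_mp e).map_eq, integral_map (asm_mp e).measurable.aemeasurable
    hIm.aestronglyMeasurable]
  simp_rw [e1]
  rw [integral_fintype_prod_eq_prod
    (fun i w => (cube (m i)).indicator (fun w => F i w * ker w (prj e i y, t)) w)]
  refine Finset.prod_congr rfl fun i _ => ?_
  rw [integral_indicator measurableSet_Icc]
  rfl

theorem NQ_blocks (e : (Σ i, Fin (m i)) ≃ Fin n) (F : ∀ i, (Fin (m i) → ℝ) → ℂ)
    (hF : ∀ i, Measurable (F i)) (q : ℝ) (hq : 0 ≤ q) (t : ℝ) :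
    NQ (fun ξ => ∏ i, F i (prj e i ξ)) q t = ∏ i, NQ (F i) q t := by
  have hm : ∀ i, Measurable (fun w : Fin (m i) → ℝ => ‖ext (F i) (w, t)‖ₑ ^ q) := fun i =>
    ((ext_meas1 _ (hF i)).comp (f := fun w : Fin (m i) → ℝ => (w, t)) (by fun_prop)).enorm.pow_const q
  unfold NQ
  rw [← lint_prodN (μ := fun i => (volume : Measure (Fin (m i) → ℝ)))
    (fun i w => ‖ext (F i) (w, t)‖ₑ ^ q) hm]
  have hFm : Measurable (fun y : Fin n → ℝ => ‖ext (fun ξ => ∏ i, F i (prj e i ξ)) (y, t)‖ₑ ^ q) :=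
    ((ext_meas1 _ (Finset.measurable_prod _ fun i _ => (hF i).comp (prj_meas e i))).comp
      (f := fun w : Fin n → ℝ => (w, t)) (by fun_prop)).enorm.pow_const q
  rw [← (asm_mp e).lintegral_comp hFm]
  apply lintegral_congr
  intro u
  rw [ext_blocks e F hF, ← ofReal_norm, norm_prod,
    ENNReal.ofReal_prod_of_nonneg fun i _ => norm_nonneg _]
  simp_rw [ofReal_norm, prj_asm]
  exact (ENNReal.prod_rpow_of_nonneg hq).symm

end Pool.Agent.Q63.Mix
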