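import Mathlib
import Pool.Agent.Q63.Mix.Sig
set_option autoImplicit false

/-! The restriction estimate for tensor products of functions from good classes. -/

namespace Pool.Agent.Q63.Mix

open MeasureTheory Set Complex Pool.Agent.Q63.Star
open Pool.Agent.H147R3.PE (SS SS_meas SS_vol)
open scoped ENNReal NNReal ComplexConjugate

lemma ext_sup {n : ℕ} {F : (Fin n → ℝ) → ℂ} (h1 : ∀ ξ, ‖F ξ‖ ≤ 1) (y : (Fin n → ℝ) × ℝ) :
    ‖ext F y‖ₑ ≤ volume (cube n) := by
  unfold ext
  refine (enorm_integral_le_lintegral_enorm _).trans ?_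
  calc _ ≤ ∫⁻ _ in cube n, 1 := by
        apply lintegral_mono
        intro ξ
        simp only
        rw [← ofReal_norm, ENNReal.ofReal_le_one, norm_mul]
        have := ker_norm ξ y
        unfold ker at this
        rw [this, mul_one]
        exact h1 ξ
    _ = _ := by rw [lintegral_const, one_mul, Measure.restrict_apply_univ]

lemma NQ_logc {n : ℕ} {F : (Fin n → ℝ) → ℂ} (hF : Measurable F) (p : ℝ) (hp : 2 < p) (hp4 : p < 4)
    (t : ℝ) : NQ F p t ≤ NQ F 2 t ^ ((4 - p) / 2) * NQ F 4 t ^ ((p - 2) / 2) := by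
  unfold NQ
  simp_rw [two_rpow, four_rpow]
  exact logcm volume (fun y : Fin n → ℝ => ‖ext F (y, t)‖ₑ)
    ((ext_meas1 F hF).comp (f := fun y : Fin n → ℝ => (y, t)) (by fun_prop)).enorm p hp hp4

lemma NQ_sup {n : ℕ} {F : (Fin n → ℝ) → ℂ} (h1 : ∀ ξ, ‖F ξ‖ ≤ 1) (p q : ℝ) (hp : 0 ≤ p)
    (hpq : p ≤ q) (t : ℝ) : NQ F q t ≤ volume (cube n) ^ (q - p) * NQ F p t := by
  unfold NQ
  rw [← lintegral_const_mul' _ _ (ENNReal.rpow_ne_top_of_nonneg (by linarith) (vol_cube n))]
  apply lintegral_mono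
  intro y
  exact pw_up _ _ (ext_sup h1 _) p q hp hpq

lemma coverS (G : ℝ → ℝ≥0∞) : ∫⁻ t, G t ≤ (∫⁻ t in Ioo (-1 : ℝ) 1, G t) +
    ∑' j : ℕ, ∫⁻ t in SS (2 ^ j), G t := by
  have h : (univ : Set ℝ) ⊆ Ioo (-1) 1 ∪ ⋃ j : ℕ, SS (2 ^ j) := by
    intro t _
    by_cases h1 : |t| < 1
    · left
      exact abs_lt.1 h1
    · right
      rw [mem_iUnion]
      obtain ⟨j, hj1, hj2⟩ := exists_nat_pow_near (x := |t|) (y := 2) (not_lt.1 h1) (by norm_num)
      refine ⟨j, hj1, ?_⟩
      rw [pow_succ] at hj2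
      linarith
  calc ∫⁻ t, G t = ∫⁻ t in univ, G t := by rw [Measure.restrict_univ]
    _ ≤ _ := (lintegral_mono_set h).trans ((lintegral_union_le _ _ _).trans
      (add_le_add le_rfl (lintegral_iUnion_le _ _)))

/-- **Tensor products of functions from good classes.** -/
theorem tens {N n : ℕ} (m : Fin N → ℕ) (e : (Σ i, Fin (m i)) ≃ Fin n) (hN0 : 0 < N) (hN : N < n)
    (𝒢 : ∀ i, ((Fin (m i) → ℝ) → ℂ) → Prop) (h𝒢 : ∀ i, Gd (m i) (𝒢 i)) (q : ℝ)
    (hq : 2 + 2 / (n : ℝ) < q) : ∃ C : ℝ≥0∞, C ≠ ∞ ∧ ∀ F : ∀ i, (Fin (m i) → ℝ) → ℂ,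
      (∀ i, 𝒢 i (F i)) →
      ∫⁻ y : (Fin n → ℝ) × ℝ, ‖ext (fun ξ => ∏ i, F i (prj e i ξ)) y‖ₑ ^ q ≤ C := by
  have hN1 : (1 : ℝ) ≤ N := by exact_mod_cast hN0
  have hNn : (N : ℝ) + 1 ≤ n := by exact_mod_cast hN
  have hn0 : (0 : ℝ) < n := by linarith
  have hsum : ∑ i, ((m i : ℕ) : ℝ) = n := by
    have h1 := Fintype.card_congr e
    rw [Fintype.card_sigma] at h1
    simp only [Fintype.card_fin] at h1
    rw [← h1]
    push_cast
    rfl
  -- the exponent
  set p : ℝ := min q (2 + 2 / ((N : ℝ) + 1 / 2)) with hp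
  have hpq : p ≤ q := min_le_left _ _
  have hpN : p ≤ 2 + 2 / ((N : ℝ) + 1 / 2) := min_le_right _ _
  have hpn : 2 + 2 / (n : ℝ) < p := by
    refine lt_min hq ?_
    have : 2 / (n : ℝ) < 2 / ((N : ℝ) + 1 / 2) :=
      div_lt_div_of_pos_left (by norm_num) (by linarith) (by linarith)
    linarith
  have h2n : 0 < 2 / (n : ℝ) := by positivity
  have hp2 : 2 < p := by linarith
  have hp4 : p < 4 := by
    have : 2 / ((N : ℝ) + 1 / 2) < 2 := by
      rw [div_lt_iff₀ (by linarith)]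
      linarith
    linarith
  set s : ℝ := (p - 2) / 2 with hs
  have hs0 : 0 < s := by rw [hs]; linarith
  have hs1 : s < 1 := by rw [hs]; linarith
  have hNs : N * s < 1 := by
    have h1 : s ≤ 1 / ((N : ℝ) + 1 / 2) := by
      rw [hs]
      have h3 : (p - 2) / 2 ≤ (2 / ((N : ℝ) + 1 / 2)) / 2 := by linarith
      refine h3.trans (le_of_eq ?_)
      ring
    calc (N : ℝ) * s ≤ N * (1 / ((N : ℝ) + 1 / 2)) := by gcongr
      _ < 1 := by
        rw [mul_one_div, div_lt_one (by linarith)]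
        linarith
  have hsn : 1 < s * n := by
    have h1 : 2 / (n : ℝ) < p - 2 := by linarith
    rw [div_lt_iff₀ hn0] at h1
    rw [hs]
    linarith
  set ε : ℝ := min (1 / 2) ((s * n - 1) / 2) with hε
  have hε0 : 0 < ε := lt_min (by norm_num) (by linarith)
  have hε1 : ε < 1 := lt_of_le_of_lt (min_le_left _ _) (by norm_num)
  have hε2 : ε ≤ (s * n - 1) / 2 := min_le_right _ _
  set τ : ℝ := (s * n - 1) / 2 with hτ
  have hτ0 : 0 < τ := by rw [hτ]; linarith
  choose M hM0 hM using fun i => (h𝒢 i).two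
  choose K hK0 hK using fun i => (h𝒢 i).four ε hε0 hε1
  set cM : ℝ≥0∞ := ∏ i, ENNReal.ofReal (M i) ^ ((4 - p) / 2) with hcM
  have hcMne : cM ≠ ∞ := ENNReal.prod_ne_top fun i _ =>
    ENNReal.rpow_ne_top_of_nonneg (by linarith) ENNReal.ofReal_ne_top
  set Kc : ℝ := (∏ i, K i ^ s) * 4 ^ (1 - N * s) with hKc
  have hKc0 : 0 < Kc := by
    have : 0 < ∏ i, K i ^ s := Finset.prod_pos fun i _ => Real.rpow_pos_of_pos (hK0 i) _
    positivity
  -- dyadic estimate
  have hdy : ∀ R : ℝ, 1 ≤ R → ∀ F : ∀ i, (Fin (m i) → ℝ) → ℂ, (∀ i, 𝒢 i (F i)) →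
      ∫⁻ t in SS R, ∏ i, NQ (F i) p t ≤ cM * ENNReal.ofReal (Kc * R ^ (-τ)) := by
    intro R hR F hF
    have hR0 : 0 < R := by linarith
    have hFm := fun i => (h𝒢 i).meas (F i) (hF i)
    have hpt : ∀ t, ∏ i, NQ (F i) p t ≤ cM * ∏ i, NQ (F i) 4 t ^ s := by
      intro t
      rw [hcM, ← Finset.prod_mul_distrib]
      refine Finset.prod_le_prod' fun i _ => ?_
      refine (NQ_logc (hFm i) p hp2 hp4 t).trans (mul_le_mul' ?_ le_rfl)
      exact ENNReal.rpow_le_rpow (hM i (F i) (hF i) t) (by linarith)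
    have hhol := ENNReal.lintegral_prod_norm_pow_le (μ := volume.restrict (SS R))
      (Finset.univ : Finset (Option (Fin N)))
      (f := fun o : Option (Fin N) => o.elim (fun _ => 1) (fun i => NQ (F i) 4))
      (fun o _ => by
        cases o with
        | none => exact aemeasurable_const
        | some i => exact (NQ_meas (hFm i) 4).aemeasurable)
      (p := fun o : Option (Fin N) => o.elim (1 - N * s) (fun _ => s))
      (by
        rw [Fintype.sum_option]
        simp only [Option.elim]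
        rw [Finset.sum_const, Finset.card_univ, Fintype.card_fin, nsmul_eq_mul]
        ring)
      (fun o _ => by
        cases o with
        | none => simp only [Option.elim]; linarith
        | some i => simp only [Option.elim]; linarith)
    simp only [Fintype.prod_option, Option.elim, ENNReal.one_rpow, one_mul] at hhol
    have hvol : ∫⁻ _ in SS R, (1 : ℝ≥0∞) ≤ ENNReal.ofReal (4 * R) := by
      rw [lintegral_const, one_mul, Measure.restrict_apply_univ]
      exact SS_vol R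
    have h1Ns : 0 ≤ 1 - N * s := by linarith
    calc ∫⁻ t in SS R, ∏ i, NQ (F i) p t ≤ ∫⁻ t in SS R, cM * ∏ i, NQ (F i) 4 t ^ s :=
          lintegral_mono hpt
      _ = cM * ∫⁻ t in SS R, ∏ i, NQ (F i) 4 t ^ s := lintegral_const_mul' _ _ hcMne
      _ ≤ cM * (ENNReal.ofReal (4 * R) ^ (1 - N * s) *
          ∏ i, ENNReal.ofReal (K i * R ^ (1 - (m i : ℝ) + ε)) ^ s) := by
          refine mul_le_mul' le_rfl (hhol.trans (mul_le_mul' ?_ ?_))
          · exact ENNReal.rpow_le_rpow hvol h1Ns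
          · exact Finset.prod_le_prod' fun i _ =>
              ENNReal.rpow_le_rpow (hK i R hR (F i) (hF i)) hs0.le
      _ ≤ cM * ENNReal.ofReal (Kc * R ^ (-τ)) := by
          refine mul_le_mul' le_rfl ?_
          have e1 : ∏ i, ENNReal.ofReal (K i * R ^ (1 - (m i : ℝ) + ε)) ^ s =
              ENNReal.ofReal (∏ i, (K i * R ^ (1 - (m i : ℝ) + ε)) ^ s) := by
            rw [ENNReal.ofReal_prod_of_nonneg fun i _ => by
              have := hK0 i
              positivity]
            refine Finset.prod_congr rfl fun i _ => ?_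
            have := hK0 i
            exact ENNReal.ofReal_rpow_of_nonneg (by positivity) hs0.le
          have hpp : 0 ≤ (4 * R) ^ (1 - N * s) := by positivity
          rw [e1, ENNReal.ofReal_rpow_of_nonneg (by positivity) h1Ns, ← ENNReal.ofReal_mul hpp]
          apply ENNReal.ofReal_le_ofReal
          have e2 : ∏ i, (K i * R ^ (1 - (m i : ℝ) + ε)) ^ s =
              (∏ i, K i ^ s) * R ^ (s * (N - n + N * ε)) := by
            have e3 : ∀ i, (K i * R ^ (1 - (m i : ℝ) + ε)) ^ s =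
                K i ^ s * R ^ (s * (1 - (m i : ℝ) + ε)) := by
              intro i
              rw [Real.mul_rpow (hK0 i).le (by positivity), ← Real.rpow_mul hR0.le, mul_comm s]
            simp_rw [e3]
            rw [Finset.prod_mul_distrib, ← Real.rpow_sum_of_pos hR0, ← Finset.mul_sum]
            congr 3
            rw [Finset.sum_add_distrib, Finset.sum_sub_distrib, hsum]
            simp
          rw [e2, Real.mul_rpow (by norm_num) hR0.le, hKc]
          have e4 : 4 ^ (1 - N * s) * R ^ (1 - N * s) *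
              ((∏ i, K i ^ s) * R ^ (s * (N - n + N * ε))) =
              (∏ i, K i ^ s) * 4 ^ (1 - N * s) * (R ^ (1 - N * s) *
                R ^ (s * (N - n + N * ε))) := by ring
          rw [e4, ← Real.rpow_add hR0]
          have hc0 : 0 ≤ (∏ i, K i ^ s) * (4 : ℝ) ^ (1 - N * s) := by rw [← hKc]; exact hKc0.le
          refine mul_le_mul_of_nonneg_left (Real.rpow_le_rpow_of_exponent_le hR ?_) hc0
          have e5 : 1 - N * s + s * (N - n + N * ε) = 1 - s * n + (N * s) * ε := by ring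
          rw [e5, hτ]
          have e6 : (N * s) * ε ≤ 1 * ε := by
            refine mul_le_mul_of_nonneg_right hNs.le hε0.le
          linarith
  -- small times
  set cS : ℝ≥0∞ := ∏ i, volume (cube (m i)) ^ (p - 2) * ENNReal.ofReal (M i) with hcS
  have hcSne : cS ≠ ∞ := ENNReal.prod_ne_top fun i _ => ENNReal.mul_ne_top
    (ENNReal.rpow_ne_top_of_nonneg (by linarith) (vol_cube _)) ENNReal.ofReal_ne_top
  have hsm : ∀ F : ∀ i, (Fin (m i) → ℝ) → ℂ, (∀ i, 𝒢 i (F i)) → ∀ t,
      ∏ i, NQ (F i) p t ≤ cS := by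
    intro F hF t
    refine Finset.prod_le_prod' fun i _ => ?_
    refine (NQ_sup ((h𝒢 i).le (F i) (hF i)) 2 p (by norm_num) hp2.le t).trans
      (mul_le_mul' le_rfl (hM i (F i) (hF i) t))
  set r : ℝ≥0∞ := ENNReal.ofReal (2 ^ (-τ)) with hr
  have hr1 : r < 1 := by
    rw [hr, ENNReal.ofReal_lt_one]
    exact Real.rpow_lt_one_of_one_lt_of_neg (by norm_num) (by linarith)
  have hVne : volume (cube n) ^ (q - p) ≠ ∞ :=
    ENNReal.rpow_ne_top_of_nonneg (by linarith) (vol_cube n)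
  refine ⟨volume (cube n) ^ (q - p) * (cS * 2 + cM * (ENNReal.ofReal Kc * (1 - r)⁻¹)), ?_, ?_⟩
  · have h1 : (1 - r)⁻¹ ≠ ∞ := by
      rw [Ne, ENNReal.inv_eq_top]
      exact (tsub_pos_of_lt hr1).ne'
    exact ENNReal.mul_ne_top hVne (ENNReal.add_ne_top.2 ⟨ENNReal.mul_ne_top hcSne (by norm_num),
      ENNReal.mul_ne_top hcMne (ENNReal.mul_ne_top ENNReal.ofReal_ne_top h1)⟩)
  intro F hF
  have hFm := fun i => (h𝒢 i).meas (F i) (hF i)
  have hprod : Measurable (fun ξ : Fin n → ℝ => ∏ i, F i (prj e i ξ)) :=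
    Finset.measurable_prod _ fun i _ => (hFm i).comp (prj_meas e i)
  have hle : ∀ ξ : Fin n → ℝ, ‖∏ i, F i (prj e i ξ)‖ ≤ 1 := by
    intro ξ
    rw [norm_prod]
    exact Finset.prod_le_one (fun i _ => norm_nonneg _) fun i _ => (h𝒢 i).le (F i) (hF i) _
  have hm : Measurable (fun y : (Fin n → ℝ) × ℝ =>
      ‖ext (fun ξ => ∏ i, F i (prj e i ξ)) y‖ₑ ^ q) := (ext_meas1 _ hprod).enorm.pow_const q
  calc ∫⁻ y : (Fin n → ℝ) × ℝ, ‖ext (fun ξ => ∏ i, F i (prj e i ξ)) y‖ₑ ^ q =
      ∫⁻ t : ℝ, NQ (fun ξ => ∏ i, F i (prj e i ξ)) q t := by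
        rw [Measure.volume_eq_prod, lintegral_prod_symm _ hm.aemeasurable]
        rfl
    _ ≤ ∫⁻ t : ℝ, volume (cube n) ^ (q - p) * ∏ i, NQ (F i) p t := by
        apply lintegral_mono
        intro t
        simp only
        rw [← NQ_blocks e F hFm p (by linarith) t]
        exact NQ_sup hle p q (by linarith) hpq t
    _ = volume (cube n) ^ (q - p) * ∫⁻ t : ℝ, ∏ i, NQ (F i) p t := lintegral_const_mul' _ _ hVne
    _ ≤ volume (cube n) ^ (q - p) * (cS * 2 + cM * (ENNReal.ofReal Kc * (1 - r)⁻¹)) := by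
        refine mul_le_mul' le_rfl ((coverS _).trans (add_le_add ?_ ?_))
        · calc ∫⁻ t in Ioo (-1 : ℝ) 1, ∏ i, NQ (F i) p t ≤ ∫⁻ _ in Ioo (-1 : ℝ) 1, cS :=
              lintegral_mono (hsm F hF)
            _ = cS * 2 := by
              rw [lintegral_const, Measure.restrict_apply_univ, Real.volume_Ioo]
              norm_num
        · calc ∑' j : ℕ, ∫⁻ t in SS (2 ^ j), ∏ i, NQ (F i) p t ≤
              ∑' j : ℕ, cM * (ENNReal.ofReal Kc * r ^ j) := by
                refine ENNReal.tsum_le_tsum fun j => ?_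
                have hj : (1 : ℝ) ≤ 2 ^ j := one_le_pow₀ (by norm_num)
                refine (hdy (2 ^ j) hj F hF).trans (mul_le_mul' le_rfl (le_of_eq ?_))
                rw [hr, ← ENNReal.ofReal_pow (by positivity), ← ENNReal.ofReal_mul hKc0.le]
                congr 2
                rw [← Real.rpow_natCast, ← Real.rpow_natCast, ← Real.rpow_mul (by norm_num),
                  ← Real.rpow_mul (by norm_num), mul_comm]
            _ = _ := by
                rw [ENNReal.tsum_mul_left, ENNReal.tsum_mul_left, ENNReal.tsum_geometric]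

end Pool.Agent.Q63.Mix
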